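import Mathlib

/-!
# Linear algebra in `ℂ²`

`xx z p` is the Hermitian product (linear in `z`), `uu z p` the determinant of `(p, z)`, and
`jj p` the unit vector orthogonal to `p`.
-/

namespace Pool.Agent.RudinExc

open Complex ComplexConjugate

/-- The space `ℂ²`. -/
abbrev V : Type := EuclideanSpace ℂ (Fin 2)

/-- Hermitian product of `z` and `p`, linear in `z`. -/
noncomputable def xx (z p : V) : ℂ := z 0 * conj (p 0) + z 1 * conj (p 1)

/-- Determinant of `(p, z)`. -/
noncomputable def uu (z p : V) : ℂ := z 1 * p 0 - z 0 * p 1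

/-- The orthogonal vector. -/
noncomputable def jj (p : V) : V := !₂[-conj (p 1), conj (p 0)]

@[simp] theorem jj_zero_coord (p : V) : jj p 0 = -conj (p 1) := rfl
@[simp] theorem jj_one_coord (p : V) : jj p 1 = conj (p 0) := rfl

theorem norm_sq_eq (z : V) : ‖z‖ ^ 2 = ‖z 0‖ ^ 2 + ‖z 1‖ ^ 2 := by
  rw [EuclideanSpace.norm_sq_eq]
  simp [Fin.sum_univ_two]

theorem xx_add_left (z w p : V) : xx (z + w) p = xx z p + xx w p := by
  simp only [xx, PiLp.add_apply]; ring

theorem xx_sub_left (z w p : V) : xx (z - w) p = xx z p - xx w p := by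
  simp only [xx, PiLp.sub_apply]; ring

theorem xx_smul_left (c : ℂ) (z p : V) : xx (c • z) p = c * xx z p := by
  simp only [xx, PiLp.smul_apply, smul_eq_mul]; ring

theorem xx_add_right (z p q : V) : xx z (p + q) = xx z p + xx z q := by
  simp only [xx, PiLp.add_apply, map_add]; ring

theorem xx_sub_right (z p q : V) : xx z (p - q) = xx z p - xx z q := by
  simp only [xx, PiLp.sub_apply, map_sub]; ring

theorem xx_smul_right (c : ℂ) (z p : V) : xx z (c • p) = conj c * xx z p := by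
  simp only [xx, PiLp.smul_apply, smul_eq_mul, map_mul]; ring

theorem uu_add_left (z w p : V) : uu (z + w) p = uu z p + uu w p := by
  simp only [uu, PiLp.add_apply]; ring

theorem uu_smul_left (c : ℂ) (z p : V) : uu (c • z) p = c * uu z p := by
  simp only [uu, PiLp.smul_apply, smul_eq_mul]; ring

theorem uu_sub_right (z p q : V) : uu z (p - q) = uu z p - uu z q := by
  simp only [uu, PiLp.sub_apply]; ring

theorem uu_add_right (z p q : V) : uu z (p + q) = uu z p + uu z q := by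
  simp only [uu, PiLp.add_apply]; ring

theorem uu_self (p : V) : uu p p = 0 := by
  simp only [uu]; ring

theorem normSq_ofReal (w : ℂ) : ((‖w‖ ^ 2 : ℝ) : ℂ) = w * conj w := by
  rw [Complex.mul_conj, Complex.normSq_eq_norm_sq]

theorem xx_self (p : V) : xx p p = ((‖p‖ ^ 2 : ℝ) : ℂ) := by
  rw [norm_sq_eq, Complex.ofReal_add, normSq_ofReal, normSq_ofReal]
  rfl

theorem xx_conj (z p : V) : conj (xx z p) = xx p z := by
  simp only [xx, map_add, map_mul, Complex.conj_conj]; ring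

theorem uu_jj (p : V) : uu (jj p) p = ((‖p‖ ^ 2 : ℝ) : ℂ) := by
  rw [norm_sq_eq, Complex.ofReal_add, normSq_ofReal, normSq_ofReal]
  simp only [uu, jj_zero_coord, jj_one_coord]; ring

theorem xx_jj_left (z p : V) : xx (jj z) p = conj (uu p z) := by
  simp only [xx, uu, jj_zero_coord, jj_one_coord, map_sub, map_mul]; ring

theorem xx_jj_right (z p : V) : xx z (jj p) = uu z p := by
  simp only [xx, uu, jj_zero_coord, jj_one_coord, map_neg, Complex.conj_conj]; ring

theorem xx_jj_self (p : V) : xx (jj p) p = 0 := by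
  rw [xx_jj_left, uu_self, map_zero]

theorem xx_jj_jj (z p : V) : xx (jj z) (jj p) = conj (xx z p) := by
  simp only [xx, jj_zero_coord, jj_one_coord, map_neg, Complex.conj_conj, map_add, map_mul]; ring

theorem norm_jj (p : V) : ‖jj p‖ = ‖p‖ := by
  have h : ‖jj p‖ ^ 2 = ‖p‖ ^ 2 := by
    rw [norm_sq_eq, norm_sq_eq]
    simp only [jj_zero_coord, jj_one_coord, norm_neg, RCLike.norm_conj]; ring
  have := abs_eq_abs.2 (sq_eq_sq_iff_eq_or_eq_neg.1 h)
  rwa [abs_of_nonneg (norm_nonneg _), abs_of_nonneg (norm_nonneg _)] at this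

theorem jj_sub (p q : V) : jj (p - q) = jj p - jj q := by
  ext i
  fin_cases i <;> simp [jj] <;> ring

theorem jj_real_smul (c : ℝ) (p : V) : jj (c • p) = c • jj p := by
  ext i
  fin_cases i <;> simp [jj]

/-- Pythagoras. -/
theorem norm_xx_sq_add (z p : V) : ‖xx z p‖ ^ 2 + ‖uu z p‖ ^ 2 = ‖z‖ ^ 2 * ‖p‖ ^ 2 := by
  have h : (((‖xx z p‖ ^ 2 + ‖uu z p‖ ^ 2 : ℝ)) : ℂ) = ((‖z‖ ^ 2 * ‖p‖ ^ 2 : ℝ) : ℂ) := by
    rw [Complex.ofReal_add, normSq_ofReal, normSq_ofReal, Complex.ofReal_mul, ← xx_self, ← xx_self]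
    simp only [xx, uu, map_add, map_mul, map_sub, Complex.conj_conj]
    ring
  exact_mod_cast h

theorem norm_xx_le (z p : V) : ‖xx z p‖ ≤ ‖z‖ * ‖p‖ := by
  have h := norm_xx_sq_add z p
  apply le_of_sq_le_sq _ (by positivity)
  rw [mul_pow]
  nlinarith [sq_nonneg ‖uu z p‖]

theorem norm_uu_le (z p : V) : ‖uu z p‖ ≤ ‖z‖ * ‖p‖ := by
  have h := norm_xx_sq_add z p
  apply le_of_sq_le_sq _ (by positivity)
  rw [mul_pow]
  nlinarith [sq_nonneg ‖xx z p‖]

/-- The distance to a unit vector. -/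
theorem two_re_one_sub_xx {z p : V} (hp : ‖p‖ = 1) :
    2 * (1 - xx z p).re = ‖z - p‖ ^ 2 + (1 - ‖z‖ ^ 2) := by
  have h : (((‖z - p‖ ^ 2 : ℝ)) : ℂ) = ((‖z‖ ^ 2 : ℝ) : ℂ) - xx z p - xx p z + 1 := by
    rw [← xx_self, ← xx_self, xx_sub_left, xx_sub_right, xx_sub_right, xx_self p, hp]
    push_cast; ring
  have h2 := congrArg Complex.re h
  rw [← xx_conj z p] at h2
  simp only [Complex.ofReal_re, Complex.sub_re, Complex.add_re, Complex.one_re,
    Complex.conj_re] at h2 ⊢
  linarith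

end Pool.Agent.RudinExc
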