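import Pool.Agent.Lib.MP_9f272e_an.Kernel

/-!
# Uniform bound of the functions
-/

namespace Pool.Agent.RudinExc

open Complex ComplexConjugate Set MeasureTheory

theorem int_inv_le (R : ℝ) : ∫ t in (-R)..R, (1 + t ^ 2)⁻¹ ≤ Real.pi := by
  rw [integral_inv_one_add_sq]
  have h1 := Real.arctan_lt_pi_div_two R
  have h2 := Real.neg_pi_div_two_lt_arctan (-R)
  linarith

theorem inv_integrable (a b : ℝ) : IntervalIntegrable (fun t : ℝ => (1 + t ^ 2)⁻¹) volume a b := by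
  apply Continuous.intervalIntegrable
  apply Continuous.inv₀ (by fun_prop)
  intro t
  positivity

theorem ee_add_two_pi (N : ℕ) (t : ℝ) : ee N (t + 2 * Real.pi) = ee N t := by
  unfold ee
  have h : (N : ℂ) * ((t + 2 * Real.pi : ℝ) : ℂ) * I = N * t * I + N * (2 * Real.pi * I) := by
    push_cast; ring
  rw [h, Complex.exp_add, Complex.exp_nat_mul_two_pi_mul_I, mul_one]

namespace Disc

variable (d : Disc)

theorem qq_periodic (s : ℝ) (z : V) : Function.Periodic (fun θ => d.qq s z θ) (2 * Real.pi) := by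
  intro θ
  simp only [qq, cur_add_two_pi]

theorem ker_periodic (N : ℕ) (s : ℝ) (z : V) :
    Function.Periodic (fun θ => d.ker N s z θ) (2 * Real.pi) := by
  intro θ
  simp only [ker, qq, num, cur_add_two_pi, ee_add_two_pi]

theorem FF_eq {N : ℕ} (hN : 0 < N) (s : ℝ) (z : V) (θ₀ : ℝ) :
    d.FF N s z = ((1 / (2 * Real.pi) : ℝ) : ℂ) *
      ∫ t in (-(N * Real.pi))..(N * Real.pi), d.ker N s z (θ₀ + t / N) := by
  have hN' : (N : ℝ) ≠ 0 := by exact_mod_cast hN.ne'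
  rw [intervalIntegral.integral_comp_add_div (fun θ => d.ker N s z θ) hN']
  have e1 : θ₀ + -(N * Real.pi) / N = θ₀ - Real.pi := by field_simp; ring
  have e2 : θ₀ + (N * Real.pi) / N = θ₀ - Real.pi + 2 * Real.pi := by field_simp; ring
  rw [e1, e2, (d.ker_periodic N s z).intervalIntegral_add_eq (θ₀ - Real.pi) 0, zero_add, FF,
    Complex.real_smul, ← mul_assoc, ← Complex.ofReal_mul]
  congr 2
  field_simp

theorem exists_min (s : ℝ) (z : V) : ∃ θ₀ : ℝ, ∀ θ, ‖d.qq s z θ₀‖ ≤ ‖d.qq s z θ‖ := by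
  obtain ⟨θ₀, h0, hmin⟩ := (isCompact_Icc (a := (0 : ℝ)) (b := 2 * Real.pi)).exists_isMinOn
    (nonempty_Icc.2 Real.two_pi_pos.le) (d.qq_continuous_right s z).norm.continuousOn
  refine ⟨θ₀, fun θ => ?_⟩
  obtain ⟨y, hy, hy2⟩ := (d.qq_periodic s z).exists_mem_Ico₀ Real.two_pi_pos θ
  have h1 : ‖d.qq s z θ₀‖ ≤ ‖d.qq s z y‖ := hmin ⟨hy.1, hy.2.le⟩
  have h2 : d.qq s z θ = d.qq s z y := hy2
  rw [h2]
  exact h1

/-- The imaginary part of the scaled denominator. -/
theorem im_D (s : ℝ) (z : V) (θ : ℝ) :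
    (1 + (s : ℂ) ^ 2 - xx z (d.cur θ)).im = -(xx z (d.cur θ)).im := by
  rw [Complex.sub_im, Complex.add_im, Complex.one_im, ← Complex.ofReal_pow, Complex.ofReal_im]
  ring

theorem sup_bound {A : ℝ} (hA : 1 ≤ A) (hν : ∀ t, A / 2 ≤ d.nu t) :
    ∃ s0 : ℝ, 0 < s0 ∧ ∀ (N : ℕ) (s : ℝ), 0 < s → s ^ 2 * N = A → s ≤ s0 →
      ∀ z : V, ‖z‖ ≤ 1 → ‖d.FF N s z‖ ≤ 131 := by
  obtain ⟨δ, hδ, hmono⟩ := d.mono (a := A / 2) (by linarith) hν
  have hπ := Real.pi_pos
  refine ⟨δ / (2 * A), by positivity, fun N s hs hsN hs0 z hz => ?_⟩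
  have hNpos : 0 < N := by
    rcases Nat.eq_zero_or_pos N with h | h
    · rw [h] at hsN; simp at hsN; linarith
    · exact h
  have hNr : (0 : ℝ) < N := by exact_mod_cast hNpos
  obtain ⟨θ₀, hmin⟩ := d.exists_min s z
  rw [d.FF_eq hNpos s z θ₀, norm_mul, Complex.norm_real, Real.norm_eq_abs,
    abs_of_pos (by positivity)]
  -- pointwise bound
  have hpt : ∀ t : ℝ, |t| ≤ N * Real.pi → ‖d.ker N s z (θ₀ + t / N)‖ ≤
      260 * (1 + t ^ 2)⁻¹ + 4 * s ^ 4 / δ ^ 2 := by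
    intro t ht
    have h1 := d.norm_ker_le (N := N) hs hz (θ₀ + t / N)
    have h2 := d.one_le_norm_qq hs hz (θ₀ + t / N)
    have h3 := d.norm_qq_mul hs z (θ₀ + t / N)
    have h30 := d.norm_qq_mul hs z θ₀
    have h4 := hmin (θ₀ + t / N)
    have hq : 0 < ‖d.qq s z (θ₀ + t / N)‖ := by linarith
    have hs2 : 0 < s ^ 2 := by positivity
    have habs : |θ₀ + t / N - θ₀| = |t| / N := by
      rw [add_sub_cancel_left, abs_div, Nat.abs_cast]
    rcases le_or_gt (s ^ 2 * ‖d.qq s z (θ₀ + t / N)‖) δ with hle | hgt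
    · have g1 : ‖1 - xx z (d.cur (θ₀ + t / N))‖ ≤ δ :=
        (d.norm_D_ge (s := s) hz _).trans (by rw [← h3]; exact hle)
      have g2 : ‖1 - xx z (d.cur θ₀)‖ ≤ δ := by
        refine (d.norm_D_ge (s := s) hz _).trans ?_
        rw [← h30]
        exact (mul_le_mul_of_nonneg_left h4 hs2.le).trans hle
      have g3 : |θ₀ + t / N - θ₀| ≤ Real.pi := by
        rw [habs, div_le_iff₀ hNr, mul_comm]
        exact ht
      have g4 := hmono z hz _ _ g3 g1 g2
      rw [habs] at g4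
      have g5 : |(xx z (d.cur (θ₀ + t / N))).im - (xx z (d.cur θ₀)).im| ≤
          s ^ 2 * ‖d.qq s z (θ₀ + t / N)‖ + s ^ 2 * ‖d.qq s z (θ₀ + t / N)‖ := by
        refine (abs_sub _ _).trans (add_le_add ?_ ?_)
        · have := Complex.abs_im_le_norm (1 + (s : ℂ) ^ 2 - xx z (d.cur (θ₀ + t / N)))
          rw [d.im_D, abs_neg] at this
          rw [h3]
          exact this
        · have := Complex.abs_im_le_norm (1 + (s : ℂ) ^ 2 - xx z (d.cur θ₀))
          rw [d.im_D, abs_neg, ← h30] at this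
          exact this.trans (mul_le_mul_of_nonneg_left h4 hs2.le)
      have g6 : |t| ≤ 8 * ‖d.qq s z (θ₀ + t / N)‖ := by
        have e1 : A / 2 / 2 * (|t| / N) = s ^ 2 * (|t| / 4) := by
          rw [← hsN]; field_simp; ring
        rw [e1] at g4
        have e2 : s ^ 2 * (|t| / 4) ≤ s ^ 2 * (2 * ‖d.qq s z (θ₀ + t / N)‖) := by linarith
        have := le_of_mul_le_mul_left e2 hs2
        linarith
      have g7 : 1 + t ^ 2 ≤ 65 * ‖d.qq s z (θ₀ + t / N)‖ ^ 2 := by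
        have e1 : t ^ 2 ≤ (8 * ‖d.qq s z (θ₀ + t / N)‖) ^ 2 := by
          rw [← sq_abs t]
          exact pow_le_pow_left₀ (abs_nonneg t) g6 2
        nlinarith
      have g8 : 4 / ‖d.qq s z (θ₀ + t / N)‖ ^ 2 ≤ 260 * (1 + t ^ 2)⁻¹ := by
        rw [← div_eq_mul_inv, div_le_div_iff₀ (by positivity) (by positivity)]
        linarith
      have : 0 ≤ 4 * s ^ 4 / δ ^ 2 := by positivity
      linarith
    · have g1 : δ / s ^ 2 ≤ ‖d.qq s z (θ₀ + t / N)‖ := by
        rw [div_le_iff₀ hs2, mul_comm]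
        exact hgt.le
      have g2 : 4 / ‖d.qq s z (θ₀ + t / N)‖ ^ 2 ≤ 4 * s ^ 4 / δ ^ 2 := by
        have e1 : (δ / s ^ 2) ^ 2 ≤ ‖d.qq s z (θ₀ + t / N)‖ ^ 2 :=
          pow_le_pow_left₀ (by positivity) g1 2
        have e2 : 4 * s ^ 4 / δ ^ 2 = 4 / (δ / s ^ 2) ^ 2 := by field_simp
        rw [e2]
        exact div_le_div_of_nonneg_left (by norm_num) (by positivity) e1
      have : 0 ≤ 260 * (1 + t ^ 2)⁻¹ := by positivity
      linarith
  have hle : -(N * Real.pi) ≤ N * Real.pi := by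
    have : 0 < N * Real.pi := by positivity
    linarith
  have hint : ‖∫ t in (-(N * Real.pi))..(N * Real.pi), d.ker N s z (θ₀ + t / N)‖ ≤
      ∫ t in (-(N * Real.pi))..(N * Real.pi), (260 * (1 + t ^ 2)⁻¹ + 4 * s ^ 4 / δ ^ 2) := by
    apply intervalIntegral.norm_integral_le_of_norm_le hle
    · refine Filter.Eventually.of_forall fun t ht => hpt t ?_
      rw [abs_le]
      exact ⟨ht.1.le, ht.2⟩
    · exact ((inv_integrable _ _).const_mul _).add intervalIntegrable_const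
  rw [intervalIntegral.integral_add ((inv_integrable _ _).const_mul _) intervalIntegrable_const,
    intervalIntegral.integral_const_mul, intervalIntegral.integral_const, smul_eq_mul] at hint
  have h5 := int_inv_le (N * Real.pi)
  have h6 : (N * Real.pi - -(N * Real.pi)) * (4 * s ^ 4 / δ ^ 2) =
      2 * Real.pi * (4 * A * s ^ 2 / δ ^ 2) := by
    rw [← hsN]; field_simp; ring
  rw [h6] at hint
  have h7 : 4 * A * s ^ 2 / δ ^ 2 ≤ 1 := by
    rw [div_le_one (by positivity)]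
    rw [le_div_iff₀ (by positivity)] at hs0
    have e1 : (s * (2 * A)) ^ 2 ≤ δ ^ 2 := pow_le_pow_left₀ (by positivity) hs0 2
    have e2 : 4 * A * s ^ 2 ≤ 4 * A * s ^ 2 * A := by
      have : 0 ≤ 4 * A * s ^ 2 := by positivity
      nlinarith
    nlinarith
  have h8 : 1 / (2 * Real.pi) * ‖∫ t in (-(N * Real.pi))..(N * Real.pi),
      d.ker N s z (θ₀ + t / N)‖ ≤ 1 / (2 * Real.pi) * (262 * Real.pi) := by
    apply mul_le_mul_of_nonneg_left _ (by positivity)
    refine hint.trans ?_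
    nlinarith
  refine h8.trans (le_of_eq ?_)
  field_simp
  norm_num

end Disc

end Pool.Agent.RudinExc
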