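import Pool.Agent.Lib.MP_9f272e_an.Inv
import Pool.Agent.Lib.MP_9f272e_an.Sup

/-!
# Asymptotics near the new curve
-/

namespace Pool.Agent.RudinExc

open Complex ComplexConjugate Set MeasureTheory Filter Topology

/-- The scaling factor. -/
noncomputable def aa (σ s : ℝ) : ℝ := (1 - σ * s ^ 2) * ci s

theorem aa_bounds {σ s : ℝ} (hσ : 0 ≤ σ) (hs : 0 < s) (hs1 : s ≤ 1) (hσs : σ * s ^ 2 ≤ 1) :
    0 ≤ aa σ s ∧ aa σ s ≤ 1 ∧ |aa σ s - 1| ≤ (1 + σ) * s ^ 2 ∧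
      |(1 + s ^ 2 - aa σ s) / s ^ 2 - (3 / 2 + σ)| ≤ (1 + σ) * s ^ 2 := by
  have hsabs : |s| ≤ 1 := by rwa [abs_of_pos hs]
  have h1 := ci_lower hsabs
  have h2 := ci_upper hsabs
  have h3 := ci_pos s
  have h4 := ci_le_one s
  have hs2 : 0 < s ^ 2 := by positivity
  have h5 : 0 ≤ 1 - σ * s ^ 2 := by linarith
  have h6 : 1 - σ * s ^ 2 ≤ 1 := by nlinarith
  have h7 : 0 ≤ σ * s ^ 2 := by positivity
  refine ⟨mul_nonneg h5 h3.le, ?_, ?_, ?_⟩
  · unfold aa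
    nlinarith
  · unfold aa
    rw [abs_le]
    constructor <;> nlinarith
  · have e : (1 + s ^ 2 - aa σ s) / s ^ 2 - (3 / 2 + σ) =
        ((1 - σ * s ^ 2) * (1 - s ^ 2 / 2 - ci s) - σ * (s ^ 2) ^ 2 / 2) / s ^ 2 := by
      unfold aa
      field_simp
      ring
    rw [e, abs_div, abs_of_pos hs2, div_le_iff₀ hs2]
    have h8 : |(1 - σ * s ^ 2) * (1 - s ^ 2 / 2 - ci s)| ≤ (s ^ 2) ^ 2 := by
      rw [abs_mul, abs_of_nonneg h5]
      have : |1 - s ^ 2 / 2 - ci s| ≤ (s ^ 2) ^ 2 := by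
        rw [abs_le]
        constructor
        · linarith
        · have : 0 ≤ (s ^ 2) ^ 2 := by positivity
          linarith
      calc (1 - σ * s ^ 2) * |1 - s ^ 2 / 2 - ci s| ≤ 1 * (s ^ 2) ^ 2 :=
            mul_le_mul h6 this (abs_nonneg _) zero_le_one
        _ = (s ^ 2) ^ 2 := one_mul _
    have h9 : |σ * (s ^ 2) ^ 2 / 2| ≤ σ * (s ^ 2) ^ 2 := by
      rw [abs_of_nonneg (by positivity)]
      have : 0 ≤ σ * (s ^ 2) ^ 2 := by positivity
      linarith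
    refine (abs_sub _ _).trans ?_
    nlinarith

namespace Disc

variable (d : Disc)

/-- The test points. -/
noncomputable def pt (N : ℕ) (s σ θ₀ : ℝ) : V := (aa σ s : ℂ) • bump s (ee N θ₀) (d.cur θ₀)

theorem norm_pt (N : ℕ) {s σ : ℝ} (θ₀ : ℝ) (h : 0 ≤ 1 - σ * s ^ 2) :
    ‖d.pt N s σ θ₀‖ = 1 - σ * s ^ 2 := by
  have e1 := norm_bump_sq (s := s) (d.norm_one θ₀) (ee_mul_conj N θ₀)
  have e2 : ‖d.pt N s σ θ₀‖ ^ 2 = (1 - σ * s ^ 2) ^ 2 := by
    rw [pt, norm_smul, mul_pow, e1, Complex.norm_real, Real.norm_eq_abs, sq_abs, aa, mul_pow]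
    linear_combination (1 - σ * s ^ 2) ^ 2 * ci_sq s
  exact (pow_left_inj₀ (norm_nonneg _) h two_ne_zero).1 e2

theorem xx_pt (N : ℕ) (s σ θ₀ : ℝ) : xx (d.pt N s σ θ₀) (d.cur θ₀) = aa σ s := by
  rw [pt, xx_smul_left, xx_bump (d.norm_one θ₀), mul_one]

/-- Lower bound for the denominator at the test points. -/
theorem qq_lower {A : ℝ} (hA : 1 ≤ A) (hν : ∀ t, A / 2 ≤ d.nu t) {σ : ℝ} (hσ : 0 ≤ σ) :
    ∃ c s0 : ℝ, 0 < c ∧ c ≤ 1 / 4 ∧ 0 < s0 ∧ ∀ (N : ℕ) (s : ℝ), 0 < s → s ^ 2 * N = A → s ≤ s0 →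
      ∀ θ₀ t : ℝ, |t| ≤ N * Real.pi →
        c * (1 + |t|) ≤ ‖d.qq s (d.pt N s σ θ₀) (θ₀ + t / N)‖ := by
  obtain ⟨δ, hδ, hmono⟩ := d.mono (a := A / 2) (by linarith) hν
  have hπ := Real.pi_pos
  have hc : 0 < min (1 / 4) (δ / (Real.pi * A)) := by positivity
  refine ⟨min (1 / 4) (δ / (Real.pi * A)) / 2, min 1 (min (1 / (1 + σ)) (δ / (1 + σ))),
    by positivity, ?_, by positivity, ?_⟩
  · have := min_le_left (1 / 4) (δ / (Real.pi * A))
    linarith
  intro N s hs hsN hs0 θ₀ t ht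
  have hs1 : s ≤ 1 := hs0.trans (min_le_left _ _)
  have hsσ : s ≤ 1 / (1 + σ) := hs0.trans ((min_le_right _ _).trans (min_le_left _ _))
  have hsδ : s ≤ δ / (1 + σ) := hs0.trans ((min_le_right _ _).trans (min_le_right _ _))
  rw [le_div_iff₀ (by positivity)] at hsσ hsδ
  have hs2s : s ^ 2 ≤ s := by nlinarith
  have hs2 : 0 < s ^ 2 := by positivity
  have hσs : σ * s ^ 2 ≤ 1 := by nlinarith
  obtain ⟨ha0, ha1, ha2, ha3⟩ := aa_bounds hσ hs hs1 hσs
  have hNpos : 0 < N := by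
    rcases Nat.eq_zero_or_pos N with h | h
    · rw [h] at hsN; simp at hsN; linarith
    · exact h
  have hNr : (0 : ℝ) < N := by exact_mod_cast hNpos
  set z := d.pt N s σ θ₀ with hz
  have hznorm : ‖z‖ ≤ 1 := by
    rw [hz, d.norm_pt N θ₀ (by linarith)]
    nlinarith
  have h1 := d.one_le_norm_qq hs hznorm (θ₀ + t / N)
  have h3 := d.norm_qq_mul hs z (θ₀ + t / N)
  have habs : |θ₀ + t / N - θ₀| = |t| / N := by
    rw [add_sub_cancel_left, abs_div, Nat.abs_cast]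
  -- the linear lower bound
  have hlin : min (1 / 4) (δ / (Real.pi * A)) * |t| ≤ ‖d.qq s z (θ₀ + t / N)‖ := by
    rcases le_or_gt ‖1 - xx z (d.cur (θ₀ + t / N))‖ δ with hle | hgt
    · have g2 : ‖1 - xx z (d.cur θ₀)‖ ≤ δ := by
        rw [hz, d.xx_pt, ← Complex.ofReal_one, ← Complex.ofReal_sub, Complex.norm_real,
          Real.norm_eq_abs, abs_sub_comm]
        refine ha2.trans ?_
        nlinarith
      have g3 : |θ₀ + t / N - θ₀| ≤ Real.pi := by
        rw [habs, div_le_iff₀ hNr, mul_comm]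
        exact ht
      have g4 := hmono z hznorm _ _ g3 hle g2
      rw [habs, hz, d.xx_pt, ← hz, Complex.ofReal_im, sub_zero] at g4
      have g5 := Complex.abs_im_le_norm (1 + (s : ℂ) ^ 2 - xx z (d.cur (θ₀ + t / N)))
      rw [d.im_D, abs_neg, ← h3] at g5
      have e1 : A / 2 / 2 * (|t| / N) = s ^ 2 * (1 / 4 * |t|) := by
        rw [← hsN]; field_simp; ring
      rw [e1] at g4
      have g6 := le_of_mul_le_mul_left (g4.trans g5) hs2
      refine le_trans ?_ g6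
      exact mul_le_mul_of_nonneg_right (min_le_left _ _) (abs_nonneg t)
    · have g1 : δ ≤ s ^ 2 * ‖d.qq s z (θ₀ + t / N)‖ := by
        rw [h3]
        exact hgt.le.trans (d.norm_D_ge hznorm _)
      have g2 : δ / (Real.pi * A) * |t| ≤ δ / (Real.pi * A) * (N * Real.pi) :=
        mul_le_mul_of_nonneg_left ht (by positivity)
      have g3 : s ^ 2 * (δ / (Real.pi * A) * (N * Real.pi)) = δ := by
        have : A ≠ 0 := by linarith
        have e : s ^ 2 * (δ / (Real.pi * A) * (N * Real.pi)) = δ * (s ^ 2 * N) / A := by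
          field_simp
        rw [e, hsN]
        field_simp
      have g4 : s ^ 2 * (δ / (Real.pi * A) * (N * Real.pi)) ≤
          s ^ 2 * ‖d.qq s z (θ₀ + t / N)‖ := by rw [g3]; exact g1
      have g5 := le_of_mul_le_mul_left g4 hs2
      refine le_trans ?_ (g2.trans g5)
      exact mul_le_mul_of_nonneg_right (min_le_right _ _) (abs_nonneg t)
  have h4 := min_le_left (1 / 4) (δ / (Real.pi * A))
  linarith

end Disc

end Pool.Agent.RudinExc
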