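import Pool.Agent.Lib.MP_9f272e_an.Asymp

/-!
# The asymptotic value at the test points
-/

namespace Pool.Agent.RudinExc

open Complex ComplexConjugate Set MeasureTheory Filter Topology

namespace Disc

variable (d : Disc)

/-- Pointwise asymptotics of numerator and denominator. -/
theorem local_asymp {A : ℝ} (hA : 1 ≤ A) {σ : ℝ} (hσ : 0 ≤ σ) :
    ∃ C : ℝ, 0 ≤ C ∧ ∀ (N : ℕ) (s : ℝ), 0 < s → s ≤ 1 → σ * s ^ 2 ≤ 1 → s ^ 2 * N = A →
      ∀ θ₀ t : ℝ,
        ‖d.qq s (d.pt N s σ θ₀) (θ₀ + t / N) -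
          (((3 / 2 + σ : ℝ) : ℂ) + ((d.nu θ₀ / A : ℝ) : ℂ) * t * I)‖ ≤ C * s * (1 + t ^ 2) ∧
        ‖(s : ℂ)⁻¹ * uu (d.pt N s σ θ₀) (d.cur (θ₀ + t / N)) * conj (ee N θ₀) - 1‖ ≤
          C * s * (1 + |t|) := by
  obtain ⟨L, hL, b1, b2, b3⟩ := d.bounds
  refine ⟨(1 + σ) * (1 + L) + 2 * L, by positivity, ?_⟩
  intro N s hs hs1 hσs hsN θ₀ t
  obtain ⟨ha0, ha1, ha2, ha3⟩ := aa_bounds hσ hs hs1 hσs
  have hNpos : 0 < N := by
    rcases Nat.eq_zero_or_pos N with h | h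
    · rw [h] at hsN; simp at hsN; linarith
    · exact h
  have hNr : (0 : ℝ) < N := by exact_mod_cast hNpos
  have hs2 : 0 < s ^ 2 := by positivity
  have hs2s : s ^ 2 ≤ s := by nlinarith
  have hsC : (s : ℂ) ≠ 0 := Complex.ofReal_ne_zero.2 hs.ne'
  set a := aa σ s with hadef
  set h := t / N with hh
  set E := ee N θ₀ with hE
  have hEn : ‖E‖ = 1 := norm_ee N θ₀
  have hEE : E * conj E = 1 := ee_mul_conj N θ₀
  set w := d.cur (θ₀ + h) - d.cur θ₀ with hw
  set e := w - (h * I : ℂ) • d.del θ₀ with he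
  have hcur : d.cur (θ₀ + h) = d.cur θ₀ + w := by rw [hw]; abel
  have hwe : w = (h * I : ℂ) • d.del θ₀ + e := by rw [he]; abel
  have hwn : ‖w‖ ≤ L * |h| := b2 θ₀ h
  have hen : ‖e‖ ≤ L * h ^ 2 := b3 θ₀ h
  -- size of `h`
  have hNA : (N : ℝ) = A / s ^ 2 := by rw [← hsN]; field_simp
  have hhs : h = s ^ 2 * t / A := by
    rw [hh, hNA]; field_simp
  have habsh : |h| ≤ s ^ 2 * |t| := by
    rw [hhs, abs_div, abs_mul, abs_of_pos hs2, abs_of_pos (by linarith : 0 < A)]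
    exact div_le_self (by positivity) hA
  have hsqh : h ^ 2 ≤ (s ^ 2) ^ 2 * t ^ 2 := by
    rw [← sq_abs h, ← sq_abs t, ← mul_pow]
    exact pow_le_pow_left₀ (abs_nonneg _) habsh 2
  have hnu : |d.nu θ₀| ≤ L := by
    refine (Complex.abs_re_le_norm _).trans ((norm_xx_le _ _).trans ?_)
    rw [d.norm_one, mul_one]
    exact b1 θ₀
  have e0 : xx (d.cur θ₀) (d.del θ₀) = (d.nu θ₀ : ℂ) := by
    rw [← xx_conj, nu_eq, Complex.conj_ofReal]
  -- the product
  have hbx : xx (bump s E (d.cur θ₀)) (d.cur (θ₀ + h)) =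
      1 + xx (d.cur θ₀) w + s * E * xx (jj (d.cur θ₀)) w := by
    rw [hcur, xx_add_right, xx_bump (d.norm_one θ₀), bump, xx_add_left, xx_smul_left]
    ring
  have hxw : xx (d.cur θ₀) w = -(h * d.nu θ₀) * I + xx (d.cur θ₀) e := by
    rw [hwe, xx_add_right, xx_smul_right, e0]
    simp only [map_mul, Complex.conj_ofReal, Complex.conj_I]
    ring
  have hbu : uu (bump s E (d.cur θ₀)) (d.cur (θ₀ + h)) =
      uu (d.cur θ₀) w + s * E * (1 + uu (jj (d.cur θ₀)) w) := by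
    rw [hcur, uu_add_right, bump, uu_add_left, uu_smul_left, uu_add_left, uu_smul_left, uu_self,
      uu_jj, d.norm_one]
    push_cast
    ring
  have hx : xx (d.pt N s σ θ₀) (d.cur (θ₀ + h)) =
      a * (1 + (-(h * d.nu θ₀) * I + xx (d.cur θ₀) e) + s * E * xx (jj (d.cur θ₀)) w) := by
    rw [pt, xx_smul_left, hbx, hxw]
  have n1 : ‖xx (d.cur θ₀) e‖ ≤ L * h ^ 2 := by
    have := norm_xx_le (d.cur θ₀) e
    rw [d.norm_one, one_mul] at this
    exact this.trans hen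
  have n2 : ‖xx (jj (d.cur θ₀)) w‖ ≤ L * |h| := by
    have := norm_xx_le (jj (d.cur θ₀)) w
    rw [norm_jj, d.norm_one, one_mul] at this
    exact this.trans hwn
  have n3 : ‖uu (d.cur θ₀) w‖ ≤ L * |h| := by
    have := norm_uu_le (d.cur θ₀) w
    rw [d.norm_one, one_mul] at this
    exact this.trans hwn
  have n4 : ‖uu (jj (d.cur θ₀)) w‖ ≤ L * |h| := by
    have := norm_uu_le (jj (d.cur θ₀)) w
    rw [norm_jj, d.norm_one, one_mul] at this
    exact this.trans hwn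
  have hanorm : ‖(a : ℂ)‖ ≤ 1 := by
    rw [Complex.norm_real, Real.norm_eq_abs, abs_of_nonneg ha0]; exact ha1
  have ht1 : |t| ≤ 1 + t ^ 2 := by
    have := sq_abs t
    nlinarith [abs_nonneg t, sq_nonneg (|t| - 1)]
  constructor
  · have key : d.qq s (d.pt N s σ θ₀) (θ₀ + h) -
        (((3 / 2 + σ : ℝ) : ℂ) + ((d.nu θ₀ / A : ℝ) : ℂ) * t * I) =
        (((1 + s ^ 2 - a) / s ^ 2 - (3 / 2 + σ) : ℝ) : ℂ) +
        ((a - 1 : ℝ) : ℂ) * ((h * d.nu θ₀ / s ^ 2 : ℝ) : ℂ) * I -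
        a * (xx (d.cur θ₀) e / s ^ 2) - a * (E * xx (jj (d.cur θ₀)) w / s) := by
      have e1 : d.nu θ₀ / A * t = h * d.nu θ₀ / s ^ 2 := by
        have : A ≠ 0 := by linarith
        rw [hhs]; field_simp
      have e2 : ((d.nu θ₀ / A : ℝ) : ℂ) * t = ((h * d.nu θ₀ / s ^ 2 : ℝ) : ℂ) := by
        rw [← Complex.ofReal_mul, e1]
      rw [e2, qq, hx]
      push_cast
      field_simp
      ring
    rw [key]
    have m1 : ‖(((1 + s ^ 2 - a) / s ^ 2 - (3 / 2 + σ) : ℝ) : ℂ)‖ ≤ (1 + σ) * s := by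
      rw [Complex.norm_real, Real.norm_eq_abs]
      refine ha3.trans ?_
      exact mul_le_mul_of_nonneg_left hs2s (by positivity)
    have m2 : ‖((a - 1 : ℝ) : ℂ) * ((h * d.nu θ₀ / s ^ 2 : ℝ) : ℂ) * I‖ ≤
        (1 + σ) * L * s * |t| := by
      rw [norm_mul, norm_mul, Complex.norm_I, mul_one, Complex.norm_real, Complex.norm_real,
        Real.norm_eq_abs, Real.norm_eq_abs, abs_div, abs_mul, abs_of_pos hs2]
      have f1 : |h| * |d.nu θ₀| / s ^ 2 ≤ |t| * L := by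
        rw [div_le_iff₀ hs2]
        calc |h| * |d.nu θ₀| ≤ (s ^ 2 * |t|) * L :=
              mul_le_mul habsh hnu (abs_nonneg _) (by positivity)
          _ = |t| * L * s ^ 2 := by ring
      calc |a - 1| * (|h| * |d.nu θ₀| / s ^ 2) ≤ ((1 + σ) * s ^ 2) * (|t| * L) :=
            mul_le_mul ha2 f1 (by positivity) (by positivity)
        _ = (1 + σ) * L * |t| * s ^ 2 := by ring
        _ ≤ (1 + σ) * L * |t| * s := mul_le_mul_of_nonneg_left hs2s (by positivity)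
        _ = (1 + σ) * L * s * |t| := by ring
    have m3 : ‖(a : ℂ) * (xx (d.cur θ₀) e / s ^ 2)‖ ≤ L * s * t ^ 2 := by
      rw [norm_mul, norm_div, norm_pow, Complex.norm_real s, Real.norm_eq_abs, abs_of_pos hs]
      have f1 : ‖xx (d.cur θ₀) e‖ / s ^ 2 ≤ L * s * t ^ 2 := by
        rw [div_le_iff₀ hs2]
        calc ‖xx (d.cur θ₀) e‖ ≤ L * ((s ^ 2) ^ 2 * t ^ 2) :=
              n1.trans (mul_le_mul_of_nonneg_left hsqh (by linarith))
          _ = L * t ^ 2 * s ^ 2 * s ^ 2 := by ring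
          _ ≤ L * t ^ 2 * s ^ 2 * s := mul_le_mul_of_nonneg_left hs2s (by positivity)
          _ = L * s * t ^ 2 * s ^ 2 := by ring
      calc ‖(a : ℂ)‖ * (‖xx (d.cur θ₀) e‖ / s ^ 2) ≤ 1 * (L * s * t ^ 2) :=
            mul_le_mul hanorm f1 (by positivity) zero_le_one
        _ = L * s * t ^ 2 := one_mul _
    have m4 : ‖(a : ℂ) * (E * xx (jj (d.cur θ₀)) w / s)‖ ≤ L * s * |t| := by
      rw [norm_mul, norm_div, norm_mul, hEn, one_mul, Complex.norm_real s, Real.norm_eq_abs,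
        abs_of_pos hs]
      have f1 : ‖xx (jj (d.cur θ₀)) w‖ / s ≤ L * s * |t| := by
        rw [div_le_iff₀ hs]
        calc ‖xx (jj (d.cur θ₀)) w‖ ≤ L * (s ^ 2 * |t|) :=
              n2.trans (mul_le_mul_of_nonneg_left habsh (by linarith))
          _ = L * s * |t| * s := by ring
      calc ‖(a : ℂ)‖ * (‖xx (jj (d.cur θ₀)) w‖ / s) ≤ 1 * (L * s * |t|) :=
            mul_le_mul hanorm f1 (by positivity) zero_le_one
        _ = L * s * |t| := one_mul _
    refine (norm_sub_le _ _).trans ?_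
    refine (add_le_add (norm_sub_le _ _) le_rfl).trans ?_
    refine (add_le_add (add_le_add (norm_add_le _ _) le_rfl) le_rfl).trans ?_
    have hsn : 0 ≤ s * (1 + t ^ 2) := by positivity
    have g1 : (1 + σ) * s ≤ (1 + σ) * (s * (1 + t ^ 2)) :=
      mul_le_mul_of_nonneg_left (by nlinarith [sq_nonneg t]) (by positivity)
    have g2 : (1 + σ) * L * s * |t| ≤ (1 + σ) * L * (s * (1 + t ^ 2)) := by
      have : s * |t| ≤ s * (1 + t ^ 2) := mul_le_mul_of_nonneg_left ht1 hs.le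
      calc (1 + σ) * L * s * |t| = (1 + σ) * L * (s * |t|) := by ring
        _ ≤ _ := mul_le_mul_of_nonneg_left this (by positivity)
    have g3 : L * s * t ^ 2 ≤ L * (s * (1 + t ^ 2)) := by
      have : s * t ^ 2 ≤ s * (1 + t ^ 2) := mul_le_mul_of_nonneg_left (by linarith) hs.le
      calc L * s * t ^ 2 = L * (s * t ^ 2) := by ring
        _ ≤ _ := mul_le_mul_of_nonneg_left this (by positivity)
    have g4 : L * s * |t| ≤ L * (s * (1 + t ^ 2)) := by
      have : s * |t| ≤ s * (1 + t ^ 2) := mul_le_mul_of_nonneg_left ht1 hs.le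
      calc L * s * |t| = L * (s * |t|) := by ring
        _ ≤ _ := mul_le_mul_of_nonneg_left this (by positivity)
    have g5 : ((1 + σ) * (1 + L) + 2 * L) * s * (1 + t ^ 2) =
        (1 + σ) * (s * (1 + t ^ 2)) + (1 + σ) * L * (s * (1 + t ^ 2)) + L * (s * (1 + t ^ 2)) +
          L * (s * (1 + t ^ 2)) := by ring
    rw [g5]
    linarith
  · have key : (s : ℂ)⁻¹ * uu (d.pt N s σ θ₀) (d.cur (θ₀ + h)) * conj E - 1 =
        ((a - 1 : ℝ) : ℂ) + a * ((s : ℂ)⁻¹ * (conj E * uu (d.cur θ₀) w) +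
          uu (jj (d.cur θ₀)) w) := by
      rw [pt, uu_smul_left, ← hE, hbu, ← hadef]
      have e1 : (s : ℂ)⁻¹ * (a * (uu (d.cur θ₀) w + s * E * (1 + uu (jj (d.cur θ₀)) w))) * conj E =
          a * ((s : ℂ)⁻¹ * (conj E * uu (d.cur θ₀) w) +
            ((s : ℂ)⁻¹ * s) * (E * conj E) * (1 + uu (jj (d.cur θ₀)) w)) := by ring
      rw [e1, hEE, inv_mul_cancel₀ hsC]
      push_cast
      ring
    rw [key]
    have m1 : ‖((a - 1 : ℝ) : ℂ)‖ ≤ (1 + σ) * s := by
      rw [Complex.norm_real, Real.norm_eq_abs]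
      refine ha2.trans ?_
      exact mul_le_mul_of_nonneg_left hs2s (by positivity)
    have m2 : ‖(s : ℂ)⁻¹ * (conj E * uu (d.cur θ₀) w)‖ ≤ L * s * |t| := by
      rw [norm_mul, norm_mul, RCLike.norm_conj, hEn, one_mul, norm_inv, Complex.norm_real,
        Real.norm_eq_abs, abs_of_pos hs, inv_mul_le_iff₀ hs]
      calc ‖uu (d.cur θ₀) w‖ ≤ L * (s ^ 2 * |t|) :=
            n3.trans (mul_le_mul_of_nonneg_left habsh (by linarith))
        _ = s * (L * s * |t|) := by ring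
    have m3 : ‖uu (jj (d.cur θ₀)) w‖ ≤ L * s * |t| := by
      calc ‖uu (jj (d.cur θ₀)) w‖ ≤ L * (s ^ 2 * |t|) :=
            n4.trans (mul_le_mul_of_nonneg_left habsh (by linarith))
        _ = L * |t| * s ^ 2 := by ring
        _ ≤ L * |t| * s := mul_le_mul_of_nonneg_left hs2s (by positivity)
        _ = L * s * |t| := by ring
    refine (norm_add_le _ _).trans ?_
    rw [norm_mul]
    have m4 : ‖(a : ℂ)‖ * ‖(s : ℂ)⁻¹ * (conj E * uu (d.cur θ₀) w) + uu (jj (d.cur θ₀)) w‖ ≤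
        1 * (2 * (L * s * |t|)) := by
      apply mul_le_mul hanorm _ (norm_nonneg _) zero_le_one
      refine (norm_add_le _ _).trans ?_
      linarith
    have g1 : ((1 + σ) * (1 + L) + 2 * L) * s * (1 + |t|) =
        (1 + σ) * s + 2 * (L * s * |t|) + ((1 + σ) * s * |t| + (1 + σ) * L * s * (1 + |t|) +
          2 * L * s) := by ring
    have g2 : 0 ≤ (1 + σ) * s * |t| + (1 + σ) * L * s * (1 + |t|) + 2 * L * s := by
      have : 0 ≤ L := by linarith
      positivity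
    rw [g1]
    linarith

end Disc

end Pool.Agent.RudinExc
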