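import Pool.Agent.Lib.MP_9f272e_an.Asymp2

/-!
# The asymptotic value at the test points, integrated
-/

namespace Pool.Agent.RudinExc

open Complex ComplexConjugate Set MeasureTheory Filter Topology

theorem ee_add {N : ℕ} (hN : 0 < N) (θ t : ℝ) : ee N (θ + t / N) = ee N θ * cexp (t * I) := by
  have hN' : (N : ℂ) ≠ 0 := by exact_mod_cast hN.ne'
  unfold ee
  rw [← Complex.exp_add]
  congr 1
  push_cast
  field_simp

/-- The numerator after rotation. -/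
theorem num_rot {N : ℕ} (hN : 0 < N) (d : Disc) (s : ℝ) (z : V) (θ t : ℝ) :
    d.num N s z (θ + t / N) * conj (ee N θ) ^ 2 = osc t +
      ((s : ℂ)⁻¹ * uu z (d.cur (θ + t / N)) * conj (ee N θ) - 1) * cexp (t * I) := by
  have h := ee_mul_conj N θ
  rw [Disc.num, ee_add hN, osc]
  linear_combination ((s : ℂ)⁻¹ * uu z (d.cur (θ + t / N)) * conj (ee N θ) * cexp (t * I) -
    bb * cexp (t * I) ^ 2 * (ee N θ * conj (ee N θ) + 1)) * h

namespace Disc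

variable (d : Disc)

theorem kernel_asymp {A : ℝ} (hA : 1 ≤ A) (hν : ∀ t, A / 2 ≤ d.nu t) {σ : ℝ} (hσ : 0 ≤ σ) :
    ∃ C s0 : ℝ, 0 ≤ C ∧ 0 < s0 ∧ ∀ (N : ℕ) (s : ℝ), 0 < s → s ^ 2 * N = A → s ≤ s0 →
      ∀ θ₀ t : ℝ, |t| ≤ N * Real.pi →
        ‖d.ker N s (d.pt N s σ θ₀) (θ₀ + t / N) * conj (ee N θ₀) ^ 2 -
          lim (d.nu θ₀ / A) (3 / 2 + σ) t‖ ≤ C * s * (1 + t ^ 2)⁻¹ := by
  obtain ⟨c, s1, hc, hc4, hs1pos, hlow⟩ := d.qq_lower hA hν hσ
  obtain ⟨C, hC, hloc⟩ := d.local_asymp hA hσ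
  refine ⟨9 * C / c ^ 4 + C / c ^ 3, min s1 (min 1 (1 / (1 + σ))), by positivity, by positivity,
    ?_⟩
  intro N s hs hsN hs0 θ₀ t ht
  have hss1 : s ≤ s1 := hs0.trans (min_le_left _ _)
  have hs1 : s ≤ 1 := hs0.trans ((min_le_right _ _).trans (min_le_left _ _))
  have hsσ : s ≤ 1 / (1 + σ) := hs0.trans ((min_le_right _ _).trans (min_le_right _ _))
  rw [le_div_iff₀ (by positivity)] at hsσ
  have hσs : σ * s ^ 2 ≤ 1 := by nlinarith
  have hNpos : 0 < N := by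
    rcases Nat.eq_zero_or_pos N with h | h
    · rw [h] at hsN; simp at hsN; linarith
    · exact h
  have hlow' := hlow N s hs hsN hss1 θ₀ t ht
  obtain ⟨hq, hu⟩ := hloc N s hs hs1 hσs hsN θ₀ t
  set z := d.pt N s σ θ₀ with hz
  set Q := d.qq s z (θ₀ + t / N) with hQ
  set Q0 : ℂ := ((3 / 2 + σ : ℝ) : ℂ) + ((d.nu θ₀ / A : ℝ) : ℂ) * t * I with hQ0
  set W : ℂ := (s : ℂ)⁻¹ * uu z (d.cur (θ₀ + t / N)) * conj (ee N θ₀) - 1 with hW
  have hv : 1 / 2 ≤ d.nu θ₀ / A := by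
    rw [le_div_iff₀ (by linarith)]
    linarith [hν θ₀]
  have hQ0low : (1 + |t|) / 3 ≤ ‖Q0‖ := norm_line_ge (by linarith) hv
  have htpos : 0 < 1 + |t| := by positivity
  set m : ℝ := c * (1 + |t|) with hm
  have hmpos : 0 < m := by positivity
  have hm0 : m ≤ ‖Q0‖ := by
    refine le_trans ?_ hQ0low
    rw [hm]
    nlinarith
  have e : d.ker N s z (θ₀ + t / N) * conj (ee N θ₀) ^ 2 - lim (d.nu θ₀ / A) (3 / 2 + σ) t =
      osc t * ((Q ^ 3)⁻¹ - (Q0 ^ 3)⁻¹) + W * cexp (t * I) * (Q ^ 3)⁻¹ := by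
    have h1 := num_rot hNpos d s z θ₀ t
    rw [ker, div_mul_eq_mul_div, h1, lim, ← hQ, ← hW, ← hQ0]
    ring
  rw [e]
  have hkeep : (1 + |t|) ^ 2 ≥ 1 + t ^ 2 := one_add_abs_sq_ge t
  have hinv2 : ((1 + |t|) ^ 2)⁻¹ ≤ (1 + t ^ 2)⁻¹ := inv_anti₀ (by positivity) hkeep
  have n1 : ‖osc t * ((Q ^ 3)⁻¹ - (Q0 ^ 3)⁻¹)‖ ≤ 9 * C / c ^ 4 * s * (1 + t ^ 2)⁻¹ := by
    rw [norm_mul]
    have h1 := inv_cube_sub_le hmpos hlow' hm0
    have h2 : 3 * ‖Q - Q0‖ / m ^ 4 ≤ 3 * C / c ^ 4 * s * (1 + t ^ 2)⁻¹ := by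
      calc 3 * ‖Q - Q0‖ / m ^ 4 ≤ 3 * (C * s * (1 + |t|) ^ 2) / m ^ 4 := by
            apply div_le_div_of_nonneg_right _ (by positivity)
            apply mul_le_mul_of_nonneg_left _ (by norm_num)
            exact hq.trans (mul_le_mul_of_nonneg_left hkeep (by positivity))
        _ = 3 * C / c ^ 4 * s * ((1 + |t|) ^ 2)⁻¹ := by
            rw [hm]; field_simp
        _ ≤ 3 * C / c ^ 4 * s * (1 + t ^ 2)⁻¹ :=
            mul_le_mul_of_nonneg_left hinv2 (by positivity)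
    calc ‖osc t‖ * ‖(Q ^ 3)⁻¹ - (Q0 ^ 3)⁻¹‖ ≤ 3 * (3 * C / c ^ 4 * s * (1 + t ^ 2)⁻¹) :=
          mul_le_mul (norm_osc_le t) (h1.trans h2) (norm_nonneg _) (by norm_num)
      _ = 9 * C / c ^ 4 * s * (1 + t ^ 2)⁻¹ := by ring
  have n2 : ‖W * cexp (t * I) * (Q ^ 3)⁻¹‖ ≤ C / c ^ 3 * s * (1 + t ^ 2)⁻¹ := by
    rw [norm_mul, norm_mul, norm_exp_I, mul_one, norm_inv, norm_pow]
    have h1 : (‖Q‖ ^ 3)⁻¹ ≤ (m ^ 3)⁻¹ :=
      inv_anti₀ (by positivity) (pow_le_pow_left₀ hmpos.le hlow' 3)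
    calc ‖W‖ * (‖Q‖ ^ 3)⁻¹ ≤ (C * s * (1 + |t|)) * (m ^ 3)⁻¹ :=
          mul_le_mul hu h1 (by positivity) (by positivity)
      _ = C / c ^ 3 * s * ((1 + |t|) ^ 2)⁻¹ := by
          rw [hm]; field_simp
      _ ≤ C / c ^ 3 * s * (1 + t ^ 2)⁻¹ := mul_le_mul_of_nonneg_left hinv2 (by positivity)
  refine (norm_add_le _ _).trans ((add_le_add n1 n2).trans (le_of_eq ?_))
  ring

theorem asymp {A : ℝ} (hA : 1 ≤ A) (hν : ∀ t, A / 2 ≤ d.nu t) {σ : ℝ} (hσ : 0 ≤ σ) :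
    ∃ C s0 : ℝ, 0 ≤ C ∧ 0 < s0 ∧ ∀ (N : ℕ) (s : ℝ), 0 < s → s ^ 2 * N = A → s ≤ s0 →
      ∀ θ₀ : ℝ, ‖d.FF N s (d.pt N s σ θ₀) * conj (ee N θ₀) ^ 2 -
        psi (d.nu θ₀ / A) (3 / 2 + σ)‖ ≤ C * s := by
  obtain ⟨C, s1, hC, hs1pos, hker⟩ := d.kernel_asymp hA hν hσ
  have hπ := Real.pi_pos
  refine ⟨(C + 81) / 2, min s1 (min 1 (1 / (1 + σ))), by positivity, by positivity, ?_⟩
  intro N s hs hsN hs0 θ₀
  have hss1 : s ≤ s1 := hs0.trans (min_le_left _ _)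
  have hs1 : s ≤ 1 := hs0.trans ((min_le_right _ _).trans (min_le_left _ _))
  have hsσ : s ≤ 1 / (1 + σ) := hs0.trans ((min_le_right _ _).trans (min_le_right _ _))
  rw [le_div_iff₀ (by positivity)] at hsσ
  have hσs : σ * s ^ 2 ≤ 1 := by nlinarith
  have hNpos : 0 < N := by
    rcases Nat.eq_zero_or_pos N with h | h
    · rw [h] at hsN; simp at hsN; linarith
    · exact h
  have hNr : (0 : ℝ) < N := by exact_mod_cast hNpos
  have hv : 1 / 2 ≤ d.nu θ₀ / A := by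
    rw [le_div_iff₀ (by linarith)]
    linarith [hν θ₀]
  set z := d.pt N s σ θ₀ with hz
  set R : ℝ := N * Real.pi with hR
  have hRpos : 0 < R := by positivity
  have hznorm : ‖z‖ < 1 + s ^ 2 := by
    rw [hz, d.norm_pt N θ₀ (by linarith)]
    have : 0 ≤ σ * s ^ 2 := by positivity
    have : 0 < s ^ 2 := by positivity
    linarith
  set f : ℝ → ℂ := fun t => d.ker N s z (θ₀ + t / N) * conj (ee N θ₀) ^ 2 with hf
  have hfc : Continuous f := by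
    have h1 := (d.ker_continuous_right N hs hznorm).comp
      (by fun_prop : Continuous fun t : ℝ => θ₀ + t / N)
    exact h1.mul continuous_const
  have hle : -R ≤ R := by linarith
  have hFF : d.FF N s z * conj (ee N θ₀) ^ 2 = ((1 / (2 * Real.pi) : ℝ) : ℂ) *
      ∫ t : ℝ, indicator (Ioc (-R) R) f t := by
    rw [d.FF_eq hNpos s z θ₀, integral_indicator measurableSet_Ioc,
      ← intervalIntegral.integral_of_le hle, hf, intervalIntegral.integral_mul_const, mul_assoc]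
  have hind : Integrable (indicator (Ioc (-R) R) f) := by
    rw [integrable_indicator_iff measurableSet_Ioc]
    exact (hfc.integrableOn_Icc).mono_set Ioc_subset_Icc_self
  have hlim : Integrable (lim (d.nu θ₀ / A) (3 / 2 + σ)) := lim_integrable (by linarith) hv
  have hpt : ∀ t : ℝ, ‖indicator (Ioc (-R) R) f t - lim (d.nu θ₀ / A) (3 / 2 + σ) t‖ ≤
      (C + 81) * s * (1 + t ^ 2)⁻¹ := by
    intro t
    have hpos : 0 ≤ s * (1 + t ^ 2)⁻¹ := by positivity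
    by_cases ht : t ∈ Ioc (-R) R
    · rw [indicator_of_mem ht]
      have h1 := hker N s hs hsN hss1 θ₀ t (abs_le.2 ⟨ht.1.le, ht.2⟩)
      refine h1.trans ?_
      nlinarith
    · rw [indicator_of_notMem ht, zero_sub, norm_neg]
      have h1 := norm_lim_le (v := d.nu θ₀ / A) (p := 3 / 2 + σ) (t := t) (by linarith) hv
      have h2 : R ≤ |t| := by
        by_contra hcon
        rw [not_le, abs_lt] at hcon
        exact ht ⟨hcon.1, hcon.2.le⟩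
      have h3 : (N : ℝ) ≤ 1 + |t| := by
        have : (N : ℝ) ≤ R := by
          rw [hR]
          have := Real.two_le_pi
          nlinarith
        linarith
      have h4 : (1 + |t|)⁻¹ ≤ s := by
        have e1 : (1 + |t|)⁻¹ ≤ (N : ℝ)⁻¹ := inv_anti₀ hNr h3
        have e2 : (N : ℝ)⁻¹ ≤ s ^ 2 := by
          rw [inv_le_iff_one_le_mul₀ hNr, hsN]
          exact hA
        nlinarith
      have h5 : 81 * (1 + t ^ 2)⁻¹ * (1 + |t|)⁻¹ ≤ 81 * (1 + t ^ 2)⁻¹ * s :=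
        mul_le_mul_of_nonneg_left h4 (by positivity)
      refine h1.trans (h5.trans ?_)
      nlinarith [mul_nonneg hC hpos]
  have hint : ‖∫ t : ℝ, (indicator (Ioc (-R) R) f t - lim (d.nu θ₀ / A) (3 / 2 + σ) t)‖ ≤
      ∫ t : ℝ, (C + 81) * s * (1 + t ^ 2)⁻¹ :=
    norm_integral_le_of_norm_le (integrable_inv_one_add_sq.const_mul _)
      (Filter.Eventually.of_forall hpt)
  rw [integral_const_mul, integral_univ_inv_one_add_sq, integral_sub hind hlim] at hint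
  rw [hFF, psi, ← mul_sub, norm_mul, Complex.norm_real, Real.norm_eq_abs,
    abs_of_pos (by positivity)]
  calc 1 / (2 * Real.pi) * ‖(∫ t : ℝ, indicator (Ioc (-R) R) f t) -
      ∫ t : ℝ, lim (d.nu θ₀ / A) (3 / 2 + σ) t‖ ≤
      1 / (2 * Real.pi) * ((C + 81) * s * Real.pi) :=
        mul_le_mul_of_nonneg_left hint (by positivity)
    _ = (C + 81) / 2 * s := by field_simp

end Disc

end Pool.Agent.RudinExc
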