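import Pool.Agent.Lib.MP_9f272e_an.Trig

/-!
# Polynomial discs in the ball of `ℂ²` with boundary in the sphere
-/

namespace Pool.Agent.RudinExc

open Complex ComplexConjugate Polynomial

/-- A vector from its coordinates. -/
noncomputable def mk2 (a b : ℂ) : V := !₂[a, b]

@[simp] theorem mk2_zero (a b : ℂ) : mk2 a b 0 = a := rfl
@[simp] theorem mk2_one (a b : ℂ) : mk2 a b 1 = b := rfl

theorem V_ext {z w : V} (h0 : z 0 = w 0) (h1 : z 1 = w 1) : z = w := by
  ext i
  fin_cases i
  · exact h0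
  · exact h1

theorem norm_le_add (z : V) : ‖z‖ ≤ ‖z 0‖ + ‖z 1‖ := by
  apply le_of_sq_le_sq _ (by positivity)
  rw [norm_sq_eq]
  nlinarith [norm_nonneg (z 0), norm_nonneg (z 1)]

theorem norm_coord_le (z : V) (i : Fin 2) : ‖z i‖ ≤ ‖z‖ := by
  apply le_of_sq_le_sq _ (by positivity)
  rw [norm_sq_eq]
  fin_cases i
  · show ‖z 0‖ ^ 2 ≤ _
    nlinarith [sq_nonneg ‖z 1‖]
  · show ‖z 1‖ ^ 2 ≤ _
    nlinarith [sq_nonneg ‖z 0‖]

/-- A polynomial disc through the origin whose boundary is a simple closed curve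
in the unit sphere. -/
structure Disc where
  /-- first coordinate -/
  P : ℂ[X]
  /-- second coordinate -/
  Q : ℂ[X]
  P0 : P.coeff 0 = 0
  Q0 : Q.coeff 0 = 0
  norm_one' : ∀ t : ℝ, ‖mk2 (tv P t) (tv Q t)‖ = 1
  inj' : ∀ s t : ℝ, |s - t| ≤ Real.pi → mk2 (tv P s) (tv Q s) = mk2 (tv P t) (tv Q t) → s = t

namespace Disc

variable (d : Disc)

/-- The boundary curve. -/
noncomputable def cur (t : ℝ) : V := mk2 (tv d.P t) (tv d.Q t)

/-- The derivative of the boundary curve, divided by `i`. -/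
noncomputable def del (t : ℝ) : V := mk2 (tv (eu d.P) t) (tv (eu d.Q) t)

/-- The speed of the boundary curve in the direction of the circles. -/
noncomputable def nu (t : ℝ) : ℝ := (xx (d.del t) (d.cur t)).re

@[simp] theorem cur_zero (t : ℝ) : d.cur t 0 = tv d.P t := rfl
@[simp] theorem cur_one (t : ℝ) : d.cur t 1 = tv d.Q t := rfl
@[simp] theorem del_zero (t : ℝ) : d.del t 0 = tv (eu d.P) t := rfl
@[simp] theorem del_one (t : ℝ) : d.del t 1 = tv (eu d.Q) t := rfl

theorem norm_one (t : ℝ) : ‖d.cur t‖ = 1 := d.norm_one' t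

theorem inj (s t : ℝ) (h : |s - t| ≤ Real.pi) (h2 : d.cur s = d.cur t) : s = t := d.inj' s t h h2

theorem mk2_continuous {f g : ℝ → ℂ} (hf : Continuous f) (hg : Continuous g) :
    Continuous fun t => mk2 (f t) (g t) := by
  apply (PiLp.continuous_toLp 2 _).comp
  apply continuous_pi
  intro i
  fin_cases i
  · exact hf
  · exact hg

theorem cur_continuous : Continuous d.cur := mk2_continuous (tv_continuous _) (tv_continuous _)

theorem del_continuous : Continuous d.del := mk2_continuous (tv_continuous _) (tv_continuous _)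

theorem cur_add_two_pi (t : ℝ) : d.cur (t + 2 * Real.pi) = d.cur t := by
  unfold cur
  rw [tv_add_two_pi, tv_add_two_pi]

theorem cur_periodic : Function.Periodic d.cur (2 * Real.pi) := d.cur_add_two_pi

theorem bounds : ∃ L : ℝ, 1 ≤ L ∧ (∀ t, ‖d.del t‖ ≤ L) ∧
    (∀ t h : ℝ, ‖d.cur (t + h) - d.cur t‖ ≤ L * |h|) ∧
    (∀ t h : ℝ, ‖d.cur (t + h) - d.cur t - (h * I : ℂ) • d.del t‖ ≤ L * h ^ 2) := by
  obtain ⟨L1, h1, h2, h3, h4⟩ := tv_bound d.P
  obtain ⟨L2, k1, k2, k3, k4⟩ := tv_bound d.Q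
  obtain ⟨M1, l1, l2, -, -⟩ := tv_bound (eu d.P)
  obtain ⟨M2, m1, m2, -, -⟩ := tv_bound (eu d.Q)
  refine ⟨1 + L1 + L2 + M1 + M2, by linarith, fun t => ?_, fun t h => ?_, fun t h => ?_⟩
  · refine (norm_le_add _).trans ?_
    have := l2 t
    have := m2 t
    simp only [del_zero, del_one]
    linarith
  · refine (norm_le_add _).trans ?_
    simp only [PiLp.sub_apply, cur_zero, cur_one]
    have e1 := h3 t h
    have e2 := k3 t h
    have : (0:ℝ) ≤ (1 + M1 + M2) * |h| := by positivity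
    linarith
  · refine (norm_le_add _).trans ?_
    simp only [PiLp.sub_apply, PiLp.smul_apply, smul_eq_mul, cur_zero, cur_one, del_zero, del_one]
    have e1 := h4 t h
    have e2 := k4 t h
    have : (0:ℝ) ≤ (1 + M1 + M2) * h ^ 2 := by positivity
    linarith

/-- The curve moves orthogonally to itself. -/
theorem nu_eq (t : ℝ) : xx (d.del t) (d.cur t) = (d.nu t : ℂ) := by
  apply Complex.ext
  · simp [nu]
  rw [Complex.ofReal_im]
  obtain ⟨L, hL, h1, h2, h3⟩ := d.bounds
  -- `2 h Im = O (h^2)`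
  have key : ∀ h : ℝ, 0 < h → |(xx (d.del t) (d.cur t)).im| ≤ (L ^ 2 + 2 * L) * h := by
    intro h hh
    set w := d.cur (t + h) - d.cur t with hw
    set e := w - (h * I : ℂ) • d.del t with he
    have hw2 : d.cur (t + h) = d.cur t + w := by rw [hw]; abel
    have hn : xx (d.cur (t + h)) (d.cur (t + h)) = xx (d.cur t) (d.cur t) := by
      rw [xx_self, xx_self, norm_one, norm_one]
    rw [hw2, xx_add_left, xx_add_right, xx_add_right, ← xx_conj w (d.cur t), xx_self w] at hn
    have hn2 := congrArg Complex.re hn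
    simp only [Complex.add_re, Complex.conj_re, Complex.ofReal_re] at hn2
    have hwe : w = (h * I : ℂ) • d.del t + e := by rw [he]; abel
    have hre : (xx w (d.cur t)).re = -(h * (xx (d.del t) (d.cur t)).im) + (xx e (d.cur t)).re := by
      rw [hwe, xx_add_left, xx_smul_left, Complex.add_re]
      congr 1
      simp [Complex.mul_re]
    have he2 : ‖e‖ ≤ L * h ^ 2 := h3 t h
    have hw3 : ‖w‖ ≤ L * h := by
      have := h2 t h
      rwa [abs_of_pos hh] at this
    have he3 : |(xx e (d.cur t)).re| ≤ L * h ^ 2 := by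
      refine (Complex.abs_re_le_norm _).trans ((norm_xx_le _ _).trans ?_)
      rw [norm_one, mul_one]
      exact he2
    have hw4 : ‖w‖ ^ 2 ≤ L ^ 2 * h ^ 2 := by
      rw [← mul_pow]
      exact pow_le_pow_left₀ (norm_nonneg _) hw3 2
    have h5 : |2 * h * (xx (d.del t) (d.cur t)).im| ≤ (L ^ 2 + 2 * L) * h ^ 2 := by
      have : 2 * h * (xx (d.del t) (d.cur t)).im = ‖w‖ ^ 2 + 2 * (xx e (d.cur t)).re := by
        linarith
      rw [this]
      refine (abs_add_le _ _).trans ?_
      rw [abs_mul, abs_of_nonneg (sq_nonneg ‖w‖), abs_of_pos (by norm_num : (0:ℝ) < 2)]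
      nlinarith
    rw [abs_mul, abs_of_pos (by positivity : 0 < 2 * h)] at h5
    have h6 : h * (2 * |(xx (d.del t) (d.cur t)).im|) ≤ h * ((L ^ 2 + 2 * L) * h) := by
      nlinarith
    have h7 := le_of_mul_le_mul_left h6 hh
    have := abs_nonneg (xx (d.del t) (d.cur t)).im
    linarith
  by_contra hne
  have hpos : 0 < |(xx (d.del t) (d.cur t)).im| := abs_pos.2 hne
  have hLpos : 0 < L ^ 2 + 2 * L := by positivity
  have := key (|(xx (d.del t) (d.cur t)).im| / (2 * (L ^ 2 + 2 * L))) (by positivity)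
  rw [← mul_div_assoc, mul_comm (L ^ 2 + 2 * L), mul_div_mul_right _ _ hLpos.ne'] at this
  linarith

end Disc

end Pool.Agent.RudinExc
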