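import Pool.Agent.Lib.MP_9f272e_an.Kernel

/-!
# The Fourier integral of `(p + i t)⁻³`
-/

namespace Pool.Agent.RudinExc

open Complex ComplexConjugate Set MeasureTheory Filter Topology

theorem inv_cube_sub_le {a b : ℂ} {m : ℝ} (hm : 0 < m) (ha : m ≤ ‖a‖) (hb : m ≤ ‖b‖) :
    ‖(a ^ 3)⁻¹ - (b ^ 3)⁻¹‖ ≤ 3 * ‖a - b‖ / m ^ 4 := by
  have ha0 : a ≠ 0 := norm_pos_iff.1 (hm.trans_le ha)
  have hb0 : b ≠ 0 := norm_pos_iff.1 (hm.trans_le hb)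
  have e : (a ^ 3)⁻¹ - (b ^ 3)⁻¹ = (b - a) * ((a * b ^ 3)⁻¹ + (a ^ 2 * b ^ 2)⁻¹ +
      (a ^ 3 * b)⁻¹) := by
    field_simp
    ring
  have hia : ‖a‖⁻¹ ≤ m⁻¹ := inv_anti₀ hm ha
  have hib : ‖b‖⁻¹ ≤ m⁻¹ := inv_anti₀ hm hb
  have key : ∀ i j : ℕ, i + j = 4 → ‖(a ^ i * b ^ j)⁻¹‖ ≤ (m ^ 4)⁻¹ := by
    intro i j hij
    rw [norm_inv, norm_mul, norm_pow, norm_pow, ← hij, pow_add]
    exact inv_anti₀ (by positivity) (mul_le_mul (pow_le_pow_left₀ hm.le ha i)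
      (pow_le_pow_left₀ hm.le hb j) (by positivity) (by positivity))
  have k1 := key 1 3 rfl
  have k2 := key 2 2 rfl
  have k3 := key 3 1 rfl
  rw [pow_one] at k1 k3
  rw [e, norm_mul, norm_sub_rev b a]
  have : ‖(a * b ^ 3)⁻¹ + (a ^ 2 * b ^ 2)⁻¹ + (a ^ 3 * b)⁻¹‖ ≤ 3 * (m ^ 4)⁻¹ := by
    refine (norm_add₃_le).trans ?_
    linarith
  calc ‖a - b‖ * ‖(a * b ^ 3)⁻¹ + (a ^ 2 * b ^ 2)⁻¹ + (a ^ 3 * b)⁻¹‖ ≤
      ‖a - b‖ * (3 * (m ^ 4)⁻¹) := mul_le_mul_of_nonneg_left this (norm_nonneg _)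
    _ = 3 * ‖a - b‖ / m ^ 4 := by ring

theorem norm_line_ge {p v t : ℝ} (hp : 1 ≤ p) (hv : 1 / 2 ≤ v) :
    (1 + |t|) / 3 ≤ ‖(p : ℂ) + v * t * I‖ := by
  have h1 : p ≤ ‖(p : ℂ) + v * t * I‖ := by
    have := Complex.re_le_norm ((p : ℂ) + v * t * I)
    simpa using this
  have h2 : |v * t| ≤ ‖(p : ℂ) + v * t * I‖ := by
    have := Complex.abs_im_le_norm ((p : ℂ) + v * t * I)
    simpa using this
  rw [abs_mul, abs_of_pos (by linarith : 0 < v)] at h2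
  have h3 : 1 / 2 * |t| ≤ v * |t| := mul_le_mul_of_nonneg_right hv (abs_nonneg t)
  linarith

theorem line_ne_zero {p v t : ℝ} (hp : 1 ≤ p) (hv : 1 / 2 ≤ v) : (p : ℂ) + v * t * I ≠ 0 := by
  have := norm_line_ge (t := t) hp hv
  have h2 : 0 < ‖(p : ℂ) + v * t * I‖ := lt_of_lt_of_le (by positivity) this
  exact norm_pos_iff.1 h2

theorem one_add_abs_sq_ge (t : ℝ) : 1 + t ^ 2 ≤ (1 + |t|) ^ 2 := by
  have := sq_abs t
  nlinarith [abs_nonneg t]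

/-- The oscillating factor. -/
noncomputable def osc (t : ℝ) : ℂ := cexp (t * I) - bb * cexp (t * I) ^ 2

theorem norm_osc_le (t : ℝ) : ‖osc t‖ ≤ 3 := by
  unfold osc
  refine (norm_sub_le _ _).trans ?_
  rw [norm_mul, norm_pow, norm_exp_I, Complex.norm_real, Real.norm_eq_abs, abs_of_pos bb_pos]
  have := bb_le
  linarith

theorem osc_continuous : Continuous osc := by unfold osc; fun_prop

/-- The limit integrand. -/
noncomputable def lim (v p t : ℝ) : ℂ := osc t * (((p : ℂ) + v * t * I) ^ 3)⁻¹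

theorem lim_continuous {v p : ℝ} (hp : 1 ≤ p) (hv : 1 / 2 ≤ v) : Continuous (lim v p) := by
  unfold lim
  apply osc_continuous.mul
  apply Continuous.inv₀ (by fun_prop)
  intro t
  exact pow_ne_zero 3 (line_ne_zero hp hv)

theorem norm_lim_le {v p t : ℝ} (hp : 1 ≤ p) (hv : 1 / 2 ≤ v) :
    ‖lim v p t‖ ≤ 81 * (1 + t ^ 2)⁻¹ * (1 + |t|)⁻¹ := by
  have h1 := norm_line_ge (t := t) hp hv
  have h0 : 0 < 1 + |t| := by positivity
  rw [lim, norm_mul, norm_inv, norm_pow]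
  have h2 : ((1 + |t|) / 3) ^ 3 ≤ ‖(p : ℂ) + v * t * I‖ ^ 3 := pow_le_pow_left₀ (by positivity) h1 3
  have h3 : (‖(p : ℂ) + v * t * I‖ ^ 3)⁻¹ ≤ (((1 + |t|) / 3) ^ 3)⁻¹ := inv_anti₀ (by positivity) h2
  have h4 : (((1 + |t|) / 3) ^ 3)⁻¹ ≤ 27 * (1 + t ^ 2)⁻¹ * (1 + |t|)⁻¹ := by
    have e : (((1 + |t|) / 3) ^ 3)⁻¹ = 27 * ((1 + |t|) ^ 2)⁻¹ * (1 + |t|)⁻¹ := by
      field_simp; norm_num
    rw [e]
    have := inv_anti₀ (by positivity) (one_add_abs_sq_ge t)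
    gcongr
  calc ‖osc t‖ * (‖(p : ℂ) + v * t * I‖ ^ 3)⁻¹ ≤ 3 * (27 * (1 + t ^ 2)⁻¹ * (1 + |t|)⁻¹) :=
        mul_le_mul (norm_osc_le t) (h3.trans h4) (by positivity) (by norm_num)
    _ = 81 * (1 + t ^ 2)⁻¹ * (1 + |t|)⁻¹ := by ring

theorem norm_lim_le' {v p t : ℝ} (hp : 1 ≤ p) (hv : 1 / 2 ≤ v) :
    ‖lim v p t‖ ≤ 81 * (1 + t ^ 2)⁻¹ := by
  refine (norm_lim_le hp hv).trans ?_
  have h1 : (1 + |t|)⁻¹ ≤ 1 := inv_le_one_of_one_le₀ (by linarith [abs_nonneg t])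
  have h2 : 0 ≤ 81 * (1 + t ^ 2)⁻¹ := by positivity
  nlinarith

theorem lim_integrable {v p : ℝ} (hp : 1 ≤ p) (hv : 1 / 2 ≤ v) : Integrable (lim v p) := by
  apply Integrable.mono' (integrable_inv_one_add_sq.const_mul 81)
    (lim_continuous hp hv).aestronglyMeasurable
  exact Filter.Eventually.of_forall fun t => norm_lim_le' hp hv

/-- The limit value. -/
noncomputable def psi (v p : ℝ) : ℂ := ((1 / (2 * Real.pi) : ℝ) : ℂ) * ∫ t : ℝ, lim v p t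

theorem psi_sub_le {v p : ℝ} (hp : 1 ≤ p) (hv : |v - 1| ≤ 1 / 2) :
    ‖psi v p - psi 1 p‖ ≤ 365 * |v - 1| := by
  have hv2 : 1 / 2 ≤ v := by
    have := (abs_le.1 hv).1
    linarith
  have hv1 : (1 : ℝ) / 2 ≤ 1 := by norm_num
  have hπ := Real.pi_pos
  have hpt : ∀ t : ℝ, ‖lim v p t - lim 1 p t‖ ≤ 729 * |v - 1| * (1 + t ^ 2)⁻¹ := by
    intro t
    have e : lim v p t - lim 1 p t = osc t * ((((p : ℂ) + v * t * I) ^ 3)⁻¹ -
        (((p : ℂ) + (1 : ℝ) * t * I) ^ 3)⁻¹) := by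
      simp only [lim]; ring
    have h0 : 0 < (1 + |t|) / 3 := by positivity
    have h1 := inv_cube_sub_le h0 (norm_line_ge (t := t) hp hv2) (norm_line_ge (t := t) hp hv1)
    have e2 : ‖((p : ℂ) + v * t * I) - ((p : ℂ) + (1 : ℝ) * t * I)‖ = |v - 1| * |t| := by
      have : ((p : ℂ) + v * t * I) - ((p : ℂ) + (1 : ℝ) * t * I) = (((v - 1) * t : ℝ) : ℂ) * I := by
        push_cast; ring
      rw [this, norm_mul, Complex.norm_real, Complex.norm_I, mul_one, Real.norm_eq_abs, abs_mul]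
    rw [e2] at h1
    rw [e, norm_mul]
    have h2 : 3 * (|v - 1| * |t|) / ((1 + |t|) / 3) ^ 4 ≤ 243 * |v - 1| * (1 + t ^ 2)⁻¹ := by
      rw [← div_eq_mul_inv, div_le_div_iff₀ (by positivity) (by positivity)]
      have h3 := one_add_abs_sq_ge t
      have h4 : |t| ≤ (1 + |t|) ^ 2 := by nlinarith [abs_nonneg t]
      have h5 : |t| * (1 + t ^ 2) ≤ (1 + |t|) ^ 2 * (1 + |t|) ^ 2 :=
        mul_le_mul h4 h3 (by positivity) (by positivity)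
      have h6 : 3 * |v - 1| * (|t| * (1 + t ^ 2)) ≤
          3 * |v - 1| * ((1 + |t|) ^ 2 * (1 + |t|) ^ 2) :=
        mul_le_mul_of_nonneg_left h5 (by positivity)
      have e3 : 243 * |v - 1| * ((1 + |t|) / 3) ^ 4 =
          3 * |v - 1| * ((1 + |t|) ^ 2 * (1 + |t|) ^ 2) := by ring
      rw [e3]
      linarith
    calc ‖osc t‖ * ‖(((p : ℂ) + v * t * I) ^ 3)⁻¹ - (((p : ℂ) + (1 : ℝ) * t * I) ^ 3)⁻¹‖ ≤
        3 * (243 * |v - 1| * (1 + t ^ 2)⁻¹) :=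
          mul_le_mul (norm_osc_le t) (h1.trans h2) (norm_nonneg _) (by norm_num)
      _ = 729 * |v - 1| * (1 + t ^ 2)⁻¹ := by ring
  have hint : ‖∫ t : ℝ, (lim v p t - lim 1 p t)‖ ≤ ∫ t : ℝ, 729 * |v - 1| * (1 + t ^ 2)⁻¹ :=
    norm_integral_le_of_norm_le (integrable_inv_one_add_sq.const_mul _)
      (Filter.Eventually.of_forall hpt)
  rw [integral_const_mul, integral_univ_inv_one_add_sq] at hint
  have e : psi v p - psi 1 p = ((1 / (2 * Real.pi) : ℝ) : ℂ) *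
      ∫ t : ℝ, (lim v p t - lim 1 p t) := by
    rw [integral_sub (lim_integrable hp hv2) (lim_integrable hp hv1), psi, psi]
    ring
  rw [e, norm_mul, Complex.norm_real, Real.norm_eq_abs, abs_of_pos (by positivity)]
  calc 1 / (2 * Real.pi) * ‖∫ t : ℝ, (lim v p t - lim 1 p t)‖ ≤
      1 / (2 * Real.pi) * (729 * |v - 1| * Real.pi) :=
        mul_le_mul_of_nonneg_left hint (by positivity)
    _ = 729 / 2 * |v - 1| := by field_simp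
    _ ≤ 365 * |v - 1| := by
        apply mul_le_mul_of_nonneg_right _ (abs_nonneg _)
        norm_num

end Pool.Agent.RudinExc
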