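import Pool.Agent.Lib.MP_9f272e_an.Fourier

/-!
# Evaluation of the Fourier integral
-/

namespace Pool.Agent.RudinExc

open Complex ComplexConjugate Set MeasureTheory Filter Topology FourierTransform

theorem norm_exp_neg (r : ℂ) (x : ℝ) : ‖cexp (-(r * x))‖ = Real.exp (-(r.re * x)) := by
  rw [Complex.norm_exp]
  simp

theorem tendsto_pow_mul (r : ℂ) (hr : 0 < r.re) (k : ℕ) :
    Tendsto (fun x : ℝ => (x : ℂ) ^ k * cexp (-(r * x))) atTop (𝓝 0) := by
  rw [tendsto_zero_iff_norm_tendsto_zero]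
  have h1 : Tendsto (fun x : ℝ => (r.re * x) ^ k * Real.exp (-(r.re * x))) atTop (𝓝 0) :=
    (Real.tendsto_pow_mul_exp_neg_atTop_nhds_zero k).comp (tendsto_id.const_mul_atTop hr)
  have h2 := h1.const_mul ((r.re ^ k)⁻¹)
  rw [mul_zero] at h2
  refine h2.congr' ?_
  filter_upwards [eventually_ge_atTop 0] with x hx
  rw [norm_mul, norm_exp_neg, norm_pow, Complex.norm_real, Real.norm_eq_abs, abs_of_nonneg hx,
    mul_pow]
  field_simp

theorem integrableOn_aux (r : ℂ) (hr : 0 < r.re) :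
    IntegrableOn (fun x : ℝ => (x : ℂ) ^ 2 * cexp (-(r * x))) (Ioi 0) := by
  have h1 := integrableOn_rpow_mul_exp_neg_mul_rpow (p := 1) (s := 2) (b := r.re)
    (by norm_num) one_pos hr
  refine Integrable.mono' h1 ?_ ?_
  · apply Continuous.aestronglyMeasurable
    fun_prop
  · refine (ae_restrict_iff' measurableSet_Ioi).2 (Filter.Eventually.of_forall fun x hx => ?_)
    have hx' : (0 : ℝ) < x := hx
    rw [norm_mul, norm_exp_neg, norm_pow, Complex.norm_real, Real.norm_eq_abs, abs_of_pos hx',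
      Real.rpow_one, Real.rpow_two, neg_mul]

theorem integral_aux (r : ℂ) (hr : 0 < r.re) :
    ∫ x : ℝ in Ioi 0, (x : ℂ) ^ 2 * cexp (-(r * x)) = 2 / r ^ 3 := by
  have hr0 : r ≠ 0 := by
    intro h; rw [h] at hr; simp at hr
  have h := integral_Ioi_of_hasDerivAt_of_tendsto' (a := 0) (m := (0 : ℂ))
    (f := fun x : ℝ => -((x : ℂ) ^ 2 * cexp (-(r * x))) / r - 2 * ((x : ℂ) ^ 1 *
      cexp (-(r * x))) / r ^ 2 - 2 * ((x : ℂ) ^ 0 * cexp (-(r * x))) / r ^ 3)
    (f' := fun x : ℝ => (x : ℂ) ^ 2 * cexp (-(r * x))) ?_ (integrableOn_aux r hr) ?_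
  · rw [h]
    simp
  · intro x _
    have hx : HasDerivAt (fun x : ℝ => (x : ℂ)) 1 x := Complex.ofRealCLM.hasDerivAt
    have he : HasDerivAt (fun x : ℝ => cexp (-(r * x))) (cexp (-(r * x)) * (-(r * 1))) x :=
      ((hx.const_mul r).neg).cexp
    have h1 := ((hx.pow 2).mul he).neg.div_const r
    have h2 := (((hx.pow 1).mul he).const_mul 2).div_const (r ^ 2)
    have h3 := (((hx.pow 0).mul he).const_mul 2).div_const (r ^ 3)
    refine ((h1.sub h2).sub h3).congr_deriv ?_
    simp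
    field_simp
    ring
  · have t1 := ((tendsto_pow_mul r hr 2).neg).div_const r
    have t2 := ((tendsto_pow_mul r hr 1).const_mul 2).div_const (r ^ 2)
    have t3 := ((tendsto_pow_mul r hr 0).const_mul 2).div_const (r ^ 3)
    have := (t1.sub t2).sub t3
    simpa using this

/-- The function whose Fourier transform is `2 (p + 2 π i w)⁻³`. -/
noncomputable def gg (p : ℝ) : ℝ → ℂ :=
  indicator (Ioi 0) fun x : ℝ => (x : ℂ) ^ 2 * cexp (-((p : ℂ) * x))

theorem gg_integrable {p : ℝ} (hp : 0 < p) : Integrable (gg p) :=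
  (integrable_indicator_iff measurableSet_Ioi).2 (integrableOn_aux (p : ℂ) (by simpa using hp))

theorem fourier_gg {p : ℝ} (hp : 0 < p) (w : ℝ) :
    𝓕 (gg p) w = 2 / ((p : ℂ) + (2 * Real.pi * w : ℝ) * I) ^ 3 := by
  rw [Real.fourier_real_eq_integral_exp_smul]
  have h1 : ∀ v : ℝ, cexp (((-2 * Real.pi * v * w : ℝ) : ℂ) * I) • gg p v =
      indicator (Ioi 0) (fun x : ℝ => (x : ℂ) ^ 2 *
        cexp (-(((p : ℂ) + (2 * Real.pi * w : ℝ) * I) * x))) v := by
    intro v
    by_cases hv : v ∈ Ioi (0 : ℝ)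
    · rw [gg, indicator_of_mem hv, indicator_of_mem hv, smul_eq_mul]
      rw [mul_left_comm, ← Complex.exp_add]
      congr 2
      push_cast
      ring
    · rw [gg, indicator_of_notMem hv, indicator_of_notMem hv, smul_zero]
  rw [integral_congr_ae (Filter.Eventually.of_forall h1), integral_indicator measurableSet_Ioi,
    integral_aux _ (by simpa using hp)]

theorem inv_cube_integrable {p : ℝ} (hp : 1 ≤ p) :
    Integrable fun t : ℝ => (((p : ℂ) + t * I) ^ 3)⁻¹ := by
  have hne : ∀ t : ℝ, (p : ℂ) + t * I ≠ 0 := by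
    intro t h
    have := congrArg Complex.re h
    simp at this
    linarith
  apply Integrable.mono' integrable_inv_one_add_sq
  · apply Continuous.aestronglyMeasurable
    apply Continuous.inv₀ (by fun_prop)
    intro t
    exact pow_ne_zero 3 (hne t)
  · refine Filter.Eventually.of_forall fun t => ?_
    rw [norm_inv, norm_pow]
    apply inv_anti₀ (by positivity)
    have h1 : ‖(p : ℂ) + t * I‖ ^ 2 = p ^ 2 + t ^ 2 := by
      rw [Complex.sq_norm, Complex.normSq_add_mul_I]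
    have h2 : 1 ≤ ‖(p : ℂ) + t * I‖ := by
      have := Complex.re_le_norm ((p : ℂ) + t * I)
      simp at this
      linarith
    have h3 : ‖(p : ℂ) + t * I‖ ^ 3 = ‖(p : ℂ) + t * I‖ ^ 2 * ‖(p : ℂ) + t * I‖ := by ring
    rw [h3, h1]
    nlinarith [sq_nonneg t]

theorem inversion {p y : ℝ} (hp : 1 ≤ p) (hy : 0 < y) :
    ∫ t : ℝ, cexp (y * t * I) * (((p : ℂ) + t * I) ^ 3)⁻¹ =
      (Real.pi * y ^ 2 * Real.exp (-(p * y)) : ℝ) := by
  have hp0 : 0 < p := by linarith
  have hπ := Real.pi_pos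
  have hF : 𝓕 (gg p) = fun w : ℝ => 2 / ((p : ℂ) + (2 * Real.pi * w : ℝ) * I) ^ 3 := by
    ext w
    exact fourier_gg hp0 w
  have hFint : Integrable (𝓕 (gg p)) := by
    rw [hF]
    have h1 := ((inv_cube_integrable hp).comp_mul_left' (R := 2 * Real.pi)
      (by positivity)).const_mul 2
    refine h1.congr (Filter.Eventually.of_forall fun w => ?_)
    simp only [div_eq_mul_inv]
  have hcont : ContinuousAt (gg p) y := by
    have h1 : (fun x : ℝ => (x : ℂ) ^ 2 * cexp (-((p : ℂ) * x))) =ᶠ[𝓝 y] gg p := by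
      filter_upwards [Ioi_mem_nhds hy] with x hx
      rw [gg, indicator_of_mem hx]
    refine ContinuousAt.congr ?_ h1
    apply Continuous.continuousAt
    fun_prop
  have h2 := (gg_integrable hp0).fourierInv_fourier_eq hFint hcont
  rw [Real.fourierInv_eq', hF] at h2
  have h3 : ∫ v : ℝ, cexp (((2 * Real.pi * inner ℝ v y : ℝ) : ℂ) * I) •
      (2 / ((p : ℂ) + (2 * Real.pi * v : ℝ) * I) ^ 3) =
      ∫ v : ℝ, (fun t : ℝ => 2 * (cexp (y * t * I) * (((p : ℂ) + t * I) ^ 3)⁻¹))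
        ((2 * Real.pi) * v) := by
    apply integral_congr_ae
    refine Filter.Eventually.of_forall fun v => ?_
    have hin : inner ℝ v y = y * v := by simp
    simp only [smul_eq_mul, div_eq_mul_inv, hin]
    rw [mul_left_comm]
    congr 4
    push_cast
    ring
  have h5 := Measure.integral_comp_mul_left
    (fun t : ℝ => 2 * (cexp (y * t * I) * (((p : ℂ) + t * I) ^ 3)⁻¹)) (2 * Real.pi)
  replace h2 := h5.symm.trans (h3.symm.trans h2)
  rw [integral_const_mul] at h2
  rw [gg, indicator_of_mem (show y ∈ Ioi (0 : ℝ) from hy)] at h2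
  rw [abs_of_pos (by positivity), Complex.real_smul] at h2
  have hπc : (Real.pi : ℂ) ≠ 0 := by exact_mod_cast hπ.ne'
  generalize ∫ t : ℝ, cexp (y * t * I) * (((p : ℂ) + t * I) ^ 3)⁻¹ = J at h2 ⊢
  have h4 : J = Real.pi * ((y : ℂ) ^ 2 * cexp (-((p : ℂ) * y))) := by
    rw [← h2]
    push_cast
    field_simp
  rw [h4]
  push_cast
  ring

theorem osc_eq (t : ℝ) : osc t = cexp ((1 : ℝ) * t * I) - bb * cexp ((2 : ℝ) * t * I) := by
  unfold osc
  rw [← Complex.exp_nat_mul]
  congr 3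
  · push_cast; ring
  · push_cast; ring

theorem psi_one {p : ℝ} (hp : 1 ≤ p) :
    psi 1 p = ((Real.exp (-p) - Real.exp (3 / 2 - 2 * p)) / 2 : ℝ) := by
  have hπ := Real.pi_pos
  have hI := inv_cube_integrable hp
  have hb : ∀ y : ℝ, Integrable fun t : ℝ => cexp (y * t * I) * (((p : ℂ) + t * I) ^ 3)⁻¹ := by
    intro y
    refine Integrable.mono' hI.norm ?_ (Filter.Eventually.of_forall fun t => ?_)
    · exact (Continuous.aestronglyMeasurable (by fun_prop)).mul hI.aestronglyMeasurable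
    · have : ‖cexp ((y : ℂ) * t * I)‖ = 1 := by
        have := norm_exp_I (y * t)
        push_cast at this
        exact this
      rw [norm_mul, this, one_mul]
  have e : ∀ t : ℝ, lim 1 p t = cexp ((1 : ℝ) * t * I) * (((p : ℂ) + t * I) ^ 3)⁻¹ -
      bb * (cexp ((2 : ℝ) * t * I) * (((p : ℂ) + t * I) ^ 3)⁻¹) := by
    intro t
    rw [lim, osc_eq]
    push_cast
    ring
  rw [psi, integral_congr_ae (Filter.Eventually.of_forall e),
    integral_sub (hb 1) ((hb 2).const_mul _), integral_const_mul, inversion hp one_pos,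
    inversion hp two_pos]
  have e2 : Real.exp (3 / 2 - 2 * p) = 4 * bb * Real.exp (-(p * 2)) := by
    rw [bb, show 3 / 2 - 2 * p = 3 / 2 + -(p * 2) by ring, Real.exp_add]
    ring
  rw [e2, mul_one p]
  have hπc : (Real.pi : ℂ) ≠ 0 := by exact_mod_cast hπ.ne'
  push_cast
  field_simp
  ring

theorem psi_zero : psi 1 (3 / 2) = 0 := by
  rw [psi_one (by norm_num)]
  norm_num

/-- The size of the oscillation. -/
noncomputable def osz : ℝ := ‖psi 1 (5 / 2) - psi 1 (9 / 2)‖

theorem osz_pos : 0 < osz := by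
  unfold osz
  rw [norm_pos_iff, psi_one (by norm_num), psi_one (by norm_num), ← Complex.ofReal_sub,
    Complex.ofReal_ne_zero]
  have h1 : (1 : ℝ) + 1 ≤ Real.exp 1 := Real.add_one_le_exp 1
  have e1 : Real.exp (-(5 / 2)) = Real.exp 1 * Real.exp 1 * Real.exp (-(9 / 2)) := by
    rw [← Real.exp_add, ← Real.exp_add]; norm_num
  have e2 : Real.exp (3 / 2 - 2 * (5 / 2)) = Real.exp 1 * Real.exp (-(9 / 2)) := by
    rw [← Real.exp_add]; norm_num
  have h2 := Real.exp_pos (-(9 / 2))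
  have h3 := Real.exp_pos (3 / 2 - 2 * (9 / 2))
  rw [e1, e2]
  have h4 : 0 < (Real.exp 1 * Real.exp 1 - Real.exp 1 - 1) * Real.exp (-(9 / 2)) := by
    apply mul_pos _ h2
    nlinarith
  have h5 : (Real.exp 1 * Real.exp 1 * Real.exp (-(9 / 2)) - Real.exp 1 * Real.exp (-(9 / 2))) / 2 -
      (Real.exp (-(9 / 2)) - Real.exp (3 / 2 - 2 * (9 / 2))) / 2 =
      ((Real.exp 1 * Real.exp 1 - Real.exp 1 - 1) * Real.exp (-(9 / 2)) +
        Real.exp (3 / 2 - 2 * (9 / 2))) / 2 := by ring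
  rw [h5]
  positivity

end Pool.Agent.RudinExc
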