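import Pool.Agent.Lib.MP_9f272e_an.NewDisc

/-!
# The kernel and elementary bounds
-/

namespace Pool.Agent.RudinExc

open Complex ComplexConjugate Set MeasureTheory

/-- The constant `exp (3/2) / 4`. -/
noncomputable def bb : ℝ := Real.exp (3 / 2) / 4

theorem bb_pos : 0 < bb := by unfold bb; positivity

theorem bb_le : bb ≤ 2 := by
  unfold bb
  have h1 : Real.exp (3 / 2) ≤ Real.exp 2 := Real.exp_le_exp.2 (by norm_num)
  have h2 : Real.exp 2 = Real.exp 1 * Real.exp 1 := by rw [← Real.exp_add]; norm_num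
  have h3 := Real.exp_one_lt_d9
  have h4 := Real.exp_pos 1
  nlinarith

namespace Disc

variable (d : Disc)

/-- The scaled denominator. -/
noncomputable def qq (s : ℝ) (z : V) (θ : ℝ) : ℂ := (1 + (s : ℂ) ^ 2 - xx z (d.cur θ)) / (s : ℂ) ^ 2

/-- The numerator. -/
noncomputable def num (N : ℕ) (s : ℝ) (z : V) (θ : ℝ) : ℂ :=
  (s : ℂ)⁻¹ * uu z (d.cur θ) * ee N θ - bb * ee N θ ^ 2

/-- The integrand. -/
noncomputable def ker (N : ℕ) (s : ℝ) (z : V) (θ : ℝ) : ℂ := d.num N s z θ / d.qq s z θ ^ 3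

/-- The function attached to a disc. -/
noncomputable def FF (N : ℕ) (s : ℝ) (z : V) : ℂ :=
  ((N / (2 * Real.pi) : ℝ) : ℂ) * ∫ θ in (0 : ℝ)..(2 * Real.pi), d.ker N s z θ

theorem norm_qq_mul {s : ℝ} (hs : 0 < s) (z : V) (θ : ℝ) :
    s ^ 2 * ‖d.qq s z θ‖ = ‖1 + (s : ℂ) ^ 2 - xx z (d.cur θ)‖ := by
  rw [qq, norm_div, norm_pow, Complex.norm_real, Real.norm_eq_abs, abs_of_pos hs]
  field_simp

theorem norm_xx_cur_le (z : V) (θ : ℝ) : ‖xx z (d.cur θ)‖ ≤ ‖z‖ := by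
  have := norm_xx_le z (d.cur θ)
  rwa [d.norm_one, mul_one] at this

theorem re_one_sub_nonneg {z : V} (hz : ‖z‖ ≤ 1) (θ : ℝ) : 0 ≤ (1 - xx z (d.cur θ)).re := by
  have h1 := (Complex.re_le_norm (xx z (d.cur θ))).trans (d.norm_xx_cur_le z θ)
  rw [Complex.sub_re, Complex.one_re]
  linarith

theorem norm_D_ge {s : ℝ} {z : V} (hz : ‖z‖ ≤ 1) (θ : ℝ) :
    ‖1 - xx z (d.cur θ)‖ ≤ ‖1 + (s : ℂ) ^ 2 - xx z (d.cur θ)‖ := by
  have h := d.re_one_sub_nonneg hz θ
  have e : 1 + (s : ℂ) ^ 2 - xx z (d.cur θ) = (1 - xx z (d.cur θ)) + ((s ^ 2 : ℝ) : ℂ) := by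
    push_cast; ring
  rw [e]
  set w := 1 - xx z (d.cur θ)
  apply le_of_sq_le_sq _ (norm_nonneg _)
  rw [Complex.sq_norm, Complex.sq_norm, Complex.normSq_apply, Complex.normSq_apply, Complex.add_re, Complex.add_im,
    Complex.ofReal_re, Complex.ofReal_im, add_zero]
  nlinarith [sq_nonneg s, mul_nonneg h (sq_nonneg s)]

theorem one_le_norm_qq {s : ℝ} (hs : 0 < s) {z : V} (hz : ‖z‖ ≤ 1) (θ : ℝ) :
    1 ≤ ‖d.qq s z θ‖ := by
  have h := d.re_one_sub_nonneg hz θ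
  have h2 := d.norm_qq_mul hs z θ
  have h3 : s ^ 2 ≤ ‖1 + (s : ℂ) ^ 2 - xx z (d.cur θ)‖ := by
    refine le_trans ?_ (Complex.re_le_norm _)
    have e : 1 + (s : ℂ) ^ 2 - xx z (d.cur θ) = (1 - xx z (d.cur θ)) + ((s ^ 2 : ℝ) : ℂ) := by
      push_cast; ring
    rw [e, Complex.add_re, Complex.ofReal_re]
    linarith
  rw [← h2] at h3
  exact le_of_mul_le_mul_left (by linarith) (by positivity : 0 < s ^ 2)

theorem norm_uu_sq_le {z : V} (hz : ‖z‖ ≤ 1) (θ : ℝ) :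
    ‖uu z (d.cur θ)‖ ^ 2 ≤ 2 * ‖1 - xx z (d.cur θ)‖ := by
  have h1 := norm_xx_sq_add z (d.cur θ)
  rw [d.norm_one, one_pow, mul_one] at h1
  have h2 : ‖z‖ ^ 2 ≤ 1 := pow_le_one₀ (norm_nonneg _) hz
  have h3 : 1 - ‖xx z (d.cur θ)‖ ≤ ‖1 - xx z (d.cur θ)‖ := by
    have := norm_sub_norm_le (1 : ℂ) (xx z (d.cur θ))
    rwa [NormOneClass.norm_one] at this
  have h4 := (d.norm_xx_cur_le z θ).trans hz
  have h5 := norm_nonneg (xx z (d.cur θ))
  nlinarith

theorem norm_uu_scaled {s : ℝ} (hs : 0 < s) {z : V} (hz : ‖z‖ ≤ 1) (θ : ℝ) :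
    ‖(s : ℂ)⁻¹ * uu z (d.cur θ)‖ ≤ 2 * ‖d.qq s z θ‖ := by
  have h1 := d.norm_uu_sq_le hz θ
  have h2 := d.norm_D_ge (s := s) hz θ
  rw [← d.norm_qq_mul hs] at h2
  have h3 := d.one_le_norm_qq hs hz θ
  apply le_of_sq_le_sq _ (by positivity)
  rw [norm_mul, mul_pow, norm_inv, Complex.norm_real, Real.norm_eq_abs, abs_of_pos hs, inv_pow,
    inv_mul_le_iff₀ (by positivity)]
  have h4 : ‖uu z (d.cur θ)‖ ^ 2 ≤ 2 * (s ^ 2 * ‖d.qq s z θ‖) := by linarith
  refine h4.trans ?_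
  have h5 : ‖d.qq s z θ‖ ≤ ‖d.qq s z θ‖ * ‖d.qq s z θ‖ := by nlinarith
  have h6 : 0 < s ^ 2 := by positivity
  nlinarith [mul_le_mul_of_nonneg_left h5 h6.le, mul_nonneg h6.le (norm_nonneg (d.qq s z θ))]

theorem norm_num_le {N : ℕ} {s : ℝ} (hs : 0 < s) {z : V} (hz : ‖z‖ ≤ 1) (θ : ℝ) :
    ‖d.num N s z θ‖ ≤ 4 * ‖d.qq s z θ‖ := by
  have h1 := d.norm_uu_scaled hs hz θ
  have h3 := d.one_le_norm_qq hs hz θ
  unfold num
  refine (norm_sub_le _ _).trans ?_
  rw [norm_mul, norm_ee, mul_one, norm_mul (bb : ℂ), norm_pow, norm_ee, one_pow, mul_one,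
    Complex.norm_real bb, Real.norm_eq_abs, abs_of_pos bb_pos]
  have := bb_le
  linarith

theorem norm_num_le' {N : ℕ} {s : ℝ} (hs : 0 < s) (hs1 : s ≤ 1) {z : V} (hz : ‖z‖ ≤ 1) (θ : ℝ) :
    ‖d.num N s z θ‖ ≤ 3 * s⁻¹ := by
  have h1 : ‖uu z (d.cur θ)‖ ≤ 1 := by
    have := norm_uu_le z (d.cur θ)
    rw [d.norm_one, mul_one] at this
    exact this.trans hz
  unfold num
  refine (norm_sub_le _ _).trans ?_
  rw [norm_mul, norm_ee, mul_one, norm_mul (bb : ℂ), norm_pow, norm_ee, one_pow, mul_one,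
    norm_mul, norm_inv, Complex.norm_real, Complex.norm_real, Real.norm_eq_abs, Real.norm_eq_abs,
    abs_of_pos bb_pos, abs_of_pos hs]
  have := bb_le
  have h2 : 1 ≤ s⁻¹ := (one_le_inv₀ hs).2 hs1
  have h3 : s⁻¹ * ‖uu z (d.cur θ)‖ ≤ s⁻¹ * 1 := mul_le_mul_of_nonneg_left h1 (by positivity)
  linarith

theorem norm_ker_le {N : ℕ} {s : ℝ} (hs : 0 < s) {z : V} (hz : ‖z‖ ≤ 1) (θ : ℝ) :
    ‖d.ker N s z θ‖ ≤ 4 / ‖d.qq s z θ‖ ^ 2 := by
  have h1 := d.norm_num_le (N := N) hs hz θ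
  have h3 := d.one_le_norm_qq hs hz θ
  have h4 : 0 < ‖d.qq s z θ‖ := by linarith
  rw [ker, norm_div, norm_pow, div_le_div_iff₀ (by positivity) (by positivity)]
  nlinarith [mul_le_mul_of_nonneg_right h1 (by positivity : 0 ≤ ‖d.qq s z θ‖ ^ 2)]

/-! ### Continuity and holomorphy -/

/-- `xx · p` as a linear map. -/
noncomputable def xL (p : V) : V →L[ℂ] ℂ :=
  conj (p 0) • (EuclideanSpace.proj (0 : Fin 2) : V →L[ℂ] ℂ) +
    conj (p 1) • (EuclideanSpace.proj (1 : Fin 2) : V →L[ℂ] ℂ)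

/-- `uu · p` as a linear map. -/
noncomputable def uL (p : V) : V →L[ℂ] ℂ :=
  p 0 • (EuclideanSpace.proj (1 : Fin 2) : V →L[ℂ] ℂ) -
    p 1 • (EuclideanSpace.proj (0 : Fin 2) : V →L[ℂ] ℂ)

theorem xL_apply (p z : V) : xL p z = xx z p := by
  simp [xL, xx]; ring

theorem uL_apply (p z : V) : uL p z = uu z p := by
  simp [uL, uu]; ring

theorem coord_continuous (i : Fin 2) : Continuous fun z : V => z i :=
  (EuclideanSpace.proj (i : Fin 2) : V →L[ℂ] ℂ).continuous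

theorem xL_continuous : Continuous xL := by
  unfold xL
  have h0 := Complex.continuous_conj.comp (coord_continuous 0)
  have h1 := Complex.continuous_conj.comp (coord_continuous 1)
  exact (h0.smul continuous_const).add (h1.smul continuous_const)

theorem uL_continuous : Continuous uL := by
  unfold uL
  exact ((coord_continuous 0).smul continuous_const).sub ((coord_continuous 1).smul continuous_const)

theorem xx_continuous : Continuous fun p : V × V => xx p.1 p.2 := by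
  have h : (fun p : V × V => xx p.1 p.2) = fun p : V × V => xL p.2 p.1 := by
    ext p; rw [xL_apply]
  rw [h]
  exact (xL_continuous.comp continuous_snd).clm_apply continuous_fst

theorem uu_continuous : Continuous fun p : V × V => uu p.1 p.2 := by
  have h : (fun p : V × V => uu p.1 p.2) = fun p : V × V => uL p.2 p.1 := by
    ext p; rw [uL_apply]
  rw [h]
  exact (uL_continuous.comp continuous_snd).clm_apply continuous_fst

theorem qq_continuous (s : ℝ) : Continuous fun p : V × ℝ => d.qq s p.1 p.2 := by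
  unfold qq
  have h : Continuous fun p : V × ℝ => xx p.1 (d.cur p.2) :=
    xx_continuous.comp (continuous_fst.prodMk (d.cur_continuous.comp continuous_snd))
  exact (continuous_const.sub h).div_const _

theorem num_continuous (N : ℕ) (s : ℝ) : Continuous fun p : V × ℝ => d.num N s p.1 p.2 := by
  unfold num
  have h : Continuous fun p : V × ℝ => uu p.1 (d.cur p.2) :=
    uu_continuous.comp (continuous_fst.prodMk (d.cur_continuous.comp continuous_snd))
  have h2 : Continuous fun p : V × ℝ => ee N p.2 := (ee_continuous N).comp continuous_snd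
  exact ((continuous_const.mul h).mul h2).sub (continuous_const.mul (h2.pow 2))

theorem qq_ne_zero {s : ℝ} (hs : 0 < s) {z : V} (hz : ‖z‖ < 1 + s ^ 2) (θ : ℝ) :
    d.qq s z θ ≠ 0 := by
  unfold qq
  apply div_ne_zero _ (pow_ne_zero _ (Complex.ofReal_ne_zero.2 hs.ne'))
  intro h
  have h1 : xx z (d.cur θ) = ((1 + s ^ 2 : ℝ) : ℂ) := by
    push_cast
    linear_combination -h
  have h2 := d.norm_xx_cur_le z θ
  rw [h1, Complex.norm_real, Real.norm_eq_abs, abs_of_pos (by positivity)] at h2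
  linarith

/-- The derivative of the kernel. -/
noncomputable def kerD (N : ℕ) (s : ℝ) (z : V) (θ : ℝ) : V →L[ℂ] ℂ :=
  (d.qq s z θ ^ 3)⁻¹ • (((s : ℂ)⁻¹ * ee N θ) • uL (d.cur θ)) +
    (3 * d.num N s z θ / (d.qq s z θ ^ 4 * (s : ℂ) ^ 2)) • xL (d.cur θ)

theorem ker_hasFDerivAt (N : ℕ) {s : ℝ} (hs : 0 < s) {z : V} (hz : ‖z‖ < 1 + s ^ 2) (θ : ℝ) :
    HasFDerivAt (fun z => d.ker N s z θ) (d.kerD N s z θ) z := by
  have hq := d.qq_ne_zero hs hz θ
  have hs' : (s : ℂ) ≠ 0 := Complex.ofReal_ne_zero.2 hs.ne'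
  have h1 : HasFDerivAt (fun z => d.num N s z θ) (((s : ℂ)⁻¹ * ee N θ) • uL (d.cur θ)) z := by
    have e : (fun z => d.num N s z θ) = fun z => ((s : ℂ)⁻¹ * ee N θ) * uL (d.cur θ) z -
        bb * ee N θ ^ 2 := by
      ext w
      rw [uL_apply, num]; ring
    rw [e]
    exact ((uL (d.cur θ)).hasFDerivAt.const_mul _).sub_const _
  have h2 : HasFDerivAt (fun z => d.qq s z θ) (-(((s : ℂ) ^ 2)⁻¹ • xL (d.cur θ))) z := by
    have e : (fun z => d.qq s z θ) = fun z => (1 + (s : ℂ) ^ 2) / (s : ℂ) ^ 2 -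
        ((s : ℂ) ^ 2)⁻¹ * xL (d.cur θ) z := by
      ext w
      rw [xL_apply, qq]; field_simp
    rw [e]
    exact ((xL (d.cur θ)).hasFDerivAt.const_mul _).const_sub _
  have h3 := ((hasDerivAt_pow 3 (d.qq s z θ)).fun_inv (pow_ne_zero 3 hq)).comp_hasFDerivAt z h2
  have h4 := h1.mul h3
  have e : (fun z => d.ker N s z θ) = (fun z => d.num N s z θ) *
      ((fun x => (x ^ 3)⁻¹) ∘ fun z => d.qq s z θ) := by
    ext w
    simp [ker, div_eq_mul_inv]
  rw [e]
  refine h4.congr_fderiv ?_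
  apply ContinuousLinearMap.ext
  intro w
  simp only [kerD, add_apply, smul_apply, neg_apply, smul_eq_mul, Function.comp]
  field_simp
  ring

theorem ker_continuousOn (N : ℕ) {s : ℝ} (hs : 0 < s) :
    ContinuousOn (fun p : V × ℝ => d.ker N s p.1 p.2) {p | ‖p.1‖ < 1 + s ^ 2} := by
  unfold ker
  apply (d.num_continuous N s).continuousOn.div ((d.qq_continuous s).pow 3).continuousOn
  intro p hp
  exact pow_ne_zero 3 (d.qq_ne_zero hs hp p.2)

theorem kerD_continuousOn (N : ℕ) {s : ℝ} (hs : 0 < s) :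
    ContinuousOn (fun p : V × ℝ => d.kerD N s p.1 p.2) {p | ‖p.1‖ < 1 + s ^ 2} := by
  unfold kerD
  have hs' : (s : ℂ) ≠ 0 := Complex.ofReal_ne_zero.2 hs.ne'
  have hq : ∀ p ∈ {p : V × ℝ | ‖p.1‖ < 1 + s ^ 2}, d.qq s p.1 p.2 ≠ 0 :=
    fun p hp => d.qq_ne_zero hs hp p.2
  have c1 : ContinuousOn (fun p : V × ℝ => (d.qq s p.1 p.2 ^ 3)⁻¹) {p | ‖p.1‖ < 1 + s ^ 2} :=
    ((d.qq_continuous s).pow 3).continuousOn.inv₀ fun p hp => pow_ne_zero 3 (hq p hp)
  have c2 : Continuous fun p : V × ℝ => ((s : ℂ)⁻¹ * ee N p.2) • uL (d.cur p.2) :=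
    (continuous_const.mul ((ee_continuous N).comp continuous_snd)).smul
      (uL_continuous.comp (d.cur_continuous.comp continuous_snd))
  have c3 : Continuous fun p : V × ℝ => xL (d.cur p.2) :=
    xL_continuous.comp (d.cur_continuous.comp continuous_snd)
  have c4 : ContinuousOn (fun p : V × ℝ => 3 * d.num N s p.1 p.2 /
      (d.qq s p.1 p.2 ^ 4 * (s : ℂ) ^ 2)) {p | ‖p.1‖ < 1 + s ^ 2} := by
    apply (continuous_const.mul (d.num_continuous N s)).continuousOn.div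
      (((d.qq_continuous s).pow 4).mul continuous_const).continuousOn
    intro p hp
    exact mul_ne_zero (pow_ne_zero 4 (hq p hp)) (pow_ne_zero 2 hs')
  exact (c1.smul c2.continuousOn).add (c4.smul c3.continuousOn)

theorem qq_continuous_right (s : ℝ) (z : V) : Continuous fun θ : ℝ => d.qq s z θ := by
  have h := (d.qq_continuous s).comp (Continuous.prodMk_right z)
  exact h

theorem num_continuous_right (N : ℕ) (s : ℝ) (z : V) : Continuous fun θ : ℝ => d.num N s z θ := by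
  have h := (d.num_continuous N s).comp (Continuous.prodMk_right z)
  exact h

theorem ker_continuous_right (N : ℕ) {s : ℝ} (hs : 0 < s) {z : V} (hz : ‖z‖ < 1 + s ^ 2) :
    Continuous fun θ => d.ker N s z θ := by
  unfold ker
  exact (d.num_continuous_right N s z).div ((d.qq_continuous_right s z).pow 3)
    fun θ => pow_ne_zero 3 (d.qq_ne_zero hs hz θ)

theorem kerD_continuous_right (N : ℕ) {s : ℝ} (hs : 0 < s) {z : V} (hz : ‖z‖ < 1 + s ^ 2) :
    Continuous fun θ => d.kerD N s z θ := by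
  unfold kerD
  have hs' : (s : ℂ) ≠ 0 := Complex.ofReal_ne_zero.2 hs.ne'
  have hq := d.qq_continuous_right s z
  have hn := d.num_continuous_right N s z
  have c1 : Continuous fun θ : ℝ => (d.qq s z θ ^ 3)⁻¹ :=
    (hq.pow 3).inv₀ fun θ => pow_ne_zero 3 (d.qq_ne_zero hs hz θ)
  have c2 : Continuous fun θ : ℝ => ((s : ℂ)⁻¹ * ee N θ) • uL (d.cur θ) :=
    (continuous_const.mul (ee_continuous N)).smul (uL_continuous.comp d.cur_continuous)
  have c3 : Continuous fun θ : ℝ => xL (d.cur θ) := xL_continuous.comp d.cur_continuous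
  have c4 : Continuous fun θ : ℝ => 3 * d.num N s z θ / (d.qq s z θ ^ 4 * (s : ℂ) ^ 2) :=
    (continuous_const.mul hn).div ((hq.pow 4).mul continuous_const)
      fun θ => mul_ne_zero (pow_ne_zero 4 (d.qq_ne_zero hs hz θ)) (pow_ne_zero 2 hs')
  exact (c1.smul c2).add (c4.smul c3)

theorem FF_differentiableAt (N : ℕ) {s : ℝ} (hs : 0 < s) {z : V} (hz : ‖z‖ < 1 + s ^ 2) :
    DifferentiableAt ℂ (d.FF N s) z := by
  unfold FF
  apply DifferentiableAt.const_mul
  -- a small closed ball around `z`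
  obtain ⟨r, hr, hr2⟩ : ∃ r : ℝ, 0 < r ∧ ∀ w ∈ Metric.closedBall z r, ‖w‖ < 1 + s ^ 2 := by
    refine ⟨(1 + s ^ 2 - ‖z‖) / 2, by linarith, fun w hw => ?_⟩
    have h1 : ‖w - z‖ ≤ (1 + s ^ 2 - ‖z‖) / 2 := by
      rwa [Metric.mem_closedBall, dist_eq_norm] at hw
    have h2 : ‖w‖ ≤ ‖z‖ + ‖w - z‖ := by
      have := norm_add_le z (w - z)
      rwa [add_sub_cancel] at this
    linarith
  have hK : IsCompact (Metric.closedBall z r ×ˢ Icc (0 : ℝ) (2 * Real.pi)) :=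
    (isCompact_closedBall z r).prod isCompact_Icc
  have hcont : ContinuousOn (fun p : V × ℝ => d.kerD N s p.1 p.2)
      (Metric.closedBall z r ×ˢ Icc (0 : ℝ) (2 * Real.pi)) :=
    (d.kerD_continuousOn N hs).mono fun p hp => hr2 p.1 hp.1
  obtain ⟨M, hM⟩ := hK.exists_bound_of_continuousOn hcont
  have hπ : (0 : ℝ) ≤ 2 * Real.pi := Real.two_pi_pos.le
  have key := intervalIntegral.hasFDerivAt_integral_of_dominated_of_fderiv_le
    (μ := volume) (a := 0) (b := 2 * Real.pi) (F := fun z θ => d.ker N s z θ)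
    (F' := fun z θ => d.kerD N s z θ) (x₀ := z) (s := Metric.ball z r) (bound := fun _ => M)
    (Metric.ball_mem_nhds z hr) ?_ ?_ ?_ ?_ ?_ ?_
  · exact key.differentiableAt
  · filter_upwards [Metric.ball_mem_nhds z hr] with w hw
    exact (d.ker_continuous_right N hs
      (hr2 w (Metric.ball_subset_closedBall hw))).aestronglyMeasurable
  · exact (d.ker_continuous_right N hs hz).intervalIntegrable _ _
  · exact (d.kerD_continuous_right N hs hz).aestronglyMeasurable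
  · refine Filter.Eventually.of_forall fun θ hθ w hw => ?_
    rw [uIoc_of_le hπ] at hθ
    exact hM (w, θ) ⟨Metric.ball_subset_closedBall hw, hθ.1.le, hθ.2⟩
  · exact intervalIntegrable_const
  · refine Filter.Eventually.of_forall fun θ hθ w hw => ?_
    exact d.ker_hasFDerivAt N hs (hr2 w (Metric.ball_subset_closedBall hw)) θ

/-- `FF` is small where the denominator is large. -/
theorem FF_small {N : ℕ} {s A η : ℝ} (hs : 0 < s) (hs1 : s ≤ 1) (hsN : s ^ 2 * N = A)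
    (hη : 0 < η) {z : V} (hz : ‖z‖ ≤ 1)
    (h : ∀ θ, η ≤ ‖1 + (s : ℂ) ^ 2 - xx z (d.cur θ)‖) :
    ‖d.FF N s z‖ ≤ 3 * A * s ^ 3 / η ^ 3 := by
  have hπ := Real.pi_pos
  have hb : ∀ θ, ‖d.ker N s z θ‖ ≤ 3 * s ^ 5 / η ^ 3 := by
    intro θ
    have h1 := d.norm_num_le' (N := N) hs hs1 hz θ
    have h2 : η / s ^ 2 ≤ ‖d.qq s z θ‖ := by
      rw [div_le_iff₀ (by positivity), mul_comm, d.norm_qq_mul hs]
      exact h θ
    have h3 : 0 < η / s ^ 2 := by positivity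
    rw [ker, norm_div, norm_pow]
    calc ‖d.num N s z θ‖ / ‖d.qq s z θ‖ ^ 3 ≤ (3 * s⁻¹) / (η / s ^ 2) ^ 3 := by
          apply div_le_div₀ (by positivity) h1 (by positivity)
          exact pow_le_pow_left₀ h3.le h2 3
      _ = 3 * s ^ 5 / η ^ 3 := by field_simp
  have h4 : ‖∫ θ in (0 : ℝ)..(2 * Real.pi), d.ker N s z θ‖ ≤
      3 * s ^ 5 / η ^ 3 * |2 * Real.pi - 0| :=
    intervalIntegral.norm_integral_le_of_norm_le_const fun θ _ => hb θ
  rw [sub_zero, abs_of_pos Real.two_pi_pos] at h4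
  rw [FF, norm_mul, Complex.norm_real, Real.norm_eq_abs, abs_of_nonneg (by positivity)]
  calc (N / (2 * Real.pi)) * ‖∫ θ in (0 : ℝ)..(2 * Real.pi), d.ker N s z θ‖ ≤
      (N / (2 * Real.pi)) * (3 * s ^ 5 / η ^ 3 * (2 * Real.pi)) :=
        mul_le_mul_of_nonneg_left h4 (by positivity)
    _ = 3 * A * s ^ 3 / η ^ 3 := by rw [← hsN]; field_simp

end Disc

end Pool.Agent.RudinExc
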