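import Pool.Agent.Lib.MP_9f272e_an.Disc

/-!
# The boundary curve of a disc represents the origin
-/

namespace Pool.Agent.RudinExc

open Complex ComplexConjugate Set MeasureTheory Filter Topology Metric

namespace Disc

variable (d : Disc)

/-- The disc itself. -/
noncomputable def phi (w : ℂ) : V := mk2 (d.P.eval w) (d.Q.eval w)

theorem phi_zero : d.phi 0 = 0 := by
  have h1 : d.P.eval 0 = 0 := by rw [← Polynomial.coeff_zero_eq_eval_zero]; exact d.P0
  have h2 : d.Q.eval 0 = 0 := by rw [← Polynomial.coeff_zero_eq_eval_zero]; exact d.Q0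
  apply V_ext
  · simp [phi, h1]
  · simp [phi, h2]

theorem phi_exp (t : ℝ) : d.phi (cexp (t * I)) = d.cur t := rfl

theorem phi_differentiable : Differentiable ℂ d.phi := by
  unfold phi mk2
  intro w
  have h : DifferentiableAt ℂ (fun w : ℂ => (![d.P.eval w, d.Q.eval w] : Fin 2 → ℂ)) w := by
    rw [differentiableAt_pi]
    intro i
    fin_cases i
    · exact d.P.differentiable w
    · exact d.Q.differentiable w
  exact ((PiLp.continuousLinearEquiv 2 ℂ (fun _ : Fin 2 => ℂ)).symm.differentiableAt).comp w h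

theorem norm_phi_le {w : ℂ} (hw : ‖w‖ ≤ 1) : ‖d.phi w‖ ≤ 1 := by
  apply Complex.norm_le_of_forall_mem_frontier_norm_le (U := ball (0 : ℂ) 1) isBounded_ball
    d.phi_differentiable.diffContOnCl
  · intro z hz
    rw [frontier_ball (0 : ℂ) one_ne_zero, mem_sphere_zero_iff_norm] at hz
    have h1 : z = cexp (z.arg * I) := by
      have := Complex.norm_mul_exp_arg_mul_I z
      rw [hz, Complex.ofReal_one, one_mul] at this
      exact this.symm
    rw [h1, phi_exp, d.norm_one]
  · rw [closure_ball (0 : ℂ) one_ne_zero, mem_closedBall_zero_iff]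
    exact hw

theorem rep {g : V → ℂ} (hg : DifferentiableOn ℂ g (ball 0 1)) {r : ℝ} (hr0 : 0 ≤ r)
    (hr : r < 1) :
    ∫ θ in (0 : ℝ)..(2 * Real.pi), g ((r : ℂ) • d.cur θ) = 2 * Real.pi * g 0 := by
  have hmem : ∀ w : ℂ, ‖w‖ ≤ 1 → (r : ℂ) • d.phi w ∈ ball (0 : V) 1 := by
    intro w hw
    rw [mem_ball_zero_iff, norm_smul, Complex.norm_real, Real.norm_eq_abs, abs_of_nonneg hr0]
    have := d.norm_phi_le hw
    nlinarith [norm_nonneg (d.phi w)]
  have hdiff : ∀ w : ℂ, ‖w‖ ≤ 1 → DifferentiableAt ℂ (fun w => g ((r : ℂ) • d.phi w)) w := by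
    intro w hw
    have h1 : DifferentiableAt ℂ g ((r : ℂ) • d.phi w) :=
      hg.differentiableAt (isOpen_ball.mem_nhds (hmem w hw))
    exact h1.comp w ((d.phi_differentiable w).const_smul (r : ℂ))
  have hD : DiffContOnCl ℂ (fun w => g ((r : ℂ) • d.phi w)) (ball (0 : ℂ) |1|) := by
    rw [abs_one]
    constructor
    · intro w hw
      rw [mem_ball_zero_iff] at hw
      exact (hdiff w hw.le).differentiableWithinAt
    · intro w hw
      rw [closure_ball (0 : ℂ) one_ne_zero, mem_closedBall_zero_iff] at hw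
      exact (hdiff w hw).continuousAt.continuousWithinAt
  have h := hD.circleAverage
  rw [Real.circleAverage_def, d.phi_zero, smul_zero] at h
  have h2 : ∫ θ in (0 : ℝ)..(2 * Real.pi), g ((r : ℂ) • d.phi (circleMap 0 1 θ)) =
      ∫ θ in (0 : ℝ)..(2 * Real.pi), g ((r : ℂ) • d.cur θ) := by
    congr 1
    ext θ
    rw [circleMap, Complex.ofReal_one, zero_add, one_mul, phi_exp]
  rw [h2] at h
  rw [← h, Complex.real_smul]
  have hπc : (Real.pi : ℂ) ≠ 0 := by exact_mod_cast Real.pi_ne_zero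
  generalize ∫ θ in (0 : ℝ)..(2 * Real.pi), g ((r : ℂ) • d.cur θ) = J
  push_cast
  field_simp

end Disc

end Pool.Agent.RudinExc
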