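import Pool.Agent.Lib.MP_9f272e_an.Sum
import Pool.Agent.Lib.MP_9f272e_an.Rep

/-!
# The representing measure
-/

namespace Pool.Agent.RudinExc

open Complex ComplexConjugate Set MeasureTheory Filter Topology Metric

/-- The integral along the limit curve. -/
theorem gam_integral {g : V → ℂ} (hc : ContinuousOn g (closedBall 0 1))
    (hd : DifferentiableOn ℂ g (ball 0 1)) :
    ∫ θ in (0 : ℝ)..(2 * Real.pi), g (gam θ) = 2 * Real.pi * g 0 := by
  set ρ : ℕ → ℝ := fun n => 1 - 1 / ((n : ℝ) + 1) with hρ
  have hρ0 : ∀ n, 0 ≤ ρ n := by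
    intro n
    simp only [hρ]
    have : 1 / ((n : ℝ) + 1) ≤ 1 := by
      rw [div_le_one (by positivity)]
      have := Nat.cast_nonneg (α := ℝ) n
      linarith
    linarith
  have hρ1 : ∀ n, ρ n < 1 := by
    intro n
    simp only [hρ]
    have : 0 < 1 / ((n : ℝ) + 1) := by positivity
    linarith
  have hρt : Tendsto ρ atTop (𝓝 1) := by
    have := (tendsto_one_div_add_atTop_nhds_zero_nat (𝕜 := ℝ)).const_sub 1
    rwa [sub_zero] at this
  have hmem : ∀ n θ, ((ρ n : ℝ) : ℂ) • (st n).d.cur θ ∈ closedBall (0 : V) 1 := by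
    intro n θ
    rw [mem_closedBall_zero_iff, norm_smul, Disc.norm_one, mul_one, Complex.norm_real,
      Real.norm_eq_abs, abs_of_nonneg (hρ0 n)]
    exact (hρ1 n).le
  obtain ⟨M, hM⟩ := (isCompact_closedBall (0 : V) 1).exists_bound_of_continuousOn hc
  have key : Tendsto (fun n => ∫ θ in (0 : ℝ)..(2 * Real.pi),
      g (((ρ n : ℝ) : ℂ) • (st n).d.cur θ)) atTop
      (𝓝 (∫ θ in (0 : ℝ)..(2 * Real.pi), g (gam θ))) := by
    apply intervalIntegral.tendsto_integral_filter_of_dominated_convergence (fun _ => M)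
    · refine Filter.Eventually.of_forall fun n => ?_
      apply Continuous.aestronglyMeasurable
      have hcc : Continuous fun θ => ((ρ n : ℝ) : ℂ) • (st n).d.cur θ := by
        have h0 := (st n).d.cur_continuous
        fun_prop
      exact hc.comp_continuous hcc (hmem n)
    · exact Filter.Eventually.of_forall fun n =>
        Filter.Eventually.of_forall fun θ _ => hM _ (hmem n θ)
    · exact intervalIntegrable_const
    · refine Filter.Eventually.of_forall fun θ _ => ?_
      have h1 : Tendsto (fun n => ((ρ n : ℝ) : ℂ) • (st n).d.cur θ) atTop (𝓝 (gam θ)) := by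
        have h2 : Tendsto (fun n => ((ρ n : ℝ) : ℂ)) atTop (𝓝 1) := by
          have := (Complex.continuous_ofReal.tendsto 1).comp hρt
          simpa [Function.comp_def] using this
        have h3 := h2.smul (gam_tendsto θ)
        rwa [one_smul] at h3
      have h4 : ContinuousWithinAt g (closedBall 0 1) (gam θ) :=
        hc _ (by rw [mem_closedBall_zero_iff, gam_norm])
      apply h4.tendsto.comp
      rw [tendsto_nhdsWithin_iff]
      exact ⟨h1, Filter.Eventually.of_forall fun n => hmem n θ⟩
  have key2 : (fun n => ∫ θ in (0 : ℝ)..(2 * Real.pi), g (((ρ n : ℝ) : ℂ) • (st n).d.cur θ)) =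
      fun _ => 2 * Real.pi * g 0 := by
    ext n
    exact (st n).d.rep hd (hρ0 n) (hρ1 n)
  rw [key2] at key
  exact (tendsto_nhds_unique key tendsto_const_nhds)

/-- The measure. -/
noncomputable def mu : Measure V :=
  ENNReal.ofReal (2 * Real.pi)⁻¹ •
    Measure.map gam (volume.restrict (Ioc (0 : ℝ) (2 * Real.pi)))

theorem mu_finite : IsFiniteMeasure mu := by
  unfold mu
  have h : IsFiniteMeasure (Measure.map gam (volume.restrict (Ioc (0 : ℝ) (2 * Real.pi)))) :=
    Measure.isFiniteMeasure_map _ _
  exact Measure.smul_finite _ ENNReal.ofReal_ne_top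

theorem mu_null {s : Set V} (hs : MeasurableSet s) (h : ∀ t, gam t ∉ s) : mu s = 0 := by
  have h1 : gam ⁻¹' s = ∅ := by
    ext t
    simp [h t]
  rw [mu, Measure.smul_apply, Measure.map_apply gam_continuous.measurable hs, h1, measure_empty,
    smul_zero]

theorem mu_sphere : mu (sphere (0 : V) 1)ᶜ = 0 := by
  apply mu_null isClosed_sphere.measurableSet.compl
  intro t ht
  exact ht (by rw [mem_sphere_zero_iff_norm, gam_norm])

theorem mu_rep {g : V → ℂ} (hc : ContinuousOn g (closedBall 0 1))
    (hd : DifferentiableOn ℂ g (ball 0 1)) : ∫ z, g z ∂mu = g 0 := by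
  have hπ : (0 : ℝ) ≤ 2 * Real.pi := Real.two_pi_pos.le
  have hball : mu (closedBall (0 : V) 1)ᶜ = 0 := by
    apply mu_null isClosed_closedBall.measurableSet.compl
    intro t ht
    exact ht (by rw [mem_closedBall_zero_iff, gam_norm])
  have hmap : (Measure.map gam (volume.restrict (Ioc (0 : ℝ) (2 * Real.pi))))
      (closedBall (0 : V) 1)ᶜ = 0 := by
    rw [Measure.map_apply gam_continuous.measurable isClosed_closedBall.measurableSet.compl]
    have h1 : gam ⁻¹' (closedBall (0 : V) 1)ᶜ = ∅ := by
      ext t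
      simp [gam_norm]
    rw [h1, measure_empty]
  have hmeas : AEStronglyMeasurable g
      (Measure.map gam (volume.restrict (Ioc (0 : ℝ) (2 * Real.pi)))) := by
    have h1 := hc.aestronglyMeasurable isClosed_closedBall.measurableSet
      (μ := Measure.map gam (volume.restrict (Ioc (0 : ℝ) (2 * Real.pi))))
    rwa [Measure.restrict_eq_self_of_ae_mem] at h1
    rw [ae_iff]
    exact hmap
  rw [mu, integral_smul_measure, integral_map gam_continuous.aemeasurable hmeas,
    ← intervalIntegral.integral_of_le hπ, gam_integral hc hd,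
    ENNReal.toReal_ofReal (by positivity), Complex.real_smul]
  have hπc : (Real.pi : ℂ) ≠ 0 := by exact_mod_cast Real.pi_ne_zero
  push_cast
  field_simp

theorem mu_pos {s : Set V} (h : ∀ t, gam t ∈ s) : mu s ≠ 0 := by
  intro h0
  obtain ⟨T, hsT, hTm, hT0⟩ := exists_measurable_superset_of_null h0
  have h2 : gam ⁻¹' T = univ := by
    ext t
    simp only [mem_preimage, mem_univ, iff_true]
    exact hsT (h t)
  rw [mu, Measure.smul_apply, Measure.map_apply gam_continuous.measurable hTm, h2,
    Measure.restrict_apply MeasurableSet.univ, univ_inter, smul_eq_mul, Real.volume_Ioc, sub_zero,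
    ← ENNReal.ofReal_mul (by positivity)] at hT0
  have h4 : (2 * Real.pi)⁻¹ * (2 * Real.pi) = 1 := by
    have := Real.pi_pos
    field_simp
  rw [h4, ENNReal.ofReal_one] at hT0
  exact one_ne_zero hT0

end Pool.Agent.RudinExc
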