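import Pool.Agent.Lib.MP_9f272e_an.Disc

/-!
# The Hermitian product with a point of the curve moves monotonically
-/

namespace Pool.Agent.RudinExc

open Complex ComplexConjugate Polynomial Set

namespace Disc

variable (d : Disc)

theorem separation {η : ℝ} (hη : 0 < η) : ∃ m : ℝ, 0 < m ∧ ∀ s t : ℝ, η ≤ |s - t| →
    |s - t| ≤ Real.pi → m ≤ ‖d.cur s - d.cur t‖ := by
  set K : Set (ℝ × ℝ) := Icc 0 (2 * Real.pi) ×ˢ {h : ℝ | η ≤ |h| ∧ |h| ≤ Real.pi} with hK
  have hKc : IsCompact K := by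
    apply isCompact_Icc.prod
    have h1 : {h : ℝ | η ≤ |h| ∧ |h| ≤ Real.pi} = Icc (-Real.pi) Real.pi ∩ {h : ℝ | η ≤ |h|} := by
      ext h
      simp only [mem_setOf_eq, mem_inter_iff, mem_Icc, abs_le]
      tauto
    rw [h1]
    exact isCompact_Icc.inter_right (isClosed_le continuous_const continuous_abs)
  have hf : Continuous fun p : ℝ × ℝ => ‖d.cur (p.1 + p.2) - d.cur p.1‖ :=
    ((d.cur_continuous.comp (continuous_fst.add continuous_snd)).sub
      (d.cur_continuous.comp continuous_fst)).norm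
  have hred : ∃ m : ℝ, 0 < m ∧ ∀ p ∈ K, m ≤ ‖d.cur (p.1 + p.2) - d.cur p.1‖ := by
    rcases K.eq_empty_or_nonempty with hE | hE
    · exact ⟨1, one_pos, fun p hp => by rw [hE] at hp; exact absurd hp (notMem_empty p)⟩
    · obtain ⟨q, hq, hmin⟩ := hKc.exists_isMinOn hE hf.continuousOn
      refine ⟨_, ?_, fun p hp => hmin hp⟩
      rw [norm_pos_iff, sub_ne_zero]
      intro heq
      have h1 : η ≤ |q.2| := hq.2.1
      have h2 : |q.2| ≤ Real.pi := hq.2.2
      have h3 := d.inj (q.1 + q.2) q.1 (by simpa using h2) heq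
      have h4 : q.2 = 0 := by linarith
      rw [h4, abs_zero] at h1
      linarith
  obtain ⟨m, hm, hmK⟩ := hred
  refine ⟨m, hm, fun s t h1 h2 => ?_⟩
  have hper : Function.Periodic (fun u : ℝ => ‖d.cur (u + (s - t)) - d.cur u‖)
      (2 * Real.pi) := by
    intro u
    show ‖d.cur (u + 2 * Real.pi + (s - t)) - d.cur (u + 2 * Real.pi)‖ = _
    rw [d.cur_add_two_pi, add_right_comm, d.cur_add_two_pi]
  obtain ⟨y, hy, hy2⟩ := hper.exists_mem_Ico₀ Real.two_pi_pos t
  have h3 := hmK (y, s - t) ⟨⟨hy.1, hy.2.le⟩, h1, h2⟩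
  have h4 : ‖d.cur (t + (s - t)) - d.cur t‖ = ‖d.cur (y + (s - t)) - d.cur y‖ := hy2
  have h5 : t + (s - t) = s := by ring
  rw [h5] at h4
  rw [h4]
  exact h3

theorem mono {a : ℝ} (ha : 0 < a) (hν : ∀ t, a ≤ d.nu t) : ∃ δ : ℝ, 0 < δ ∧
    ∀ z : V, ‖z‖ ≤ 1 → ∀ s t : ℝ, |s - t| ≤ Real.pi → ‖1 - xx z (d.cur s)‖ ≤ δ →
      ‖1 - xx z (d.cur t)‖ ≤ δ →
      a / 2 * |s - t| ≤ |(xx z (d.cur s)).im - (xx z (d.cur t)).im| := by
  obtain ⟨L, hL, h1, h2, h3⟩ := d.bounds
  have hLpos : 0 < L := by linarith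
  have hη : 0 < a / (4 * L) := by positivity
  obtain ⟨m, hm, hsep⟩ := d.separation hη
  set ρ : ℝ := min (a / (4 * L)) (m / 4) with hρ
  have hρpos : 0 < ρ := lt_min hη (by positivity)
  have hρ1 : ρ ≤ a / (4 * L) := min_le_left _ _
  have hρ2 : ρ ≤ m / 4 := min_le_right _ _
  have near : ∀ z : V, ‖z‖ ≤ 1 → ∀ s : ℝ, ‖1 - xx z (d.cur s)‖ ≤ ρ ^ 2 / 2 →
      ‖z - d.cur s‖ ≤ ρ := by
    intro z hz s hs
    have e1 := two_re_one_sub_xx (z := z) (d.norm_one s)
    have e2 : (1 - xx z (d.cur s)).re ≤ ρ ^ 2 / 2 := (Complex.re_le_norm _).trans hs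
    have e3 : ‖z‖ ^ 2 ≤ 1 := by
      have := pow_le_pow_left₀ (norm_nonneg z) hz 2
      simpa using this
    apply le_of_sq_le_sq _ hρpos.le
    linarith
  refine ⟨ρ ^ 2 / 2, by positivity, fun z hz s t hst hs ht => ?_⟩
  have n1 := near z hz s hs
  have n2 := near z hz t ht
  have hclose : |s - t| < a / (4 * L) := by
    by_contra hcon
    have h4 := hsep s t (not_lt.1 hcon) hst
    have h5 : ‖d.cur s - d.cur t‖ ≤ 2 * ρ := by
      have : d.cur s - d.cur t = (z - d.cur t) - (z - d.cur s) := by abel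
      rw [this]
      exact (norm_sub_le _ _).trans (by linarith)
    linarith
  set h := s - t with hh
  have hs' : s = t + h := by rw [hh]; ring
  set w := d.cur (t + h) - d.cur t with hw
  set e := w - (h * I : ℂ) • d.del t with he
  have hwe : w = (h * I : ℂ) • d.del t + e := by rw [he]; abel
  have e0 : xx (d.cur t) (d.del t) = (d.nu t : ℂ) := by
    rw [← xx_conj, nu_eq, Complex.conj_ofReal]
  have e1 : (xx z (d.cur s)).im - (xx z (d.cur t)).im =
      -(h * d.nu t) - h * (xx (z - d.cur t) (d.del t)).re + (xx z e).im := by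
    rw [← Complex.sub_im, ← xx_sub_right, hs', ← hw, hwe, xx_add_right, xx_smul_right,
      Complex.add_im]
    congr 1
    have : xx z (d.del t) = (d.nu t : ℂ) + xx (z - d.cur t) (d.del t) := by
      rw [xx_sub_left, e0]; ring
    rw [this]
    simp only [map_mul, Complex.conj_ofReal, Complex.conj_I, Complex.mul_im, Complex.mul_re,
      Complex.add_re, Complex.add_im, Complex.ofReal_re, Complex.ofReal_im, Complex.neg_re,
      Complex.neg_im, Complex.I_re, Complex.I_im]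
    ring
  have b1 : |(xx (z - d.cur t) (d.del t)).re| ≤ ρ * L := by
    refine (Complex.abs_re_le_norm _).trans ((norm_xx_le _ _).trans ?_)
    exact mul_le_mul n2 (h1 t) (norm_nonneg _) hρpos.le
  have b2 : |(xx z e).im| ≤ L * h ^ 2 := by
    refine (Complex.abs_im_le_norm _).trans ((norm_xx_le _ _).trans ?_)
    have := h3 t h
    calc ‖z‖ * ‖e‖ ≤ 1 * (L * h ^ 2) := mul_le_mul hz this (norm_nonneg _) zero_le_one
      _ = L * h ^ 2 := one_mul _
  have b3 : |h| * d.nu t ≤ |(xx z (d.cur s)).im - (xx z (d.cur t)).im| + |h| * (ρ * L) +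
      L * h ^ 2 := by
    have hnu : 0 < d.nu t := lt_of_lt_of_le ha (hν t)
    have : h * d.nu t = -((xx z (d.cur s)).im - (xx z (d.cur t)).im) -
        h * (xx (z - d.cur t) (d.del t)).re + (xx z e).im := by rw [e1]; ring
    have h6 : |h| * d.nu t = |h * d.nu t| := by rw [abs_mul, abs_of_pos hnu]
    rw [h6, this]
    refine (abs_add_le _ _).trans (add_le_add ?_ b2)
    refine (abs_sub _ _).trans (add_le_add ?_ ?_)
    · rw [abs_neg]
    · rw [abs_mul]
      exact mul_le_mul_of_nonneg_left b1 (abs_nonneg h)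
  have hsq : h ^ 2 = |h| * |h| := by rw [← sq, sq_abs]
  rw [hsq] at b3
  have habs : 0 ≤ |h| := abs_nonneg h
  have c1 : ρ * L ≤ a / 4 := by
    have := mul_le_mul_of_nonneg_right hρ1 hLpos.le
    have e : a / (4 * L) * L = a / 4 := by field_simp
    rwa [e] at this
  have c2 : |h| * L ≤ a / 4 := by
    have := mul_le_mul_of_nonneg_right hclose.le hLpos.le
    have e : a / (4 * L) * L = a / 4 := by field_simp
    rwa [e] at this
  have c3 : |h| * a ≤ |h| * d.nu t := mul_le_mul_of_nonneg_left (hν t) habs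
  have c4 : |h| * (ρ * L) ≤ |h| * (a / 4) := mul_le_mul_of_nonneg_left c1 habs
  have c5 : L * (|h| * |h|) ≤ |h| * (a / 4) := by
    have := mul_le_mul_of_nonneg_left c2 habs
    linarith
  linarith

end Disc

end Pool.Agent.RudinExc
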