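import Pool.Agent.Lib.MP_9f272e_an.Mono

/-!
# Winding a disc around its boundary curve
-/

namespace Pool.Agent.RudinExc

open Complex ComplexConjugate Polynomial Set

/-- The normalising factor. -/
noncomputable def ci (s : ℝ) : ℝ := (Real.sqrt (1 + s ^ 2))⁻¹

theorem ci_pos (s : ℝ) : 0 < ci s := by
  unfold ci
  have : 0 < 1 + s ^ 2 := by positivity
  positivity

theorem ci_sq (s : ℝ) : ci s ^ 2 * (1 + s ^ 2) = 1 := by
  unfold ci
  have h : 0 < 1 + s ^ 2 := by positivity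
  rw [inv_pow, Real.sq_sqrt h.le, inv_mul_cancel₀ h.ne']

theorem ci_le_one (s : ℝ) : ci s ≤ 1 := by
  have h := ci_sq s
  have h2 := ci_pos s
  nlinarith [sq_nonneg s, mul_nonneg (sq_nonneg (ci s)) (sq_nonneg s)]

theorem ci_lower {s : ℝ} (hs : |s| ≤ 1) : 1 - s ^ 2 / 2 ≤ ci s := by
  have h := ci_sq s
  have h2 := ci_pos s
  have h3 : s ^ 2 ≤ 1 := by
    rw [← sq_abs]; exact pow_le_one₀ (abs_nonneg s) hs
  by_contra hcon
  rw [not_le] at hcon
  have h4 : ci s ^ 2 < (1 - s ^ 2 / 2) ^ 2 := pow_lt_pow_left₀ hcon h2.le two_ne_zero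
  have h5 : ci s ^ 2 * (1 + s ^ 2) < (1 - s ^ 2 / 2) ^ 2 * (1 + s ^ 2) :=
    mul_lt_mul_of_pos_right h4 (by positivity)
  have h6 : (1 - s ^ 2 / 2) ^ 2 * (1 + s ^ 2) = 1 - (s ^ 2) ^ 2 * (3 - s ^ 2) / 4 := by ring
  have h7 : 0 ≤ (s ^ 2) ^ 2 * (3 - s ^ 2) := mul_nonneg (by positivity) (by linarith)
  linarith

theorem ci_upper {s : ℝ} (hs : |s| ≤ 1) : ci s ≤ 1 - s ^ 2 / 2 + (s ^ 2) ^ 2 := by
  have h := ci_sq s
  have h2 := ci_pos s
  have h3 : s ^ 2 ≤ 1 := by
    rw [← sq_abs]; exact pow_le_one₀ (abs_nonneg s) hs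
  by_contra hcon
  rw [not_le] at hcon
  have h0 : 0 ≤ 1 - s ^ 2 / 2 + (s ^ 2) ^ 2 := by nlinarith [sq_nonneg (s ^ 2)]
  have h4 : (1 - s ^ 2 / 2 + (s ^ 2) ^ 2) ^ 2 < ci s ^ 2 := pow_lt_pow_left₀ hcon h0 two_ne_zero
  have h5 : (1 - s ^ 2 / 2 + (s ^ 2) ^ 2) ^ 2 * (1 + s ^ 2) < ci s ^ 2 * (1 + s ^ 2) :=
    mul_lt_mul_of_pos_right h4 (by positivity)
  have h6 : (1 - s ^ 2 / 2 + (s ^ 2) ^ 2) ^ 2 * (1 + s ^ 2) =
      1 + (5 / 4 * (s ^ 2) ^ 2 + 5 / 4 * (s ^ 2) ^ 3 + (s ^ 2) ^ 5) := by ring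
  have h7 : 0 ≤ 5 / 4 * (s ^ 2) ^ 2 + 5 / 4 * (s ^ 2) ^ 3 + (s ^ 2) ^ 5 := by positivity
  linarith

/-- The rotating factor. -/
noncomputable def ee (N : ℕ) (t : ℝ) : ℂ := cexp (N * t * I)

theorem norm_ee (N : ℕ) (t : ℝ) : ‖ee N t‖ = 1 := by
  have := norm_exp_I (N * t)
  push_cast at this
  exact this

theorem ee_mul_conj (N : ℕ) (t : ℝ) : ee N t * conj (ee N t) = 1 := by
  rw [← normSq_ofReal, norm_ee]; simp

theorem ee_continuous (N : ℕ) : Continuous (ee N) := by
  unfold ee; fun_prop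

theorem ee_hasDerivAt (N : ℕ) (t : ℝ) : HasDerivAt (ee N) (N * I * ee N t) t := by
  have h2 : HasDerivAt (fun t : ℝ => (N : ℂ) * (t : ℂ) * I) (N * 1 * I) t :=
    ((Complex.ofRealCLM.hasDerivAt (x := t)).const_mul (N : ℂ)).mul_const I
  have h3 := h2.cexp
  rw [mul_one, mul_comm] at h3
  exact h3

/-- The vector on the new curve, before normalisation. -/
noncomputable def bump (s : ℝ) (u : ℂ) (p : V) : V := p + ((s : ℂ) * u) • jj p

theorem xx_bump {s : ℝ} {u : ℂ} {p : V} (hp : ‖p‖ = 1) : xx (bump s u p) p = 1 := by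
  rw [bump, xx_add_left, xx_smul_left, xx_jj_self, mul_zero, add_zero, xx_self, hp]
  simp

theorem norm_bump_sq {s : ℝ} {u : ℂ} {p : V} (hp : ‖p‖ = 1) (hu : u * conj u = 1) :
    ‖bump s u p‖ ^ 2 = 1 + s ^ 2 := by
  have h : ((‖bump s u p‖ ^ 2 : ℝ) : ℂ) = ((1 + s ^ 2 : ℝ) : ℂ) := by
    rw [← xx_self]
    have e1 : xx (bump s u p) (bump s u p) =
        xx p p + ((s : ℂ) * u) * xx (jj p) p + conj ((s : ℂ) * u) * xx p (jj p) +
          ((s : ℂ) * u) * conj ((s : ℂ) * u) * xx (jj p) (jj p) := by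
      unfold bump
      rw [xx_add_left, xx_add_right, xx_add_right, xx_smul_left, xx_smul_left, xx_smul_right,
        xx_smul_right]
      ring
    rw [e1, xx_jj_self, xx_jj_right, uu_self, xx_jj_jj, xx_self, hp]
    simp only [map_mul, Complex.conj_ofReal]
    have : (s : ℂ) * u * (s * conj u) = s ^ 2 := by linear_combination (s : ℂ) ^ 2 * hu
    rw [this]
    push_cast
    simp
  exact_mod_cast h

namespace Disc

variable (d : Disc)

theorem newDisc {A κ ε : ℝ} (hA : 1 ≤ A) (hκ : κ ≤ A / 2) (hν : ∀ t, |d.nu t - A| ≤ κ)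
    (hε : 0 < ε) :
    ∃ s0 : ℝ, 0 < s0 ∧ ∀ (N : ℕ) (s : ℝ), 0 < s → s ^ 2 * N = A → s ≤ s0 →
      ∃ d' : Disc, (∀ t, d'.cur t = (ci s : ℂ) • bump s (ee N t) (d.cur t)) ∧
        ∀ t, |d'.nu t - 2 * A| ≤ κ + ε := by
  obtain ⟨L, hL, h1, h2, h3⟩ := d.bounds
  have hνlow : ∀ t, A / 2 ≤ d.nu t := by
    intro t
    have := (abs_le.1 (hν t)).1
    linarith
  obtain ⟨δ, hδ, hmono⟩ := d.mono (a := A / 2) (by linarith) hνlow
  set D : ℝ := (d.P.natDegree + d.Q.natDegree + 1 : ℝ) with hD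
  have hDpos : 0 < D := by positivity
  have hD1 : 1 ≤ D := by
    rw [hD]
    have e1 : (0 : ℝ) ≤ d.P.natDegree := Nat.cast_nonneg _
    have e2 : (0 : ℝ) ≤ d.Q.natDegree := Nat.cast_nonneg _
    linarith
  refine ⟨min (min 1 δ) (min (1 / D) (ε / (3 * L + 2 * A))), by positivity, ?_⟩
  intro N s hs hsN hs0
  have hs1 : s ≤ 1 := hs0.trans ((min_le_left _ _).trans (min_le_left _ _))
  have hsδ : s ≤ δ := hs0.trans ((min_le_left _ _).trans (min_le_right _ _))
  have hsD : s ≤ 1 / D := hs0.trans ((min_le_right _ _).trans (min_le_left _ _))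
  have hsε : s ≤ ε / (3 * L + 2 * A) := hs0.trans ((min_le_right _ _).trans (min_le_right _ _))
  have hsabs : |s| ≤ 1 := by rwa [abs_of_pos hs]
  have hs2 : s ^ 2 ≤ s := by nlinarith
  -- the degree is smaller than `N`
  have hND : D ≤ N := by
    have e1 : s * D ≤ 1 := by
      rw [le_div_iff₀ hDpos] at hsD
      exact hsD
    have e2 : (s * D) ^ 2 ≤ 1 := pow_le_one₀ (by positivity) e1
    have e3 : s ^ 2 * D ≤ s ^ 2 * N := by
      rw [hsN]
      have : s ^ 2 * D ≤ s ^ 2 * (D * D) :=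
        mul_le_mul_of_nonneg_left (by nlinarith) (by positivity)
      nlinarith
    exact le_of_mul_le_mul_left e3 (by positivity)
  have hNP : d.P.natDegree < N := by
    have : (d.P.natDegree : ℝ) < N := by
      have e2 : (0 : ℝ) ≤ d.Q.natDegree := Nat.cast_nonneg _
      linarith
    exact_mod_cast this
  have hNQ : d.Q.natDegree < N := by
    have : (d.Q.natDegree : ℝ) < N := by
      have e2 : (0 : ℝ) ≤ d.P.natDegree := Nat.cast_nonneg _
      linarith
    exact_mod_cast this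
  set P' : ℂ[X] := C (ci s : ℂ) * (d.P - C (s : ℂ) * rev N d.Q) with hP'
  set Q' : ℂ[X] := C (ci s : ℂ) * (d.Q + C (s : ℂ) * rev N d.P) with hQ'
  have tP : ∀ t, tv P' t = (ci s : ℂ) * (tv d.P t - s * (ee N t * conj (tv d.Q t))) := by
    intro t
    have := tv_rev hNQ.le t
    unfold tv ee at *
    rw [hP']
    simp only [eval_mul, eval_sub, eval_C]
    rw [this]
  have tQ : ∀ t, tv Q' t = (ci s : ℂ) * (tv d.Q t + s * (ee N t * conj (tv d.P t))) := by
    intro t
    have := tv_rev hNP.le t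
    unfold tv ee at *
    rw [hQ']
    simp only [eval_mul, eval_add, eval_C]
    rw [this]
  have hcur : ∀ t, mk2 (tv P' t) (tv Q' t) = (ci s : ℂ) • bump s (ee N t) (d.cur t) := by
    intro t
    apply V_ext
    · simp only [mk2_zero, tP, bump, PiLp.smul_apply, PiLp.add_apply, smul_eq_mul,
        jj_zero_coord, cur_zero, cur_one]
      ring
    · simp only [mk2_one, tQ, bump, PiLp.smul_apply, PiLp.add_apply, smul_eq_mul,
        jj_one_coord, cur_zero, cur_one]
      ring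
  have hxx : ∀ t, xx ((ci s : ℂ) • bump s (ee N t) (d.cur t)) (d.cur t) = (ci s : ℂ) := by
    intro t
    rw [xx_smul_left, xx_bump (d.norm_one t), mul_one]
  have hnorm : ∀ t, ‖(ci s : ℂ) • bump s (ee N t) (d.cur t)‖ = 1 := by
    intro t
    have e1 := norm_bump_sq (s := s) (d.norm_one t) (ee_mul_conj N t)
    have e2 : ‖(ci s : ℂ) • bump s (ee N t) (d.cur t)‖ ^ 2 = 1 := by
      rw [norm_smul, mul_pow, e1, Complex.norm_real, Real.norm_eq_abs, sq_abs, ci_sq]
    exact (pow_eq_one_iff_of_nonneg (norm_nonneg _) two_ne_zero).1 e2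
  have hci1 : |1 - ci s| ≤ s ^ 2 := by
    rw [abs_of_nonneg (by linarith [ci_le_one s])]
    have := ci_lower hsabs
    nlinarith [sq_nonneg s]
  let d' : Disc :=
    { P := P'
      Q := Q'
      P0 := by
        rw [hP', mul_coeff_zero, coeff_sub, mul_coeff_zero, d.P0, rev_coeff_zero hNQ]
        simp
      Q0 := by
        rw [hQ', mul_coeff_zero, coeff_add, mul_coeff_zero, d.Q0, rev_coeff_zero hNP]
        simp
      norm_one' := fun t => by rw [hcur]; exact hnorm t
      inj' := by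
        intro u v huv heq
        rw [hcur, hcur] at heq
        have hv : xx ((ci s : ℂ) • bump s (ee N u) (d.cur u)) (d.cur v) = (ci s : ℂ) := by
          rw [heq]; exact hxx v
        have hle : ‖(1 : ℂ) - (ci s : ℂ)‖ ≤ δ := by
          rw [← Complex.ofReal_one, ← Complex.ofReal_sub, Complex.norm_real, Real.norm_eq_abs]
          linarith
        have := hmono _ (hnorm u).le u v huv (by rw [hxx]; exact hle) (by rw [hv]; exact hle)
        rw [hxx, hv, sub_self, abs_zero] at this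
        have h5 : |u - v| ≤ 0 := by
          have hA4 : 0 < A / 2 / 2 := by positivity
          nlinarith
        exact sub_eq_zero.1 (abs_nonpos_iff.1 h5) }
  have hd'cur : ∀ t, d'.cur t = (ci s : ℂ) • bump s (ee N t) (d.cur t) := hcur
  refine ⟨d', hd'cur, fun t => ?_⟩
  -- the derivative of the new disc
  have eP : tv (eu P') t = (ci s : ℂ) * (tv (eu d.P) t - s * (ee N t *
      (N * conj (tv d.Q t) - conj (tv (eu d.Q) t)))) := by
    have hf : HasDerivAt (tv P') (I * tv (eu P') t) t := tv_hasDerivAt P' t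
    have hg : HasDerivAt (fun t => (ci s : ℂ) * (tv d.P t - s * (ee N t * conj (tv d.Q t))))
        ((ci s : ℂ) * (I * tv (eu d.P) t - s * (N * I * ee N t * conj (tv d.Q t) +
          ee N t * conj (I * tv (eu d.Q) t)))) t :=
      (((tv_hasDerivAt d.P t).sub (((ee_hasDerivAt N t).mul
        (tv_hasDerivAt d.Q t).star).const_mul (s : ℂ))).const_mul (ci s : ℂ))
    have hfg : tv P' = fun t => (ci s : ℂ) * (tv d.P t - s * (ee N t * conj (tv d.Q t))) :=
      funext tP
    rw [hfg] at hf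
    have := hf.unique hg
    apply mul_left_cancel₀ Complex.I_ne_zero
    rw [this, map_mul, Complex.conj_I]
    ring
  have eQ : tv (eu Q') t = (ci s : ℂ) * (tv (eu d.Q) t + s * (ee N t *
      (N * conj (tv d.P t) - conj (tv (eu d.P) t)))) := by
    have hf : HasDerivAt (tv Q') (I * tv (eu Q') t) t := tv_hasDerivAt Q' t
    have hg : HasDerivAt (fun t => (ci s : ℂ) * (tv d.Q t + s * (ee N t * conj (tv d.P t))))
        ((ci s : ℂ) * (I * tv (eu d.Q) t + s * (N * I * ee N t * conj (tv d.P t) +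
          ee N t * conj (I * tv (eu d.P) t)))) t :=
      (((tv_hasDerivAt d.Q t).add (((ee_hasDerivAt N t).mul
        (tv_hasDerivAt d.P t).star).const_mul (s : ℂ))).const_mul (ci s : ℂ))
    have hfg : tv Q' = fun t => (ci s : ℂ) * (tv d.Q t + s * (ee N t * conj (tv d.P t))) :=
      funext tQ
    rw [hfg] at hf
    have := hf.unique hg
    apply mul_left_cancel₀ Complex.I_ne_zero
    rw [this, map_mul, Complex.conj_I]
    ring
  have hdel : d'.del t = (ci s : ℂ) • (d.del t + ((s : ℂ) * ee N t) •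
      ((N : ℂ) • jj (d.cur t) - jj (d.del t))) := by
    apply V_ext
    · show tv (eu P') t = _
      rw [eP]
      simp only [PiLp.smul_apply, PiLp.add_apply, PiLp.sub_apply, smul_eq_mul, jj_zero_coord,
        cur_one, del_zero, del_one]
      ring
    · show tv (eu Q') t = _
      rw [eQ]
      simp only [PiLp.smul_apply, PiLp.add_apply, PiLp.sub_apply, smul_eq_mul, jj_one_coord,
        cur_zero, del_zero, del_one]
      ring
  set w : ℂ := conj (ee N t) * uu (d.del t) (d.cur t) with hw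
  have hX : xx (d'.del t) (d'.cur t) = ((ci s : ℂ)) ^ 2 * ((d.nu t : ℂ) + s * (w + conj w) +
      (s : ℂ) ^ 2 * (N - d.nu t)) := by
    have hanti : uu (d.cur t) (d.del t) = -uu (d.del t) (d.cur t) := by
      simp only [uu]; ring
    have hee : ee N t * conj (ee N t) = 1 := ee_mul_conj N t
    rw [hdel, hd'cur, xx_smul_left, xx_smul_right, Complex.conj_ofReal]
    have e1 : xx (d.del t + ((s : ℂ) * ee N t) • ((N : ℂ) • jj (d.cur t) - jj (d.del t)))
        (bump s (ee N t) (d.cur t)) =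
        xx (d.del t) (d.cur t) + s * conj (ee N t) * xx (d.del t) (jj (d.cur t)) +
        s * ee N t * (N * xx (jj (d.cur t)) (d.cur t) - xx (jj (d.del t)) (d.cur t)) +
        (s : ℂ) ^ 2 * (ee N t * conj (ee N t)) * (N * xx (jj (d.cur t)) (jj (d.cur t)) -
          xx (jj (d.del t)) (jj (d.cur t))) := by
      unfold bump
      rw [xx_add_right, xx_smul_right, xx_add_left, xx_add_left, xx_smul_left, xx_smul_left,
        xx_sub_left, xx_sub_left, xx_smul_left, xx_smul_left, map_mul, Complex.conj_ofReal]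
      ring
    rw [e1, hee, xx_jj_self, xx_jj_jj, xx_jj_jj, xx_jj_right, xx_jj_left, hanti, d.nu_eq,
      xx_self, d.norm_one, hw]
    simp only [map_neg, map_mul, Complex.conj_conj, Complex.conj_ofReal]
    push_cast
    simp
    ring
  have hnu : d'.nu t = ci s ^ 2 * (d.nu t + 2 * s * w.re + (A - s ^ 2 * d.nu t)) := by
    have h4 : ((d'.nu t : ℝ) : ℂ) =
        ((ci s ^ 2 * (d.nu t + 2 * s * w.re + (A - s ^ 2 * d.nu t)) : ℝ) : ℂ) := by
      rw [← d'.nu_eq, hX, ← hsN, Complex.add_conj]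
      push_cast
      ring
    exact_mod_cast h4
  have hwb : |w.re| ≤ L := by
    refine (Complex.abs_re_le_norm _).trans ?_
    rw [hw, norm_mul, RCLike.norm_conj, norm_ee, one_mul]
    refine (norm_uu_le _ _).trans ?_
    rw [d.norm_one, mul_one]
    exact h1 t
  have hnub : |d.nu t| ≤ L := by
    refine (Complex.abs_re_le_norm _).trans ?_
    refine (norm_xx_le _ _).trans ?_
    rw [d.norm_one, mul_one]
    exact h1 t
  have hci2 : ci s ^ 2 ≤ 1 := pow_le_one₀ (ci_pos s).le (ci_le_one s)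
  have e2 : d'.nu t - 2 * A = ci s ^ 2 * ((d.nu t - A) + 2 * s * w.re - s ^ 2 * d.nu t -
      2 * A * s ^ 2) := by
    rw [hnu]
    linear_combination (2 * A) * ci_sq s
  have e3 : |(d.nu t - A) + 2 * s * w.re - s ^ 2 * d.nu t - 2 * A * s ^ 2| ≤
      κ + (3 * L + 2 * A) * s := by
    have f1 : |2 * s * w.re| ≤ 2 * s * L := by
      rw [abs_mul, abs_of_pos (by positivity : 0 < 2 * s)]
      exact mul_le_mul_of_nonneg_left hwb (by positivity)
    have f2 : |s ^ 2 * d.nu t| ≤ s * L := by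
      rw [abs_mul, abs_of_pos (by positivity : 0 < s ^ 2)]
      exact mul_le_mul hs2 hnub (abs_nonneg _) hs.le
    have f3 : |2 * A * s ^ 2| ≤ 2 * A * s := by
      rw [abs_of_nonneg (by positivity)]
      exact mul_le_mul_of_nonneg_left hs2 (by positivity)
    have f0 := hν t
    rw [abs_le] at *
    constructor <;> linarith [f0.1, f0.2, f1.1, f1.2, f2.1, f2.2, f3.1, f3.2]
  rw [e2, abs_mul, abs_of_nonneg (sq_nonneg _)]
  have e4 : (3 * L + 2 * A) * s ≤ ε := by
    rw [le_div_iff₀ (by positivity)] at hsε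
    linarith
  calc ci s ^ 2 * |(d.nu t - A) + 2 * s * w.re - s ^ 2 * d.nu t - 2 * A * s ^ 2| ≤
      1 * (κ + (3 * L + 2 * A) * s) := mul_le_mul hci2 e3 (abs_nonneg _) zero_le_one
    _ ≤ κ + ε := by linarith

end Disc

end Pool.Agent.RudinExc
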