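import Pool.Agent.Lib.MP_9f272e_an.Step

/-!
# The sequence of discs
-/

namespace Pool.Agent.RudinExc

open Complex ComplexConjugate Set MeasureTheory Filter Topology

/-- The disc `(w, 0)`. -/
noncomputable def disc0 : Disc where
  P := Polynomial.X
  Q := 0
  P0 := by simp
  Q0 := by simp
  norm_one' := by
    intro t
    have h : ‖mk2 (tv Polynomial.X t) (tv 0 t)‖ ^ 2 = 1 := by
      rw [norm_sq_eq]
      simp [tv, norm_exp_I]
    exact (pow_eq_one_iff_of_nonneg (norm_nonneg _) two_ne_zero).1 h
  inj' := by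
    intro s t hst h
    have h1 : tv Polynomial.X s = tv Polynomial.X t := congrArg (fun z : V => z 0) h
    simp only [tv, Polynomial.eval_X] at h1
    have h2 : cexp ((s - t : ℝ) * I) = 1 := by
      push_cast
      rw [sub_mul, Complex.exp_sub, h1, div_self (Complex.exp_ne_zero _)]
    rw [Complex.exp_eq_one_iff] at h2
    obtain ⟨n, hn⟩ := h2
    have h3 : ((s - t : ℝ) : ℂ) = ((n * (2 * Real.pi) : ℝ) : ℂ) := by
      apply mul_right_cancel₀ Complex.I_ne_zero
      rw [hn]; push_cast; ring
    have h4 : s - t = n * (2 * Real.pi) := by exact_mod_cast h3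
    have hπ := Real.pi_pos
    have hn0 : n = 0 := by
      by_contra hne
      have h5 : (1 : ℝ) ≤ |(n : ℝ)| := by
        have := Int.one_le_abs hne
        exact_mod_cast this
      rw [h4, abs_mul, abs_of_pos (by positivity : 0 < 2 * Real.pi)] at hst
      nlinarith
    rw [hn0] at h4
    simp at h4
    linarith

theorem disc0_nu (t : ℝ) : disc0.nu t = 1 := by
  have h1 : disc0.del t = disc0.cur t := by
    apply V_ext
    · show tv (eu Polynomial.X) t = tv Polynomial.X t
      simp [eu]
    · show tv (eu 0) t = tv 0 t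
      simp [eu]
  rw [Disc.nu, h1, xx_self, disc0.norm_one]
  simp

/-- The bound for the total error. -/
noncomputable def kap : ℝ := min (1 / 2) (osz / 2920)

theorem kap_pos : 0 < kap := by
  have := osz_pos
  unfold kap
  positivity

/-- A stage of the construction. -/
structure Stage where
  /-- index -/
  k : ℕ
  /-- disc -/
  d : Disc
  /-- error -/
  κ : ℝ
  /-- allowed future movement -/
  η : ℝ
  κ0 : 0 ≤ κ
  η0 : 0 < η
  tot : κ + η ≤ kap
  hν : ∀ t, |d.nu t - 2 ^ k| ≤ κ

/-- What connects two successive stages. -/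
structure Link (S S' : Stage) where
  /-- the function -/
  F : V → ℂ
  /-- first radius -/
  r₁ : ℝ
  /-- second radius -/
  r₂ : ℝ
  /-- movement -/
  ε : ℝ
  k_succ : S'.k = S.k + 1
  ε_pos : 0 < ε
  ε_le : ε ≤ S.η / 2
  η_le : S'.η ≤ S.η / 2
  cur_near : ∀ t, ‖S'.d.cur t - S.d.cur t‖ ≤ ε
  diff : ∀ z : V, ‖z‖ ≤ 1 → DifferentiableAt ℂ F z
  bdd : ∀ z : V, ‖z‖ ≤ 1 → ‖F z‖ ≤ 131
  inside : ∀ z : V, ‖z‖ ≤ 1 - ε → ‖F z‖ ≤ ε
  away : ∀ z : V, ‖z‖ ≤ 1 → (∀ t, ε ≤ ‖z - S.d.cur t‖) → ‖F z‖ ≤ ε
  onCurve : ∀ t, ‖F (S'.d.cur t)‖ ≤ 200 / 2 ^ S.k + ε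
  r₁_gt : 1 - ε < r₁
  r₁_lt : r₁ ≤ 1 - S'.η
  r₂_gt : 1 - ε < r₂
  r₂_lt : r₂ ≤ 1 - S'.η
  jump : ∀ t, osz / 2 ≤ ‖F ((r₁ : ℂ) • S'.d.cur t) - F ((r₂ : ℂ) • S'.d.cur t)‖
  modulus : ∀ z w : V, ‖z‖ ≤ 1 → ‖w‖ ≤ 1 → ‖z - w‖ ≤ S'.η → ‖F z - F w‖ ≤ osz / 16 / 2 ^ S.k

theorem exists_link (S : Stage) : ∃ S' : Stage, Nonempty (Link S S') := by
  have hosz := osz_pos
  have hk1 : kap ≤ 1 / 2 := min_le_left _ _
  have hk2 : kap ≤ osz / 2920 := min_le_right _ _
  have hη0 := S.η0
  have hκ0 := S.κ0
  have htot := S.tot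
  have hA : (1 : ℝ) ≤ 2 ^ S.k := one_le_pow₀ (by norm_num)
  obtain ⟨d', F, r₁, r₂, h1, h2, h3, h4, h5, h6, h7, h8, h9, h10⟩ :=
    S.d.step (A := 2 ^ S.k) (κ := S.κ) (ε := S.η / 2) hA S.κ0 (by linarith) (by linarith) S.hν
      (by linarith) (by linarith)
  -- the modulus of continuity
  have hcont : ContinuousOn F (Metric.closedBall (0 : V) 1) := by
    intro z hz
    rw [mem_closedBall_zero_iff] at hz
    exact (h3 z hz).continuousAt.continuousWithinAt
  have huc := (isCompact_closedBall (0 : V) 1).uniformContinuousOn_of_continuous hcont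
  rw [Metric.uniformContinuousOn_iff] at huc
  obtain ⟨e, he, hmod⟩ := huc (osz / 16 / 2 ^ S.k) (by positivity)
  have hr1 : 0 < 1 - r₁ := by linarith [h8.2]
  have hr2 : 0 < 1 - r₂ := by linarith [h9.2]
  set η' : ℝ := min (min (S.η / 2) (e / 2)) (min (1 - r₁) (1 - r₂)) with hη'
  have hη'pos : 0 < η' := by positivity
  have g1 : η' ≤ S.η / 2 := (min_le_left _ _).trans (min_le_left _ _)
  have g2 : η' ≤ e / 2 := (min_le_left _ _).trans (min_le_right _ _)
  have g3 : η' ≤ 1 - r₁ := (min_le_right _ _).trans (min_le_left _ _)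
  have g4 : η' ≤ 1 - r₂ := (min_le_right _ _).trans (min_le_right _ _)
  refine ⟨⟨S.k + 1, d', S.κ + S.η / 2, η', by linarith, hη'pos, by linarith, ?_⟩, ⟨?_⟩⟩
  · intro t
    rw [pow_succ, mul_comm]
    exact h1 t
  · exact
      { F := F
        r₁ := r₁
        r₂ := r₂
        ε := S.η / 2
        k_succ := rfl
        ε_pos := by linarith
        ε_le := le_rfl
        η_le := g1
        cur_near := h2
        diff := h3
        bdd := h4
        inside := h5
        away := h6
        onCurve := by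
          intro t
          refine (h7 t).trans (add_le_add ?_ le_rfl)
          rw [← mul_div_assoc]
          apply div_le_div_of_nonneg_right _ (by positivity)
          linarith
        r₁_gt := h8.1
        r₁_lt := by linarith
        r₂_gt := h9.1
        r₂_lt := by linarith
        jump := h10
        modulus := by
          intro z w hz hw hzw
          have := hmod z (mem_closedBall_zero_iff.2 hz) w (mem_closedBall_zero_iff.2 hw)
            (by rw [dist_eq_norm]; linarith [show ‖z - w‖ ≤ η' from hzw])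
          rw [dist_eq_norm] at this
          exact this.le }

/-- The first stage. -/
noncomputable def stage0 : Stage where
  k := 0
  d := disc0
  κ := 0
  η := kap
  κ0 := le_rfl
  η0 := kap_pos
  tot := by rw [zero_add]
  hν := by
    intro t
    rw [disc0_nu]
    simp

/-- The next stage. -/
noncomputable def next (S : Stage) : Stage := Classical.choose (exists_link S)

/-- The link to the next stage. -/
noncomputable def link (S : Stage) : Link S (next S) :=
  Classical.choice (Classical.choose_spec (exists_link S))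

/-- The sequence of stages. -/
noncomputable def st : ℕ → Stage
  | 0 => stage0
  | n + 1 => next (st n)

/-- The sequence of links. -/
noncomputable def lk (n : ℕ) : Link (st n) (st (n + 1)) := link (st n)

theorem st_k (n : ℕ) : (st n).k = n := by
  induction n with
  | zero => rfl
  | succ n ih => rw [(lk n).k_succ, ih]

theorem η_succ (n : ℕ) : (st (n + 1)).η ≤ (st n).η / 2 := (lk n).η_le

theorem η_anti : Antitone fun n => (st n).η := by
  apply antitone_nat_of_succ_le
  intro n
  have h1 := η_succ n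
  have h2 := (st n).η0
  linarith

theorem η_le_pow (n : ℕ) : (st n).η ≤ kap / 2 ^ n := by
  induction n with
  | zero => simp [st, stage0]
  | succ n ih =>
    refine (η_succ n).trans ?_
    rw [pow_succ, ← div_div]
    linarith

theorem ε_le (n : ℕ) : (lk n).ε ≤ (st n).η / 2 := (lk n).ε_le

theorem ε_le_pow (n : ℕ) : (lk n).ε ≤ kap / 2 / 2 ^ n := by
  have h1 := ε_le n
  have h2 := η_le_pow n
  have : kap / 2 / 2 ^ n = kap / 2 ^ n / 2 := by ring
  linarith

theorem ε_le_sub (n : ℕ) : (lk n).ε ≤ (st n).η - (st (n + 1)).η := by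
  have h1 := ε_le n
  have h2 := η_succ n
  linarith

theorem cur_near (t : ℝ) {m n : ℕ} (hmn : m ≤ n) :
    ‖(st n).d.cur t - (st m).d.cur t‖ ≤ (st m).η - (st n).η := by
  induction n, hmn using Nat.le_induction with
  | base => simp
  | succ n hmn ih =>
    have h1 := (lk n).cur_near t
    have h2 := ε_le_sub n
    have e : (st (n + 1)).d.cur t - (st m).d.cur t = ((st (n + 1)).d.cur t - (st n).d.cur t) +
        ((st n).d.cur t - (st m).d.cur t) := by abel
    rw [e]
    refine (norm_add_le _ _).trans ?_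
    linarith

theorem tendsto_η : Tendsto (fun n => (st n).η) atTop (𝓝 0) := by
  have h1 : Tendsto (fun n : ℕ => kap / 2 ^ n) atTop (𝓝 0) := by
    have := (tendsto_pow_atTop_nhds_zero_of_lt_one (r := (1 / 2 : ℝ)) (by norm_num)
      (by norm_num)).const_mul kap
    rw [mul_zero] at this
    refine this.congr fun n => ?_
    rw [one_div, inv_pow, div_eq_mul_inv]
  exact squeeze_zero (fun n => (st n).η0.le) η_le_pow h1

theorem exists_limit (t : ℝ) : ∃ p : V, Tendsto (fun n => (st n).d.cur t) atTop (𝓝 p) := by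
  apply cauchySeq_tendsto_of_complete
  apply cauchySeq_of_le_tendsto_0' (fun n => (st n).η) _ tendsto_η
  intro m n hmn
  rw [dist_comm, dist_eq_norm]
  have := cur_near t hmn
  have h2 := (st n).η0
  linarith

/-- The limit curve. -/
noncomputable def gam (t : ℝ) : V := Classical.choose (exists_limit t)

theorem gam_tendsto (t : ℝ) : Tendsto (fun n => (st n).d.cur t) atTop (𝓝 (gam t)) :=
  Classical.choose_spec (exists_limit t)

theorem gam_near (t : ℝ) (m : ℕ) : ‖gam t - (st m).d.cur t‖ ≤ (st m).η := by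
  have h1 : Tendsto (fun n => ‖(st n).d.cur t - (st m).d.cur t‖) atTop
      (𝓝 ‖gam t - (st m).d.cur t‖) := ((gam_tendsto t).sub_const _).norm
  apply le_of_tendsto h1
  filter_upwards [eventually_ge_atTop m] with n hn
  have := cur_near t hn
  have h2 := (st n).η0
  linarith

theorem gam_norm (t : ℝ) : ‖gam t‖ = 1 := by
  have h1 := (gam_tendsto t).norm
  have h2 : Tendsto (fun n => ‖(st n).d.cur t‖) atTop (𝓝 1) := by
    simp only [Disc.norm_one]
    exact tendsto_const_nhds
  exact tendsto_nhds_unique h1 h2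

theorem gam_continuous : Continuous gam := by
  have h : TendstoUniformly (fun n t => (st n).d.cur t) gam atTop := by
    rw [Metric.tendstoUniformly_iff]
    intro e he
    have := (tendsto_order.1 tendsto_η).2 e he
    filter_upwards [this] with n hn t
    rw [dist_eq_norm]
    exact (gam_near t n).trans_lt hn
  exact h.continuous (Frequently.of_forall fun n => (st n).d.cur_continuous)

end Pool.Agent.RudinExc
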