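import Pool.Agent.Lib.MP_9f272e_an.Asymp3

/-!
# One step of the construction
-/

namespace Pool.Agent.RudinExc

open Complex ComplexConjugate Set MeasureTheory Filter Topology

theorem exists_params {A s0 : ℝ} (hA : 1 ≤ A) (hs0 : 0 < s0) :
    ∃ (N : ℕ) (s : ℝ), 0 < s ∧ s ^ 2 * N = A ∧ s ≤ s0 := by
  obtain ⟨N, hN⟩ := exists_nat_ge (A / s0 ^ 2)
  have hA0 : 0 < A := by linarith
  have hNpos : (0 : ℝ) < N := lt_of_lt_of_le (by positivity) hN
  refine ⟨N, Real.sqrt (A / N), by positivity, ?_, ?_⟩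
  · rw [Real.sq_sqrt (by positivity)]
    field_simp
  · rw [Real.sqrt_le_left hs0.le, div_le_iff₀ hNpos]
    rw [div_le_iff₀ (by positivity)] at hN
    linarith

namespace Disc

variable (d : Disc)

theorem pt_zero (N : ℕ) (s θ : ℝ) : d.pt N s 0 θ = (ci s : ℂ) • bump s (ee N θ) (d.cur θ) := by
  rw [pt, aa]; simp

theorem pt_eq (N : ℕ) (s σ θ : ℝ) :
    d.pt N s σ θ = ((1 - σ * s ^ 2 : ℝ) : ℂ) • ((ci s : ℂ) • bump s (ee N θ) (d.cur θ)) := by
  rw [pt, aa, smul_smul, Complex.ofReal_mul]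

theorem step {A κ ε : ℝ} (hA : 1 ≤ A) (hκ0 : 0 ≤ κ) (hκ1 : κ ≤ 1 / 2) (hκ2 : κ ≤ osz / 2920)
    (hν : ∀ t, |d.nu t - A| ≤ κ) (hε : 0 < ε) (hε1 : ε ≤ 1) :
    ∃ (d' : Disc) (F : V → ℂ) (r₁ r₂ : ℝ),
      (∀ t, |d'.nu t - 2 * A| ≤ κ + ε) ∧ (∀ t, ‖d'.cur t - d.cur t‖ ≤ ε) ∧
      (∀ z : V, ‖z‖ ≤ 1 → DifferentiableAt ℂ F z) ∧
      (∀ z : V, ‖z‖ ≤ 1 → ‖F z‖ ≤ 131) ∧
      (∀ z : V, ‖z‖ ≤ 1 - ε → ‖F z‖ ≤ ε) ∧
      (∀ z : V, ‖z‖ ≤ 1 → (∀ t, ε ≤ ‖z - d.cur t‖) → ‖F z‖ ≤ ε) ∧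
      (∀ t, ‖F (d'.cur t)‖ ≤ 365 * (κ / A) + ε) ∧
      (1 - ε < r₁ ∧ r₁ < 1) ∧ (1 - ε < r₂ ∧ r₂ < 1) ∧
      (∀ t, osz / 2 ≤ ‖F ((r₁ : ℂ) • d'.cur t) - F ((r₂ : ℂ) • d'.cur t)‖) := by
  have hosz := osz_pos
  have hA0 : 0 < A := by linarith
  have hκA : κ ≤ A / 2 := by linarith
  have hνlow : ∀ t, A / 2 ≤ d.nu t := by
    intro t
    have := (abs_le.1 (hν t)).1
    linarith
  obtain ⟨s1, hs1, hnew⟩ := d.newDisc hA hκA hν hε
  obtain ⟨s2, hs2, hsup⟩ := d.sup_bound hA hνlow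
  obtain ⟨C0, s3, hC0, hs3, has0⟩ := d.asymp hA hνlow (σ := 0) le_rfl
  obtain ⟨C1, s4, hC1, hs4, has1⟩ := d.asymp hA hνlow (σ := 1) zero_le_one
  obtain ⟨C3, s5, hC3, hs5, has3⟩ := d.asymp hA hνlow (σ := 3) (by norm_num)
  set η : ℝ := ε ^ 2 / 2 with hη
  have hηpos : 0 < η := by positivity
  set s0 : ℝ := min (min s1 s2) (min (min s3 s4) (min (min s5 (ε / 6)) (min (ε * η ^ 3 / (3 * A))
    (min (ε / (C0 + 1)) (osz / (4 * (C1 + C3 + 1))))))) with hs0def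
  have hs0 : 0 < s0 := by positivity
  obtain ⟨N, s, hs, hsN, hss⟩ := exists_params hA hs0
  have k1 : s ≤ s1 := hss.trans ((min_le_left _ _).trans (min_le_left _ _))
  have k2 : s ≤ s2 := hss.trans ((min_le_left _ _).trans (min_le_right _ _))
  have k' := hss.trans (min_le_right _ _)
  have k3 : s ≤ s3 := k'.trans ((min_le_left _ _).trans (min_le_left _ _))
  have k4 : s ≤ s4 := k'.trans ((min_le_left _ _).trans (min_le_right _ _))
  have k'' := k'.trans (min_le_right _ _)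
  have k5 : s ≤ s5 := k''.trans ((min_le_left _ _).trans (min_le_left _ _))
  have k6 : s ≤ ε / 6 := k''.trans ((min_le_left _ _).trans (min_le_right _ _))
  have k''' := k''.trans (min_le_right _ _)
  have k7 : s ≤ ε * η ^ 3 / (3 * A) := k'''.trans (min_le_left _ _)
  have k8 : s ≤ ε / (C0 + 1) := k'''.trans ((min_le_right _ _).trans (min_le_left _ _))
  have k9 : s ≤ osz / (4 * (C1 + C3 + 1)) := k'''.trans ((min_le_right _ _).trans (min_le_right _ _))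
  clear k' k'' k'''
  have hs1' : s ≤ 1 := by linarith
  have hs2s : s ^ 2 ≤ s := by nlinarith
  have hs2pos : 0 < s ^ 2 := by positivity
  obtain ⟨d', hcur, hnu⟩ := hnew N s hs hsN k1
  -- smallness of the function where the denominator is large
  have hsmall : ∀ z : V, ‖z‖ ≤ 1 → (∀ θ, η ≤ ‖1 + (s : ℂ) ^ 2 - xx z (d.cur θ)‖) →
      ‖d.FF N s z‖ ≤ ε := by
    intro z hz h
    refine (d.FF_small hs hs1' hsN hηpos hz h).trans ?_
    rw [div_le_iff₀ (by positivity)]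
    rw [le_div_iff₀ (by positivity)] at k7
    have : s ^ 3 ≤ s := by
      have : s ^ 3 = s * s ^ 2 := by ring
      rw [this]
      nlinarith
    nlinarith
  have hvd : ∀ t, |d.nu t / A - 1| ≤ κ / A := by
    intro t
    have : d.nu t / A - 1 = (d.nu t - A) / A := by field_simp
    rw [this, abs_div, abs_of_pos hA0]
    exact div_le_div_of_nonneg_right (hν t) hA0.le
  have hκdiv : κ / A ≤ κ := div_le_self hκ0 hA
  have hpsi : ∀ t p, 1 ≤ p → ‖psi (d.nu t / A) p - psi 1 p‖ ≤ 365 * (κ / A) := by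
    intro t p hp
    refine (psi_sub_le hp ((hvd t).trans (by linarith))).trans ?_
    exact mul_le_mul_of_nonneg_left (hvd t) (by norm_num)
  have hrot : ∀ (w : ℂ) (t : ℝ), ‖w * conj (ee N t) ^ 2‖ = ‖w‖ := by
    intro w t
    rw [norm_mul, norm_pow, RCLike.norm_conj, norm_ee, one_pow, mul_one]
  refine ⟨d', d.FF N s, 1 - 1 * s ^ 2, 1 - 3 * s ^ 2, hnu, ?_, ?_, hsup N s hs hsN k2, ?_, ?_, ?_,
    ⟨by linarith, by linarith⟩, ⟨by linarith, by linarith⟩, ?_⟩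
  · intro t
    have e : d'.cur t - d.cur t = ((ci s - 1 : ℝ) : ℂ) • d.cur t +
        ((ci s : ℂ) * (s * ee N t)) • jj (d.cur t) := by
      rw [hcur, bump, smul_add, smul_smul]
      push_cast
      rw [sub_smul, one_smul]
      abel
    rw [e]
    refine (norm_add_le _ _).trans ?_
    rw [norm_smul, norm_smul, norm_jj, d.norm_one, mul_one, mul_one, norm_mul, norm_mul, norm_ee,
      mul_one, Complex.norm_real, Complex.norm_real, Complex.norm_real, Real.norm_eq_abs,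
      Real.norm_eq_abs, Real.norm_eq_abs, abs_of_pos hs, abs_of_pos (ci_pos s),
      abs_of_nonpos (by linarith [ci_le_one s])]
    have h1 := ci_lower (s := s) (by rwa [abs_of_pos hs])
    have h2 := ci_le_one s
    have h3 := ci_pos s
    nlinarith
  · intro z hz
    exact d.FF_differentiableAt N hs (by linarith)
  · intro z hz
    apply hsmall z (by linarith)
    intro θ
    have h1 := d.norm_xx_cur_le z θ
    have h2 : 1 + s ^ 2 ≤ ‖1 + (s : ℂ) ^ 2‖ := by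
      have : (1 + (s : ℂ) ^ 2) = ((1 + s ^ 2 : ℝ) : ℂ) := by push_cast; ring
      rw [this, Complex.norm_real, Real.norm_eq_abs]
      exact le_abs_self _
    have h3 := norm_sub_norm_le (1 + (s : ℂ) ^ 2) (xx z (d.cur θ))
    have h4 : η ≤ ε := by rw [hη]; nlinarith
    linarith
  · intro z hz h
    apply hsmall z hz
    intro θ
    have h1 := two_re_one_sub_xx (z := z) (d.norm_one θ)
    have h2 : ε ^ 2 ≤ ‖z - d.cur θ‖ ^ 2 := pow_le_pow_left₀ hε.le (h θ) 2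
    have h3 : ‖z‖ ^ 2 ≤ 1 := pow_le_one₀ (norm_nonneg _) hz
    have h4 := (Complex.re_le_norm (1 - xx z (d.cur θ))).trans (d.norm_D_ge (s := s) hz θ)
    rw [hη]
    linarith
  · intro t
    have h1 := has0 N s hs hsN k3 t
    rw [d.pt_zero, ← hcur, add_zero] at h1
    have h2 := hpsi t (3 / 2) (by norm_num)
    rw [psi_zero, sub_zero] at h2
    have h3 : C0 * s ≤ ε := by
      rw [le_div_iff₀ (by positivity)] at k8
      nlinarith
    rw [← hrot _ t]
    calc ‖d.FF N s (d'.cur t) * conj (ee N t) ^ 2‖ =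
        ‖(d.FF N s (d'.cur t) * conj (ee N t) ^ 2 - psi (d.nu t / A) (3 / 2)) +
          psi (d.nu t / A) (3 / 2)‖ := by rw [sub_add_cancel]
      _ ≤ _ := norm_add_le _ _
      _ ≤ 365 * (κ / A) + ε := by linarith
  · intro t
    have h1 := has1 N s hs hsN k4 t
    have h3 := has3 N s hs hsN k5 t
    rw [d.pt_eq, ← hcur] at h1 h3
    have p1 := hpsi t (3 / 2 + 1) (by norm_num)
    have p3 := hpsi t (3 / 2 + 3) (by norm_num)
    have e1 : (3 / 2 + 1 : ℝ) = 5 / 2 := by norm_num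
    have e3 : (3 / 2 + 3 : ℝ) = 9 / 2 := by norm_num
    rw [e1] at h1 p1
    rw [e3] at h3 p3
    set X := d.FF N s (((1 - 1 * s ^ 2 : ℝ) : ℂ) • d'.cur t)
    set Y := d.FF N s (((1 - 3 * s ^ 2 : ℝ) : ℂ) • d'.cur t)
    set u := conj (ee N t) ^ 2
    have h5 : (C1 + C3) * s ≤ osz / 4 := by
      rw [le_div_iff₀ (by positivity)] at k9
      nlinarith
    have h6 : 730 * (κ / A) ≤ osz / 4 := by linarith
    have h7 : ‖X - Y‖ = ‖X * u - Y * u‖ := by
      rw [← sub_mul]; exact (hrot _ t).symm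
    rw [h7]
    have h8 : psi 1 (5 / 2) - psi 1 (9 / 2) = (X * u - Y * u) - (X * u - psi (d.nu t / A) (5 / 2)) -
        (psi (d.nu t / A) (5 / 2) - psi 1 (5 / 2)) + (Y * u - psi (d.nu t / A) (9 / 2)) +
        (psi (d.nu t / A) (9 / 2) - psi 1 (9 / 2)) := by ring
    have h9 : osz ≤ ‖X * u - Y * u‖ + C1 * s + 365 * (κ / A) + C3 * s + 365 * (κ / A) := by
      have g : osz = ‖psi 1 (5 / 2) - psi 1 (9 / 2)‖ := rfl
      rw [g, h8]
      refine (norm_add_le _ _).trans (add_le_add ?_ p3)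
      refine (norm_add_le _ _).trans (add_le_add ?_ h3)
      refine (norm_sub_le _ _).trans (add_le_add ?_ p1)
      exact (norm_sub_le _ _).trans (add_le_add le_rfl h1)
    linarith

end Disc

end Pool.Agent.RudinExc
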