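import Pool.Agent.Lib.MP_9f272e_an.Seq

/-!
# The bounded holomorphic function
-/

namespace Pool.Agent.RudinExc

open Complex ComplexConjugate Set MeasureTheory Filter Topology Metric

/-- The terms of the series. -/
noncomputable def Fn (n : ℕ) : V → ℂ := (lk n).F

/-- The function. -/
noncomputable def ff (z : V) : ℂ := ∑' n, Fn n z

/-- Bounds for the terms below the last large one. -/
noncomputable def an (n : ℕ) : ℝ := 200 / 2 ^ n + (lk n).ε + osz / 16 / 2 ^ n

theorem summable_pow_inv (c : ℝ) : Summable fun n : ℕ => c / 2 ^ n := by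
  have := (summable_geometric_two).mul_left c
  refine this.congr fun n => ?_
  rw [one_div, inv_pow, div_eq_mul_inv]

theorem ε_pos (n : ℕ) : 0 < (lk n).ε := (lk n).ε_pos

theorem summable_ε : Summable fun n => (lk n).ε :=
  Summable.of_nonneg_of_le (fun n => (ε_pos n).le) ε_le_pow (summable_pow_inv _)

theorem summable_an : Summable an :=
  ((summable_pow_inv 200).add summable_ε).add (summable_pow_inv (osz / 16))

theorem an_nonneg (n : ℕ) : 0 ≤ an n := by
  have h1 := ε_pos n
  have h2 := osz_pos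
  unfold an
  positivity

theorem ε_le_an (n : ℕ) : (lk n).ε ≤ an n := by
  have h2 := osz_pos
  have h3 : 0 ≤ 200 / (2 : ℝ) ^ n := by positivity
  have h4 : 0 ≤ osz / 16 / (2 : ℝ) ^ n := by positivity
  unfold an
  linarith

theorem sum_bound {z : V} (hz : ‖z‖ ≤ 1) (n : ℕ) :
    ∑ k ∈ Finset.range n, ‖Fn k z‖ ≤ 131 + ∑ k ∈ Finset.range n, an k := by
  induction n with
  | zero => simp
  | succ n ih =>
    rw [Finset.sum_range_succ, Finset.sum_range_succ]
    by_cases hsmall : ‖Fn n z‖ ≤ (lk n).ε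
    · have := ε_le_an n
      linarith
    · -- the point is near the curve
      have hex : ∃ t, ‖z - (st n).d.cur t‖ < (lk n).ε := by
        by_contra hcon
        push Not at hcon
        exact hsmall ((lk n).away z hz hcon)
      obtain ⟨t, ht⟩ := hex
      have hj : ∀ j ∈ Finset.range n, ‖Fn j z‖ ≤ an j := by
        intro j hj
        rw [Finset.mem_range] at hj
        have h1 := cur_near t (show j + 1 ≤ n from hj)
        have h2 : ‖z - (st (j + 1)).d.cur t‖ ≤ (st (j + 1)).η := by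
          have e : z - (st (j + 1)).d.cur t = (z - (st n).d.cur t) +
              ((st n).d.cur t - (st (j + 1)).d.cur t) := by abel
          rw [e]
          refine (norm_add_le _ _).trans ?_
          have h3 := ε_le n
          have h4 := (st n).η0
          linarith
        have h3 := (lk j).modulus z ((st (j + 1)).d.cur t) hz ((st (j + 1)).d.norm_one t).le h2
        have h4 := (lk j).onCurve t
        rw [st_k] at h3 h4
        have h5 : ‖Fn j z‖ ≤ ‖Fn j z - Fn j ((st (j + 1)).d.cur t)‖ +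
            ‖Fn j ((st (j + 1)).d.cur t)‖ := by
          have := norm_add_le (Fn j z - Fn j ((st (j + 1)).d.cur t)) (Fn j ((st (j + 1)).d.cur t))
          rwa [sub_add_cancel] at this
        unfold an
        unfold Fn at *
        linarith
      have h6 := Finset.sum_le_sum hj
      have h7 : ‖Fn n z‖ ≤ 131 := (lk n).bdd z hz
      have h8 := an_nonneg n
      linarith

theorem sum_bound' {z : V} (hz : ‖z‖ ≤ 1) (n : ℕ) :
    ∑ k ∈ Finset.range n, ‖Fn k z‖ ≤ 131 + ∑' k, an k := by
  refine (sum_bound hz n).trans ?_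
  have := summable_an.sum_le_tsum (Finset.range n) fun k _ => an_nonneg k
  linarith

theorem summable_norm {z : V} (hz : ‖z‖ ≤ 1) : Summable fun n => ‖Fn n z‖ :=
  summable_of_sum_range_le (fun n => norm_nonneg _) (sum_bound' hz)

theorem summable_Fn {z : V} (hz : ‖z‖ ≤ 1) : Summable fun n => Fn n z :=
  (summable_norm hz).of_norm

theorem ff_bounded {z : V} (hz : ‖z‖ ≤ 1) : ‖ff z‖ ≤ 131 + ∑' k, an k := by
  unfold ff
  refine (norm_tsum_le_tsum_norm (summable_norm hz)).trans ?_
  exact Real.tsum_le_of_sum_range_le (fun n => norm_nonneg _) (sum_bound' hz)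

theorem ff_differentiable {z : V} (hz : ‖z‖ < 1) : DifferentiableAt ℂ ff z := by
  set r : ℝ := (1 + ‖z‖) / 2 with hr
  set r' : ℝ := (1 + r) / 2 with hr'
  have hz0 := norm_nonneg z
  have hr1 : r < 1 := by rw [hr]; linarith
  have hzr : ‖z‖ < r := by rw [hr]; linarith
  have hrr' : r < r' := by rw [hr']; linarith
  have hr'1 : r' < 1 := by rw [hr']; linarith
  have hr'0 : 0 < 1 - r' := by linarith
  set C : ℝ := 1 + 131 / (1 - r') with hC
  have hCpos : 0 < C := by positivity
  have hbd : ∀ n, ∀ w : V, ‖w‖ < r' → ‖Fn n w‖ ≤ C * (lk n).ε := by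
    intro n w hw
    have hε := ε_pos n
    by_cases h : ‖w‖ ≤ 1 - (lk n).ε
    · refine ((lk n).inside w h).trans ?_
      have : 0 ≤ 131 / (1 - r') * (lk n).ε := by positivity
      rw [hC, add_mul, one_mul]
      linarith
    · rw [not_le] at h
      refine ((lk n).bdd w (by linarith)).trans ?_
      have h2 : 1 - r' ≤ (lk n).ε := by linarith
      have h3 : 131 ≤ 131 / (1 - r') * (lk n).ε := by
        rw [div_mul_eq_mul_div, le_div_iff₀ hr'0]
        linarith
      rw [hC, add_mul, one_mul]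
      linarith
  have hu : Summable fun n => 2 * C * (lk n).ε / (r' - r) :=
    (summable_ε.mul_left (2 * C)).div_const _
  have hd : ∀ n, ∀ x ∈ ball (0 : V) r, HasFDerivAt (Fn n) (fderiv ℂ (Fn n) x) x := by
    intro n x hx
    rw [mem_ball_zero_iff] at hx
    exact ((lk n).diff x (by linarith)).hasFDerivAt
  have hd' : ∀ n, ∀ x ∈ ball (0 : V) r, ‖fderiv ℂ (Fn n) x‖ ≤ 2 * C * (lk n).ε / (r' - r) := by
    intro n x hx
    rw [mem_ball_zero_iff] at hx
    have hsub : ∀ y ∈ ball x (r' - r), ‖y‖ < r' := by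
      intro y hy
      rw [mem_ball, dist_eq_norm] at hy
      have : ‖y‖ ≤ ‖y - x‖ + ‖x‖ := by
        have := norm_add_le (y - x) x
        rwa [sub_add_cancel] at this
      linarith
    apply Complex.norm_fderiv_le_div_of_mapsTo_ball
    · intro y hy
      exact ((lk n).diff y (by linarith [hsub y hy])).differentiableWithinAt
    · intro y hy
      rw [mem_closedBall, dist_eq_norm]
      have h1 := hbd n y (hsub y hy)
      have h2 := hbd n x (by linarith)
      refine (norm_sub_le _ _).trans ?_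
      linarith
    · linarith
  have h0 : (0 : V) ∈ ball (0 : V) r := by
    rw [mem_ball_zero_iff, norm_zero]; linarith
  have key := hasFDerivAt_tsum_of_isPreconnected hu isOpen_ball
    (convex_ball (0 : V) r).isPreconnected hd hd' h0 (summable_Fn (by simp))
    (show z ∈ ball (0 : V) r by rw [mem_ball_zero_iff]; exact hzr)
  exact key.differentiableAt

theorem r₁_pos (k : ℕ) : 0 < (lk k).r₁ ∧ 0 < (lk k).r₂ := by
  have h1 := (lk k).r₁_gt
  have h2 := (lk k).r₂_gt
  have h3 := ε_le_pow k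
  have h4 : kap ≤ 1 / 2 := min_le_left _ _
  have h5 : kap / 2 / 2 ^ k ≤ 1 / 4 := by
    have h6 : (1 : ℝ) ≤ 2 ^ k := one_le_pow₀ (by norm_num)
    have h7 := kap_pos
    calc kap / 2 / 2 ^ k ≤ kap / 2 := div_le_self (by positivity) h6
      _ ≤ 1 / 4 := by linarith
  constructor <;> linarith

theorem sum_ε_le : ∑' n, (lk n).ε ≤ kap := by
  refine Real.tsum_le_of_sum_range_le (fun n => (ε_pos n).le) fun n => ?_
  have h : ∑ i ∈ Finset.range n, (lk i).ε ≤ kap - (st n).η := by
    induction n with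
    | zero => simp [st, stage0]
    | succ n ih =>
      rw [Finset.sum_range_succ]
      have := ε_le_sub n
      linarith
  have := (st n).η0
  linarith

/-- The oscillation along radii. -/
theorem osc_radial (t : ℝ) (k : ℕ) :
    osz / 8 ≤ ‖ff (((lk k).r₁ : ℂ) • gam t) - ff (((lk k).r₂ : ℂ) • gam t)‖ := by
  have hosz := osz_pos
  set r₁ := (lk k).r₁ with hr₁
  set r₂ := (lk k).r₂ with hr₂
  obtain ⟨p1, p2⟩ := r₁_pos k
  have u1 := (lk k).r₁_lt
  have u2 := (lk k).r₂_lt
  have l1 := (lk k).r₁_gt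
  have l2 := (lk k).r₂_gt
  have hη := (st (k + 1)).η0
  set z₁ : V := (r₁ : ℂ) • gam t with hz₁
  set z₂ : V := (r₂ : ℂ) • gam t with hz₂
  have n1 : ‖z₁‖ = r₁ := by
    rw [hz₁, norm_smul, gam_norm, mul_one, Complex.norm_real, Real.norm_eq_abs, abs_of_pos p1]
  have n2 : ‖z₂‖ = r₂ := by
    rw [hz₂, norm_smul, gam_norm, mul_one, Complex.norm_real, Real.norm_eq_abs, abs_of_pos p2]
  have m1 : ‖z₁‖ ≤ 1 := by rw [n1]; linarith
  have m2 : ‖z₂‖ ≤ 1 := by rw [n2]; linarith
  have hdist : ‖z₁ - z₂‖ ≤ (lk k).ε := by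
    rw [hz₁, hz₂, ← sub_smul, norm_smul, gam_norm, mul_one, ← Complex.ofReal_sub,
      Complex.norm_real, Real.norm_eq_abs, abs_le]
    constructor <;> linarith
  have hs : Summable fun n => Fn n z₁ - Fn n z₂ := (summable_Fn m1).sub (summable_Fn m2)
  have e1 : ff z₁ - ff z₂ = ∑' n, (Fn n z₁ - Fn n z₂) :=
    ((summable_Fn m1).tsum_sub (summable_Fn m2)).symm
  -- bounds for the other terms
  have hc : ∀ n, ‖if n = k then 0 else Fn n z₁ - Fn n z₂‖ ≤ osz / 16 / 2 ^ n + 2 * (lk n).ε := by
    intro n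
    have hε := ε_pos n
    split_ifs with hnk
    · rw [norm_zero]; positivity
    · rcases lt_or_gt_of_ne hnk with h | h
      · have h1 : ‖z₁ - z₂‖ ≤ (st (n + 1)).η := by
          have h2 := ε_le k
          have h3 : (st k).η ≤ (st (n + 1)).η := η_anti (show n + 1 ≤ k from h)
          have h4 := (st k).η0
          linarith
        have h5 := (lk n).modulus z₁ z₂ m1 m2 h1
        rw [st_k] at h5
        unfold Fn
        linarith
      · have h1 : (lk n).ε ≤ (st (k + 1)).η := by
          have h2 := ε_le n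
          have h3 : (st n).η ≤ (st (k + 1)).η := η_anti (show k + 1 ≤ n from h)
          have h4 := (st n).η0
          linarith
        have h5 := (lk n).inside z₁ (by rw [n1]; linarith)
        have h6 := (lk n).inside z₂ (by rw [n2]; linarith)
        have h7 : 0 ≤ osz / 16 / (2 : ℝ) ^ n := by positivity
        refine (norm_sub_le _ _).trans ?_
        unfold Fn
        linarith
  have hcs : Summable fun n => osz / 16 / 2 ^ n + 2 * (lk n).ε :=
    (summable_pow_inv _).add (summable_ε.mul_left 2)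
  have e2 : ff z₁ - ff z₂ = (Fn k z₁ - Fn k z₂) +
      ∑' n, (if n = k then 0 else Fn n z₁ - Fn n z₂) := by
    rw [e1]
    exact hs.tsum_eq_add_tsum_ite k
  have e3 : ‖∑' n, (if n = k then 0 else Fn n z₁ - Fn n z₂)‖ ≤
      ∑' n, (osz / 16 / 2 ^ n + 2 * (lk n).ε) :=
    tsum_of_norm_bounded hcs.hasSum hc
  have e4 : ∑' n, (osz / 16 / 2 ^ n + 2 * (lk n).ε) ≤ osz / 8 + 2 * kap := by
    rw [(summable_pow_inv _).tsum_add (summable_ε.mul_left 2), tsum_mul_left]
    have h1 : ∑' n : ℕ, osz / 16 / 2 ^ n = osz / 8 := by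
      have h2 : (fun n : ℕ => osz / 16 / 2 ^ n) = fun n : ℕ => osz / 16 * (1 / 2) ^ n := by
        ext n
        rw [one_div, inv_pow, div_eq_mul_inv]
      rw [h2, tsum_mul_left, tsum_geometric_two]
      ring
    have h3 := sum_ε_le
    linarith
  have hkap : kap ≤ osz / 2920 := min_le_right _ _
  -- the main term
  have hmain : osz / 2 - osz / 8 ≤ ‖Fn k z₁ - Fn k z₂‖ := by
    have hj := (lk k).jump t
    rw [← hr₁, ← hr₂] at hj
    have hnear := gam_near t (k + 1)
    have hk2 : (1 : ℝ) ≤ 2 ^ k := one_le_pow₀ (by norm_num)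
    have hb : osz / 16 / 2 ^ k ≤ osz / 16 := div_le_self (by positivity) hk2
    have g : ∀ r : ℝ, 0 < r → r ≤ 1 → ‖Fn k ((r : ℂ) • gam t) -
        Fn k ((r : ℂ) • (st (k + 1)).d.cur t)‖ ≤ osz / 16 := by
      intro r hr0 hr1
      have hn : ‖(r : ℂ)‖ = r := by
        rw [Complex.norm_real, Real.norm_eq_abs, abs_of_pos hr0]
      have h1 := (lk k).modulus ((r : ℂ) • gam t) ((r : ℂ) • (st (k + 1)).d.cur t)
        (by rw [norm_smul, gam_norm, mul_one, hn]; exact hr1)
        (by rw [norm_smul, Disc.norm_one, mul_one, hn]; exact hr1)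
        (by
          rw [← smul_sub, norm_smul, hn]
          nlinarith [norm_nonneg (gam t - (st (k + 1)).d.cur t)])
      rw [st_k] at h1
      exact h1.trans hb
    have g1 := g r₁ p1 (by linarith)
    have g2 := g r₂ p2 (by linarith)
    have h3 : Fn k ((r₁ : ℂ) • (st (k + 1)).d.cur t) - Fn k ((r₂ : ℂ) • (st (k + 1)).d.cur t) =
        (Fn k z₁ - Fn k z₂) - (Fn k z₁ - Fn k ((r₁ : ℂ) • (st (k + 1)).d.cur t)) +
        (Fn k z₂ - Fn k ((r₂ : ℂ) • (st (k + 1)).d.cur t)) := by ring
    have h4 : osz / 2 ≤ ‖Fn k ((r₁ : ℂ) • (st (k + 1)).d.cur t) -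
        Fn k ((r₂ : ℂ) • (st (k + 1)).d.cur t)‖ := hj
    rw [h3] at h4
    have h5 := norm_add_le ((Fn k z₁ - Fn k z₂) -
      (Fn k z₁ - Fn k ((r₁ : ℂ) • (st (k + 1)).d.cur t)))
      (Fn k z₂ - Fn k ((r₂ : ℂ) • (st (k + 1)).d.cur t))
    have h6 := norm_sub_le (Fn k z₁ - Fn k z₂)
      (Fn k z₁ - Fn k ((r₁ : ℂ) • (st (k + 1)).d.cur t))
    linarith
  rw [e2]
  have h7 := norm_sub_le_norm_add (Fn k z₁ - Fn k z₂)
    (∑' n, (if n = k then 0 else Fn n z₁ - Fn n z₂))
  linarith

/-- There is no radial limit at the points of the limit curve. -/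
theorem no_limit (t : ℝ) : ¬ ∃ L : ℂ, Tendsto (fun r : ℝ => ff ((r : ℂ) • gam t))
    (nhdsWithin 1 (Set.Iio 1)) (nhds L) := by
  rintro ⟨L, hL⟩
  have hosz := osz_pos
  have hε0 : Tendsto (fun n => 1 - (lk n).ε) atTop (𝓝 1) := by
    have := summable_ε.tendsto_atTop_zero.const_sub 1
    rwa [sub_zero] at this
  have h1 : Tendsto (fun n => (lk n).r₁) atTop (nhdsWithin 1 (Set.Iio 1)) := by
    rw [tendsto_nhdsWithin_iff]
    refine ⟨tendsto_of_tendsto_of_tendsto_of_le_of_le hε0 tendsto_const_nhds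
      (fun n => (lk n).r₁_gt.le) fun n => ?_, Filter.Eventually.of_forall fun n => ?_⟩
    · have h1 := (lk n).r₁_lt
      have h2 := (st (n + 1)).η0
      show (lk n).r₁ ≤ 1
      linarith
    · have h1 := (lk n).r₁_lt
      have h2 := (st (n + 1)).η0
      show (lk n).r₁ < 1
      linarith
  have h2 : Tendsto (fun n => (lk n).r₂) atTop (nhdsWithin 1 (Set.Iio 1)) := by
    rw [tendsto_nhdsWithin_iff]
    refine ⟨tendsto_of_tendsto_of_tendsto_of_le_of_le hε0 tendsto_const_nhds
      (fun n => (lk n).r₂_gt.le) fun n => ?_, Filter.Eventually.of_forall fun n => ?_⟩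
    · have h1 := (lk n).r₂_lt
      have h2 := (st (n + 1)).η0
      show (lk n).r₂ ≤ 1
      linarith
    · have h1 := (lk n).r₂_lt
      have h2 := (st (n + 1)).η0
      show (lk n).r₂ < 1
      linarith
  have h3 := ((hL.comp h1).sub (hL.comp h2)).norm
  rw [sub_self, norm_zero] at h3
  have h4 := (tendsto_order.1 h3).2 (osz / 8) (by positivity)
  obtain ⟨n, hn⟩ := h4.exists
  exact absurd hn (not_lt.2 (osc_radial t n))

end Pool.Agent.RudinExc
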