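import Pool.Agent.Lib.MP_9f272e_an.Alg

/-!
# Boundary values of polynomials on the unit circle

`tv P t` is the value of the polynomial `P` at `exp (i t)`, and `eu P` is the polynomial `X P'`,
so that `i tv (eu P)` is the derivative of `tv P`.
-/

namespace Pool.Agent.RudinExc

open Complex ComplexConjugate Polynomial

/-- The value on the unit circle. -/
noncomputable def tv (P : ℂ[X]) (t : ℝ) : ℂ := P.eval (cexp (t * I))

/-- The Euler derivative `X P'`. -/
noncomputable def eu (P : ℂ[X]) : ℂ[X] := X * derivative P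

theorem tv_add (P Q : ℂ[X]) (t : ℝ) : tv (P + Q) t = tv P t + tv Q t := by
  simp [tv]

theorem eu_add (P Q : ℂ[X]) : eu (P + Q) = eu P + eu Q := by
  simp [eu, mul_add]

theorem tv_monomial (n : ℕ) (a : ℂ) (t : ℝ) :
    tv (monomial n a) t = a * cexp (n * t * I) := by
  simp only [tv, eval_monomial]
  rw [← Complex.exp_nat_mul]
  ring_nf

theorem tv_eu_monomial (n : ℕ) (a : ℂ) (t : ℝ) :
    tv (eu (monomial n a)) t = n * (a * cexp (n * t * I)) := by
  rw [← tv_monomial]
  cases n with
  | zero => simp [tv, eu]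
  | succ n =>
    simp only [tv, eu, derivative_monomial, eval_mul, eval_X, eval_monomial, Nat.add_sub_cancel]
    push_cast
    ring

theorem tv_hasDerivAt (P : ℂ[X]) (t : ℝ) : HasDerivAt (tv P) (I * tv (eu P) t) t := by
  have h1 : HasDerivAt (fun t : ℝ => cexp (t * I)) (cexp (t * I) * I) t := by
    have h2 : HasDerivAt (fun t : ℝ => (t : ℂ) * I) (1 * I) t :=
      (Complex.ofRealCLM.hasDerivAt (x := t)).mul_const I
    simpa using h2.cexp
  have h3 := (P.hasDerivAt (cexp (t * I))).comp_of_eq t h1 rfl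
  have h4 : derivative P |>.eval (cexp (t * I)) |> fun x => x * (cexp (t * I) * I) =
      I * tv (eu P) t := by
    simp only [tv, eu, eval_mul, eval_X]; ring
  rw [← h4]
  exact h3

theorem tv_continuous (P : ℂ[X]) : Continuous (tv P) :=
  continuous_iff_continuousAt.2 fun t => (tv_hasDerivAt P t).continuousAt

theorem tv_add_two_pi (P : ℂ[X]) (t : ℝ) : tv P (t + 2 * Real.pi) = tv P t := by
  unfold tv
  congr 1
  push_cast
  rw [add_mul, Complex.exp_add, Complex.exp_two_pi_mul_I, mul_one]

theorem norm_exp_I (x : ℝ) : ‖cexp (x * I)‖ = 1 := Complex.norm_exp_ofReal_mul_I x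

/-- First order bound. -/
theorem norm_exp_sub_one_le (x : ℝ) : ‖cexp (x * I) - 1‖ ≤ |x| := by
  have := Real.norm_exp_I_mul_ofReal_sub_one_le (x := x)
  rwa [mul_comm, Real.norm_eq_abs] at this

/-- Second order bound. -/
theorem norm_exp_sub_one_sub_le (x : ℝ) : ‖cexp (x * I) - 1 - x * I‖ ≤ 2 * x ^ 2 := by
  rcases le_or_gt |x| 1 with h | h
  · have h1 : ‖(x : ℂ) * I‖ ≤ 1 := by simpa using h
    have := Complex.norm_exp_sub_one_sub_id_le h1
    refine this.trans ?_
    simp only [norm_mul, Complex.norm_real, Complex.norm_I, mul_one, Real.norm_eq_abs, sq_abs]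
    nlinarith [sq_nonneg x]
  · have h1 := norm_exp_sub_one_le x
    have h2 : ‖(x : ℂ) * I‖ = |x| := by simp
    refine (norm_sub_le _ _).trans ?_
    rw [h2]
    nlinarith [sq_abs x]

theorem tv_bound (P : ℂ[X]) : ∃ L : ℝ, 0 ≤ L ∧ (∀ t, ‖tv P t‖ ≤ L) ∧
    (∀ t h : ℝ, ‖tv P (t + h) - tv P t‖ ≤ L * |h|) ∧
    (∀ t h : ℝ, ‖tv P (t + h) - tv P t - h * I * tv (eu P) t‖ ≤ L * h ^ 2) := by
  induction P using Polynomial.induction_on' with
  | add P Q hP hQ =>
    obtain ⟨L1, h1, h2, h3, h4⟩ := hP
    obtain ⟨L2, k1, k2, k3, k4⟩ := hQ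
    refine ⟨L1 + L2, by positivity, fun t => ?_, fun t h => ?_, fun t h => ?_⟩
    · rw [tv_add]
      exact (norm_add_le _ _).trans (add_le_add (h2 t) (k2 t))
    · have : tv (P + Q) (t + h) - tv (P + Q) t =
          (tv P (t + h) - tv P t) + (tv Q (t + h) - tv Q t) := by
        simp only [tv_add]; ring
      rw [this, add_mul]
      exact (norm_add_le _ _).trans (add_le_add (h3 t h) (k3 t h))
    · have : tv (P + Q) (t + h) - tv (P + Q) t - h * I * tv (eu (P + Q)) t =
          (tv P (t + h) - tv P t - h * I * tv (eu P) t) +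
          (tv Q (t + h) - tv Q t - h * I * tv (eu Q) t) := by
        simp only [tv_add, eu_add]; ring
      rw [this, add_mul]
      exact (norm_add_le _ _).trans (add_le_add (h4 t h) (k4 t h))
  | monomial n a =>
    have hn : (0 : ℝ) ≤ n := Nat.cast_nonneg n
    have e0 : ∀ t : ℝ, ‖cexp (n * t * I)‖ = 1 := by
      intro t
      have := norm_exp_I (n * t)
      push_cast at this
      exact this
    have e1 : ∀ t h : ℝ, cexp (n * ((t + h : ℝ) : ℂ) * I) =
        cexp (n * t * I) * cexp (((n * h : ℝ) : ℂ) * I) := by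
      intro t h
      rw [← Complex.exp_add]
      push_cast
      ring_nf
    refine ⟨‖a‖ * (1 + n + 2 * n ^ 2), by positivity, fun t => ?_, fun t h => ?_, fun t h => ?_⟩
    · rw [tv_monomial, norm_mul, e0, mul_one]
      nlinarith [norm_nonneg a, mul_nonneg (norm_nonneg a) hn,
        mul_nonneg (norm_nonneg a) (mul_nonneg hn hn)]
    · have : tv (monomial n a) (t + h) - tv (monomial n a) t =
          a * (cexp (n * t * I) * (cexp (((n * h : ℝ) : ℂ) * I) - 1)) := by
        rw [tv_monomial, tv_monomial, e1]; ring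
      rw [this, norm_mul, norm_mul, e0, one_mul, mul_assoc]
      apply mul_le_mul_of_nonneg_left _ (norm_nonneg a)
      refine (norm_exp_sub_one_le _).trans ?_
      rw [abs_mul, Nat.abs_cast]
      apply mul_le_mul_of_nonneg_right _ (abs_nonneg h)
      nlinarith
    · have : tv (monomial n a) (t + h) - tv (monomial n a) t -
          h * I * tv (eu (monomial n a)) t =
          a * (cexp (n * t * I) * (cexp (((n * h : ℝ) : ℂ) * I) - 1 -
            ((n * h : ℝ) : ℂ) * I)) := by
        rw [tv_monomial, tv_monomial, tv_eu_monomial, e1]; push_cast; ring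
      rw [this, norm_mul, norm_mul, e0, one_mul, mul_assoc]
      apply mul_le_mul_of_nonneg_left _ (norm_nonneg a)
      refine (norm_exp_sub_one_sub_le _).trans ?_
      rw [mul_pow, ← mul_assoc]
      apply mul_le_mul_of_nonneg_right _ (sq_nonneg h)
      nlinarith

/-- The polynomial whose boundary value is `exp (i N t)` times the conjugate of that of `P`. -/
noncomputable def rev (N : ℕ) (P : ℂ[X]) : ℂ[X] := reflect N (P.map (starRingEnd ℂ))

theorem rev_coeff_zero {N : ℕ} {P : ℂ[X]} (h : P.natDegree < N) : (rev N P).coeff 0 = 0 := by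
  rw [rev, coeff_reflect, revAt_zero]
  rw [coeff_map, coeff_eq_zero_of_natDegree_lt h, map_zero]

theorem tv_rev {N : ℕ} {P : ℂ[X]} (h : P.natDegree ≤ N) (t : ℝ) :
    tv (rev N P) t = cexp (N * t * I) * conj (tv P t) := by
  have hu : cexp (t * I) ≠ 0 := Complex.exp_ne_zero _
  have hinv : (cexp (t * I))⁻¹ = conj (cexp (t * I)) := by
    rw [← Complex.exp_neg, ← Complex.exp_conj]
    congr 1
    simp
  have hd : (P.map (starRingEnd ℂ)).natDegree ≤ N := (natDegree_map_le).trans h
  let i : Invertible (cexp (t * I))⁻¹ := invertibleOfNonzero (inv_ne_zero hu)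
  have h1 := eval₂_reflect_mul_pow (RingHom.id ℂ) (cexp (t * I))⁻¹ N
    (P.map (starRingEnd ℂ)) hd
  rw [invOf_eq_inv, inv_inv, eval₂_id, eval₂_id, inv_pow, ← div_eq_mul_inv,
    div_eq_iff (pow_ne_zero _ hu)] at h1
  have h2 : eval (cexp (t * I))⁻¹ (P.map (starRingEnd ℂ)) = conj (tv P t) := by
    rw [hinv, tv, ← Polynomial.eval_map_apply]
  rw [tv, rev, h1, h2, mul_comm, ← Complex.exp_nat_mul, mul_assoc]

end Pool.Agent.RudinExc
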